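import Pool.Agent.Lib.MP_5f6665_al.Defs

namespace Pool.Agent.Lib.MP_5f6665_al

@[simp] theorem sg_true : sg true = -1 := rfl
@[simp] theorem sg_false : sg false = 1 := rfl

/-- super-alternativity of a pair of homogeneous components (a superalgebra),
with torsion free additive group. -/
class AltSuper {S : Type*} [NonUnitalNonAssocRing S] (P : Bool → AddSubgroup S) : Prop where
  mul_mem : ∀ {p q : Bool} {u v : S}, u ∈ P p → v ∈ P q → u * v ∈ P (xor p q)
  alt_left : ∀ {p q : Bool} {u v : S} (w : S), u ∈ P p → v ∈ P q →
    associator u v w + sg (p && q) • associator v u w = 0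
  alt_right : ∀ {p q : Bool} {u v : S} (w : S), u ∈ P p → v ∈ P q →
    associator w u v + sg (p && q) • associator w v u = 0
  tf : ∀ (n : ℤ) (s : S), n ≠ 0 → n • s = 0 → s = 0

variable {S : Type*} [NonUnitalNonAssocRing S] (P : Bool → AddSubgroup S)

/-- homogeneous elements -/
structure HE where
  val : S
  par : Bool
  mem : val ∈ P par

variable {P}

theorem HE.ext' {a b : HE P} (h : a.val = b.val) (h' : a.par = b.par) : a = b := by
  cases a; cases b; simp_all

variable [AltSuper P]

omit [AltSuper P] in
theorem tcancel (P : Bool → AddSubgroup S) [AltSuper P] (n : ℤ) (hn : n ≠ 0) {s t : S} (h : n • s = n • t) : s = t := by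
  have := AltSuper.tf (P := P) n (s - t) hn (by rw [smul_sub, h, sub_self])
  exact sub_eq_zero.mp this

/-- product of homogeneous elements -/
def mu (a b : HE P) : HE P := ⟨a.val * b.val, xor a.par b.par, AltSuper.mul_mem a.mem b.mem⟩

/-- Jordan super-product -/
def jo (a b : HE P) : HE P :=
  ⟨a.val * b.val + sg (a.par && b.par) • (b.val * a.val), xor a.par b.par, by
    refine AddSubgroup.add_mem _ (AltSuper.mul_mem a.mem b.mem) (AddSubgroup.zsmul_mem _ ?_ _)
    rw [Bool.xor_comm]; exact AltSuper.mul_mem b.mem a.mem⟩

/-- super-commutator -/
def br (a b : HE P) : HE P :=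
  ⟨a.val * b.val - sg (a.par && b.par) • (b.val * a.val), xor a.par b.par, by
    refine AddSubgroup.sub_mem _ (AltSuper.mul_mem a.mem b.mem) (AddSubgroup.zsmul_mem _ ?_ _)
    rw [Bool.xor_comm]; exact AltSuper.mul_mem b.mem a.mem⟩

/-- associator -/
def asr (a b c : HE P) : HE P :=
  ⟨associator a.val b.val c.val, xor (xor a.par b.par) c.par, by
    refine AddSubgroup.sub_mem _ (AltSuper.mul_mem (AltSuper.mul_mem a.mem b.mem) c.mem) ?_
    rw [Bool.xor_assoc]; exact AltSuper.mul_mem a.mem (AltSuper.mul_mem b.mem c.mem)⟩

theorem altL (a b c : HE P) :
    associator a.val b.val c.val + sg (a.par && b.par) • associator b.val a.val c.val = 0 :=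
  AltSuper.alt_left (P := P) c.val a.mem b.mem

theorem altR (a b c : HE P) :
    associator a.val b.val c.val + sg (b.par && c.par) • associator a.val c.val b.val = 0 :=
  AltSuper.alt_right (P := P) a.val b.mem c.mem

section assoc_lin
variable (x y z w : S) (n : ℤ)
theorem as1 : associator (x + y) z w = associator x z w + associator y z w := by
  simp only [associator, add_mul]; abel
theorem as2 : associator x (y + z) w = associator x y w + associator x z w := by
  simp only [associator, add_mul, mul_add]; abel
theorem as3 : associator x y (z + w) = associator x y z + associator x y w := by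
  simp only [associator, mul_add]; abel
theorem as4 : associator (x - y) z w = associator x z w - associator y z w := by
  simp only [associator, sub_mul]; abel
theorem as5 : associator x (y - z) w = associator x y w - associator x z w := by
  simp only [associator, sub_mul, mul_sub]; abel
theorem as6 : associator x y (z - w) = associator x y z - associator x y w := by
  simp only [associator, mul_sub]; abel
theorem as7 : associator (n • x) y z = n • associator x y z := by
  simp only [associator, smul_mul_assoc, smul_sub]
theorem as8 : associator x (n • y) z = n • associator x y z := by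
  simp only [associator, smul_mul_assoc, mul_smul_comm, smul_sub]
theorem as9 : associator x y (n • z) = n • associator x y z := by
  simp only [associator, mul_smul_comm, smul_sub]
theorem as10 : associator (-x) y z = - associator x y z := by
  simp only [associator, neg_mul]; abel
theorem as11 : associator x (-y) z = - associator x y z := by
  simp only [associator, neg_mul, mul_neg]; abel
theorem as12 : associator x y (-z) = - associator x y z := by
  simp only [associator, mul_neg]; abel
end assoc_lin


set_option linter.unusedSimpArgs false

theorem J3 (a b c : HE P) : (br (jo a b) c).val =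
    (jo a (br b c)).val + sg (b.par && c.par) • (jo (br a c) b).val := by
  linear_combination (norm := skip) (2:ℤ) • altL a b c + sg (c.par && xor a.par b.par) • altR c a b - sg (b.par && c.par) • altR a c b - sg (a.par && xor b.par c.par) • altR b c a
  simp only [associator, jo, br, mul_add, add_mul, mul_sub, sub_mul, smul_mul_assoc, mul_smul_comm]
  generalize a.par = p
  generalize b.par = q
  generalize c.par = r
  cases p <;> cases q <;> cases r <;> simp only [Bool.xor_true, Bool.xor_false, Bool.and_true, Bool.and_false, Bool.not_true, Bool.not_false, sg_true, sg_false] <;> abel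

theorem OO (a b c : HE P) : (br (br a b) c).val = (6:ℤ) • associator a.val b.val c.val +
    (br a (br b c)).val + sg (b.par && c.par) • (br (br a c) b).val := by
  linear_combination (norm := skip) (-2:ℤ) • altL a b c - sg (c.par && xor a.par b.par) • altR c a b - (3:ℤ) • sg (b.par && c.par) • altR a c b + sg (a.par && xor b.par c.par) • altR b c a + (2:ℤ) • sg (b.par && c.par) • altL a c b
  simp only [associator, jo, br, mul_add, add_mul, mul_sub, sub_mul, smul_mul_assoc, mul_smul_comm]
  generalize a.par = p
  generalize b.par = q
  generalize c.par = r
  cases p <;> cases q <;> cases r <;> simp only [Bool.xor_true, Bool.xor_false, Bool.and_true, Bool.and_false, Bool.not_true, Bool.not_false, sg_true, sg_false] <;> abel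

theorem sg_mul_self (p : Bool) : sg p * sg p = 1 := by cases p <;> rfl
theorem sg_smul_self {M : Type*} [AddCommGroup M] (p : Bool) (m : M) : sg p • sg p • m = m := by
  cases p <;> simp

theorem perm132 (a b c : HE P) : associator a.val c.val b.val = -(sg (b.par && c.par) • associator a.val b.val c.val) := by
  have := altR a c b
  rw [eq_neg_iff_add_eq_zero, Bool.and_comm b.par c.par]; exact this

theorem perm213 (a b c : HE P) : associator b.val a.val c.val = -(sg (a.par && b.par) • associator a.val b.val c.val) := by
  have := altL b a c
  rw [eq_neg_iff_add_eq_zero, Bool.and_comm a.par b.par]; exact this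

theorem perm231 (a b c : HE P) : associator b.val c.val a.val = sg (a.par && xor b.par c.par) • associator a.val b.val c.val := by
  rw [perm132 b a c, perm213 a b c]
  generalize associator a.val b.val c.val = t
  generalize a.par = p
  generalize b.par = q
  generalize c.par = r
  cases p <;> cases q <;> cases r <;> simp

theorem perm312 (a b c : HE P) : associator c.val a.val b.val = sg (c.par && xor a.par b.par) • associator a.val b.val c.val := by
  rw [perm213 a c b, perm132 a b c]
  generalize associator a.val b.val c.val = t
  generalize a.par = p
  generalize b.par = q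
  generalize c.par = r
  cases p <;> cases q <;> cases r <;> simp

theorem perm321 (a b c : HE P) : associator c.val b.val a.val = -(sg (xor (a.par && b.par) (xor (a.par && c.par) (b.par && c.par))) • associator a.val b.val c.val) := by
  rw [perm213 b c a, perm231 a b c]
  generalize associator a.val b.val c.val = t
  generalize a.par = p
  generalize b.par = q
  generalize c.par = r
  cases p <;> cases q <;> cases r <;> simp

theorem teich (a b c d : S) : associator (a * b) c d - associator a (b * c) d + associator a b (c * d)
    = a * associator b c d + associator a b c * d := by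
  simp only [associator, mul_sub, sub_mul]; abel

theorem TT4 (a b c d : HE P) : associator (a.val * b.val) c.val d.val
    + sg (a.par && xor b.par c.par) • associator (b.val * c.val) a.val d.val
    + sg (xor a.par b.par && xor c.par d.par) • associator (c.val * d.val) a.val b.val
    = a.val * associator b.val c.val d.val + associator a.val b.val c.val * d.val := by
  rw [← teich]
  have e1 := perm213 (mu b c) a d
  have e2 := perm231 (mu c d) a b
  simp only [mu] at e1 e2
  rw [e1, e2]
  generalize associator (b.val * c.val) a.val d.val = t1
  generalize associator (c.val * d.val) a.val b.val = t2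
  generalize associator (a.val * b.val) c.val d.val = t3
  generalize a.par = p
  generalize b.par = q
  generalize c.par = r
  generalize d.par = s
  cases p <;> cases q <;> cases r <;> cases s <;> simp only [Bool.xor_true, Bool.xor_false, Bool.and_true, Bool.and_false, Bool.not_true, Bool.not_false, sg_true, sg_false] <;> abel

theorem KK (a b c d : HE P) : (3:ℤ) • associator (a.val * b.val) c.val d.val
    = (3 * sg (a.par && b.par)) • (b.val * associator a.val c.val d.val) 
     + (3 * sg (a.par && xor b.par (xor c.par d.par))) • (associator b.val c.val d.val * a.val)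
     + (br a (asr b c d)).val - sg (a.par && b.par) • (br b (asr a c d)).val
     + sg (c.par && xor a.par b.par) • (br c (asr a b d)).val
     - sg (d.par && xor a.par (xor b.par c.par)) • (br d (asr a b c)).val := by
  have e1 := perm132 (mu b c) a d
  have e2 := perm132 (mu c d) a b
  have e3 := perm132 (mu d a) b c
  have e4 := perm132 (mu a b) c d
  have t1 := TT4 a b c d
  have t2 := TT4 b c d a
  have t3 := TT4 c d a b
  have t4 := TT4 d a b c
  simp only [mu] at e1 e2 e3 e4
  rw [perm231 a c d, e1, e2] at t2
  rw [perm231 a c d, perm312 a b d, e3] at t3
  rw [perm312 a b d, e4, e1] at t4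
  linear_combination (norm := skip) t1 + (2 * sg (a.par && xor b.par (xor c.par d.par))) • t2 + sg (xor a.par b.par && xor c.par d.par) • t3 - sg (d.par && xor a.par (xor b.par c.par)) • t4
  simp only [br, asr, smul_mul_assoc, mul_smul_comm]
  generalize a.par = p
  generalize b.par = q
  generalize c.par = r
  generalize d.par = s
  cases p <;> cases q <;> cases r <;> cases s <;> simp only [Bool.xor_true, Bool.xor_false, Bool.and_true, Bool.and_false, Bool.not_true, Bool.not_false, sg_true, sg_false] <;> simp only [mul_neg, mul_one, neg_mul, one_mul, smul_neg, neg_smul, one_smul, neg_neg, smul_mul_assoc, mul_smul_comm] <;> abel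


section four
variable (a b c d e : HE P)

theorem J4 : associator (jo a b).val c.val d.val =
    (jo a (asr b c d)).val + sg (b.par && xor c.par d.par) • (jo (asr a c d) b).val := by
  apply tcancel P 3 (by norm_num)
  linear_combination (norm := skip) KK a b c d + sg (a.par && b.par) • KK b a c d
  simp only [jo, br, asr, mu, mul_add, add_mul, mul_sub, sub_mul, mul_neg, neg_mul, smul_mul_assoc, mul_smul_comm, smul_neg, neg_neg, smul_add, smul_sub, as1, as2, as3, as4, as5, as6, as7, as8, as9, as10, as11, as12, perm132 a b c, perm213 a b c, perm231 a b c, perm312 a b c, perm321 a b c, perm132 a b d, perm213 a b d, perm231 a b d, perm312 a b d, perm321 a b d, perm132 a c d, perm213 a c d, perm231 a c d, perm312 a c d, perm321 a c d, perm132 b c d, perm213 b c d, perm231 b c d, perm312 b c d, perm321 b c d]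
  generalize a.par = p
  generalize b.par = q
  generalize c.par = r
  generalize d.par = s
  cases p <;> cases q <;> cases r <;> cases s <;> simp only [Bool.xor_true, Bool.xor_false, Bool.and_true, Bool.and_false, Bool.not_true, Bool.not_false, sg_true, sg_false] <;> simp only [mul_neg, mul_one, neg_mul, one_mul, smul_neg, neg_smul, one_smul, neg_neg] <;> abel

theorem H1 : sg (b.par && c.par) • associator (br a c).val b.val d.val
     + sg (d.par && xor b.par c.par) • associator (br a d).val b.val c.val
    = associator a.val (br b c).val d.val + sg (c.par && d.par) • associator a.val (br b d).val c.val := by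
  apply tcancel P 3 (by norm_num)
  have e1 := perm213 (mu b c) a d
  have e2 := perm213 (mu c b) a d
  have e3 := perm213 (mu b d) a c
  have e4 := perm213 (mu d b) a c
  simp only [mu] at e1 e2 e3 e4
  linear_combination (norm := skip) sg (b.par && c.par) • KK a c b d - sg (xor (a.par && c.par) (b.par && c.par)) • KK c a b d + sg (xor (b.par && d.par) (c.par && d.par)) • KK a d b c - sg (xor (a.par && d.par) (xor (b.par && d.par) (c.par && d.par))) • KK d a b c + sg (xor (a.par && b.par) (a.par && c.par)) • KK b c a d - sg (xor (b.par && c.par) (xor (a.par && c.par) (a.par && b.par))) • KK c b a d + sg (xor (a.par && b.par) (xor (a.par && d.par) (c.par && d.par))) • KK b d a c - sg (xor (b.par && d.par) (xor (a.par && d.par) (xor (c.par && d.par) (a.par && b.par)))) • KK d b a c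
  simp only [jo, br, asr, mu, mul_add, add_mul, mul_sub, sub_mul, mul_neg, neg_mul, smul_mul_assoc, mul_smul_comm, smul_neg, neg_neg, smul_add, smul_sub, as1, as2, as3, as4, as5, as6, as7, as8, as9, as10, as11, as12, e1, e2, e3, e4, perm132 a b c, perm213 a b c, perm231 a b c, perm312 a b c, perm321 a b c, perm132 a b d, perm213 a b d, perm231 a b d, perm312 a b d, perm321 a b d, perm132 a c d, perm213 a c d, perm231 a c d, perm312 a c d, perm321 a c d, perm132 b c d, perm213 b c d, perm231 b c d, perm312 b c d, perm321 b c d]
  generalize a.par = p
  generalize b.par = q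
  generalize c.par = r
  generalize d.par = s
  cases p <;> cases q <;> cases r <;> cases s <;> simp only [Bool.xor_true, Bool.xor_false, Bool.and_true, Bool.and_false, Bool.not_true, Bool.not_false, sg_true, sg_false] <;> simp only [mul_neg, mul_one, neg_mul, one_mul, smul_neg, neg_smul, one_smul, neg_neg] <;> abel

theorem STAR : (br (asr a b c) d).val = sg (d.par && xor b.par c.par) • (associator (br a d).val b.val c.val
     - (br a (asr d b c)).val + (2:ℤ) • associator a.val d.val (br b c).val) := by
  apply tcancel P 3 (by norm_num)
  have e1 := perm231 (mu b c) a d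
  have e2 := perm231 (mu c b) a d
  simp only [mu] at e1 e2
  linear_combination (norm := skip) - sg (xor (b.par && d.par) (c.par && d.par)) • KK a d b c + sg (xor (a.par && d.par) (xor (b.par && d.par) (c.par && d.par))) • KK d a b c - (2:ℤ) • sg (xor (a.par && b.par) (a.par && c.par)) • KK b c a d + (2:ℤ) • sg (xor (b.par && c.par) (xor (a.par && c.par) (a.par && b.par))) • KK c b a d
  simp only [jo, br, asr, mu, mul_add, add_mul, mul_sub, sub_mul, mul_neg, neg_mul, smul_mul_assoc, mul_smul_comm, smul_neg, neg_neg, smul_add, smul_sub, as1, as2, as3, as4, as5, as6, as7, as8, as9, as10, as11, as12, e1, e2, perm132 a b c, perm213 a b c, perm231 a b c, perm312 a b c, perm321 a b c, perm132 a b d, perm213 a b d, perm231 a b d, perm312 a b d, perm321 a b d, perm132 a c d, perm213 a c d, perm231 a c d, perm312 a c d, perm321 a c d, perm132 b c d, perm213 b c d, perm231 b c d, perm312 b c d, perm321 b c d]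
  generalize a.par = p
  generalize b.par = q
  generalize c.par = r
  generalize d.par = s
  cases p <;> cases q <;> cases r <;> cases s <;> simp only [Bool.xor_true, Bool.xor_false, Bool.and_true, Bool.and_false, Bool.not_true, Bool.not_false, sg_true, sg_false] <;> simp only [mul_neg, mul_one, neg_mul, one_mul, smul_neg, neg_smul, one_smul, neg_neg] <;> abel

end four

section five
variable (a e b c d : HE P)

theorem CROSS : sg (c.par && xor e.par b.par) • (jo (br a c) (asr e b d)).val
    + sg (xor (e.par && b.par) (xor (e.par && d.par) (c.par && d.par))) • (jo (asr a b d) (br e c)).val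
    + sg (d.par && xor e.par (xor b.par c.par)) • (jo (br a d) (asr e b c)).val
    + sg (xor (e.par && b.par) (e.par && c.par)) • (jo (asr a b c) (br e d)).val = 0 := by
  have h := H1 (jo a e) b c d
  have j1 := congrArg (fun t => associator t b.val d.val) (J3 a e c)
  have j2 := congrArg (fun t => associator t b.val c.val) (J3 a e d)
  have k1 := J4 a (br e c) b d
  have k2 := J4 (br a c) e b d
  have k3 := J4 a (br e d) b c
  have k4 := J4 (br a d) e b c
  have k5 := J4 a e (br b c) d
  have k6 := J4 a e (br b d) c
  have m1 := congrArg (fun t => a.val * t) (H1 e b c d)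
  have m2 := congrArg (fun t => t * a.val) (H1 e b c d)
  have m3 := congrArg (fun t => e.val * t) (H1 a b c d)
  have m4 := congrArg (fun t => t * e.val) (H1 a b c d)
  simp only [as1, as7] at j1 j2
  linear_combination (norm := skip) h - sg (b.par && c.par) • j1 - sg (d.par && xor b.par c.par) • j2
    - sg (b.par && c.par) • k1 - sg (b.par && c.par) • sg (e.par && c.par) • k2
    - sg (d.par && xor b.par c.par) • k3 - sg (d.par && xor b.par c.par) • sg (e.par && d.par) • k4
    + k5 + sg (c.par && d.par) • k6
    - m1 - sg (a.par && xor e.par (xor b.par (xor c.par d.par))) • m2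
    - sg (e.par && xor b.par (xor c.par d.par)) • m4
    - sg (e.par && xor b.par (xor c.par d.par)) • sg (e.par && xor a.par (xor b.par (xor c.par d.par))) • m3
  simp only [jo, br, asr, mu, mul_add, add_mul, mul_sub, sub_mul, mul_neg, neg_mul, smul_mul_assoc, mul_smul_comm, smul_neg, neg_neg, smul_add, smul_sub, as1, as2, as3, as4, as5, as6, as7, as8, as9, as10, as11, as12]
  generalize a.par = p
  generalize e.par = v
  generalize b.par = q
  generalize c.par = r
  generalize d.par = s
  cases p <;> cases v <;> cases q <;> cases r <;> cases s <;> simp only [Bool.xor_true, Bool.xor_false, Bool.and_true, Bool.and_false, Bool.not_true, Bool.not_false, sg_true, sg_false] <;> simp only [mul_neg, mul_one, neg_mul, one_mul, smul_neg, neg_smul, one_smul, neg_neg] <;> abel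

end five
end Pool.Agent.Lib.MP_5f6665_al
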