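import Pool.Agent.Lib.MP_5f6665_al.Check

/-! Certificates for `u_1, …, u_12`, checked by kernel evaluation. -/

namespace Pool.Agent.Lib.MP_5f6665_al

theorem cert1_ok : chk 0 false 1 [] = true := by decide +kernel
theorem cert2_ok : chk 0 true 1 [] = true := by decide +kernel
theorem cert3_ok : chk 1 false 1 [] = true := by decide +kernel
theorem cert4_ok : chk 1 true 6 [(1, .uu (.c0 0) (.c0 0) (.c0 0))] = true := by decide +kernel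

/-- certificate for `u_5` -/
def cert5 : List (ℤ × Inst) := [
  (-4, .g4 0 (.c0 1) (.c0 0) (.c0 0)),
  (2, .g3 0 (.c0 1) (.c0 1) (.c0 0)),
  (1, .g2 0 (.c0 2) (.c0 0) (.c0 1)),
  (1, .g3 0 (.c0 2) (.c0 0) (.c0 0)),
  (-2, .g3 0 (.c1 0) (.c0 0) (.c0 0)),
  (-1, .g2 0 (.c3 0) (.c0 0) (.c0 0)),
  (-1, .mm (.c0 0) (.c0 0) (.c3 0)),
  (-2, .mm (.c0 0) (.c0 1) (.c0 2)),
  (2, .mm (.c0 0) (.c0 1) (.c1 0)),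
  (-2, .mm (.c0 0) (.c0 3) (.c0 0)),
  (-2, .xa (.c0 0) (.c0 0) (.c1 0)),
  (2, .xa (.c0 0) (.c0 1) (.c0 1)),
  (2, .xa (.c0 0) (.c0 2) (.c0 0)),
  (3, .uu (.c0 0) (.c0 0) (.c0 1))]

theorem cert5_ok : chk 2 false 12 cert5 = true := by decide +kernel

/-- certificate for `u_6` -/
def cert6 : List (ℤ × Inst) := [
  (4, .g2 0 (.c0 1) (.c0 0) (.c3 0)),
  (4, .g4 0 (.c0 1) (.c0 0) (.c0 1)),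
  (-2, .g3 0 (.c0 1) (.c0 2) (.c0 0)),
  (-2, .g2 0 (.c0 2) (.c0 0) (.c0 2)),
  (-2, .g2 0 (.c0 2) (.c0 0) (.c1 0)),
  (-2, .g4 0 (.c0 2) (.c0 0) (.c0 0)),
  (4, .g3 0 (.c0 2) (.c0 1) (.c0 0)),
  (3, .g2 0 (.c0 3) (.c0 0) (.c0 1)),
  (1, .g3 0 (.c0 3) (.c0 0) (.c0 0)),
  (1, .mm (.c0 0) (.c0 0) (.c0 4)),
  (4, .mm (.c0 0) (.c0 1) (.c0 3)),
  (-4, .mm (.c0 0) (.c0 1) (.c3 0)),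
  (-2, .mm (.c0 0) (.c0 2) (.c0 2)),
  (2, .mm (.c0 0) (.c0 2) (.c1 0)),
  (2, .mm (.c0 0) (.c3 1) (.c0 0)),
  (6, .xa (.c0 0) (.c0 2) (.c0 1)),
  (2, .xa (.c0 0) (.c0 3) (.c0 0)),
  (4, .xa (.c0 1) (.c0 2) (.c0 0)),
  (1, .tt (.c0 0) (.c0 0) (.c0 2)),
  (4, .tt (.c0 0) (.c0 1) (.c0 1)),
  (-2, .tt (.c0 0) (.c0 2) (.c0 0)),
  (15, .uu (.c0 0) (.c0 0) (.c0 2))]

theorem cert6_ok : chk 2 true 24 cert6 = true := by decide +kernel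

/-- certificate for `u_7` -/
def cert7 : List (ℤ × Inst) := [
  (3, .vv 2 false 0 0 1)]

theorem cert7_ok : chk 3 false 4 cert7 = true := by decide +kernel

/-- certificate for `u_8` -/
def cert8 : List (ℤ × Inst) := [
  (72, .g2 0 (.c0 1) (.c0 0) (.c3 2)),
  (162, .g2 0 (.c0 1) (.c0 2) (.c3 0)),
  (72, .g4 0 (.c0 1) (.c0 0) (.c0 3)),
  (-2520, .g4 0 (.c0 1) (.c0 0) (.c3 0)),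
  (180, .g4 0 (.c0 1) (.c0 1) (.c0 2)),
  (-1572, .g4 0 (.c0 1) (.c1 0) (.c0 1)),
  (432, .g3 0 (.c0 1) (.c0 0) (.c3 1)),
  (726, .g2 0 (.c0 1) (.c0 0) (.c2 1)),
  (-72, .g2 0 (.c0 1) (.c0 2) (.c0 3)),
  (-288, .g3 0 (.c0 1) (.c0 3) (.c0 1)),
  (-180, .g3 0 (.c0 1) (.c0 2) (.c0 2)),
  (72, .g3 0 (.c0 1) (.c1 0) (.c0 2)),
  (342, .g3 0 (.c0 1) (.c3 0) (.c0 1)),
  (-798, .g3 0 (.c0 1) (.c2 0) (.c0 0)),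
  (-96, .g2 1 (.c0 1) (.c3 0) (.c0 1)),
  (-108, .g3 1 (.c0 1) (.c0 0) (.c3 0)),
  (-36, .g2 1 (.c0 1) (.c0 2) (.c0 2)),
  (-24, .g4 1 (.c0 1) (.c0 0) (.c0 2)),
  (-96, .g3 1 (.c0 1) (.c0 2) (.c0 1)),
  (144, .g2 0 (.c0 2) (.c0 2) (.c0 2)),
  (180, .g2 0 (.c1 0) (.c0 2) (.c0 2)),
  (828, .g2 0 (.c0 2) (.c0 0) (.c3 1)),
  (-216, .g2 0 (.c1 0) (.c0 0) (.c3 1)),
  (36, .g2 0 (.c0 2) (.c0 1) (.c3 0)),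
  (702, .g2 0 (.c1 0) (.c0 1) (.c3 0)),
  (-36, .g4 0 (.c0 2) (.c0 0) (.c0 2)),
  (-324, .g4 0 (.c1 0) (.c0 0) (.c0 2)),
  (-486, .g3 0 (.c0 2) (.c0 0) (.c3 0)),
  (2664, .g3 0 (.c1 0) (.c0 0) (.c3 0)),
  (-864, .g2 0 (.c0 2) (.c0 0) (.c2 0)),
  (2070, .g2 0 (.c1 0) (.c0 0) (.c2 0)),
  (180, .g2 0 (.c0 2) (.c0 2) (.c1 0)),
  (-612, .g2 0 (.c1 0) (.c0 2) (.c1 0)),
  (-288, .g3 0 (.c0 2) (.c0 2) (.c0 1)),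
  (1008, .g3 0 (.c1 0) (.c0 2) (.c0 1)),
  (72, .g3 0 (.c0 2) (.c1 0) (.c0 1)),
  (-936, .g3 0 (.c1 0) (.c1 0) (.c0 1)),
  (108, .g3 0 (.c0 2) (.c0 3) (.c0 0)),
  (-612, .g3 0 (.c1 0) (.c0 3) (.c0 0)),
  (168, .g2 1 (.c0 2) (.c3 0) (.c0 0)),
  (-312, .g2 1 (.c1 0) (.c3 0) (.c0 0)),
  (-72, .g2 1 (.c0 2) (.c0 1) (.c0 2)),
  (72, .g2 1 (.c1 0) (.c0 1) (.c0 2)),
  (36, .g4 1 (.c0 2) (.c0 0) (.c0 1)),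
  (108, .g4 1 (.c1 0) (.c0 0) (.c0 1)),
  (-60, .g3 1 (.c0 2) (.c0 2) (.c0 0)),
  (204, .g3 1 (.c1 0) (.c0 2) (.c0 0)),
  (-648, .g2 0 (.c0 3) (.c0 0) (.c3 0)),
  (-774, .g2 0 (.c3 0) (.c0 0) (.c3 0)),
  (-324, .g4 0 (.c0 3) (.c0 0) (.c0 1)),
  (696, .g4 0 (.c1 1) (.c0 0) (.c0 1)),
  (-300, .g4 0 (.c3 0) (.c0 0) (.c0 1)),
  (-108, .g2 0 (.c0 3) (.c0 0) (.c0 3)),
  (-144, .g2 0 (.c1 1) (.c0 0) (.c0 3)),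
  (252, .g2 0 (.c3 0) (.c0 0) (.c0 3)),
  (-54, .g2 0 (.c0 3) (.c0 1) (.c1 0)),
  (-108, .g2 0 (.c1 1) (.c0 1) (.c1 0)),
  (162, .g2 0 (.c3 0) (.c0 1) (.c1 0)),
  (-72, .g3 0 (.c0 3) (.c0 2) (.c0 0)),
  (216, .g3 0 (.c3 0) (.c0 2) (.c0 0)),
  (-18, .g4 1 (.c0 3) (.c0 0) (.c0 0)),
  (4, .g4 1 (.c1 1) (.c0 0) (.c0 0)),
  (14, .g4 1 (.c3 0) (.c0 0) (.c0 0)),
  (-18, .g2 1 (.c0 3) (.c0 0) (.c1 0)),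
  (44, .g2 1 (.c1 1) (.c0 0) (.c1 0)),
  (-26, .g2 1 (.c3 0) (.c0 0) (.c1 0)),
  (-96, .g3 1 (.c1 1) (.c0 1) (.c0 0)),
  (96, .g3 1 (.c3 0) (.c0 1) (.c0 0)),
  (12, .g2 2 (.c0 3) (.c0 1) (.c0 0)),
  (16, .g2 2 (.c1 1) (.c0 1) (.c0 0)),
  (-28, .g2 2 (.c3 0) (.c0 1) (.c0 0)),
  (-36, .g2 0 (.c0 4) (.c0 0) (.c0 2)),
  (-180, .g2 0 (.c2 0) (.c0 0) (.c0 2)),
  (54, .g2 0 (.c3 1) (.c0 0) (.c0 2)),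
  (-144, .g2 0 (.c2 0) (.c0 0) (.c1 0)),
  (-594, .g2 0 (.c3 1) (.c0 0) (.c1 0)),
  (-36, .g4 0 (.c0 4) (.c0 0) (.c0 0)),
  (-162, .g4 0 (.c2 0) (.c0 0) (.c0 0)),
  (-540, .g4 0 (.c3 1) (.c0 0) (.c0 0)),
  (-342, .g3 0 (.c2 0) (.c0 1) (.c0 0)),
  (252, .g3 0 (.c3 1) (.c0 1) (.c0 0)),
  (-12, .g3 1 (.c0 4) (.c0 0) (.c0 0)),
  (-6, .g3 1 (.c2 0) (.c0 0) (.c0 0)),
  (18, .g3 1 (.c3 1) (.c0 0) (.c0 0)),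
  (-54, .g2 1 (.c2 0) (.c0 0) (.c0 1)),
  (4, .g2 2 (.c0 4) (.c0 0) (.c0 0)),
  (20, .g2 2 (.c2 0) (.c0 0) (.c0 0)),
  (-6, .g2 2 (.c3 1) (.c0 0) (.c0 0)),
  (-9, .g2 0 (.c2 1) (.c0 0) (.c0 1)),
  (243, .g3 0 (.c2 1) (.c0 0) (.c0 0)),
  (-9, .g2 0 (.c2 2) (.c0 0) (.c0 0)),
  (9, .g2 0 (.c5 0) (.c0 0) (.c0 0)),
  (135, .mm (.c0 0) (.c0 0) (.c2 2)),
  (-216, .mm (.c0 0) (.c0 1) (.c2 1)),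
  (-90, .mm (.c0 0) (.c3 0) (.c0 3)),
  (324, .mm (.c0 0) (.c3 0) (.c1 1)),
  (-234, .mm (.c0 0) (.c3 0) (.c3 0)),
  (-198, .mm (.c0 0) (.c2 0) (.c0 2)),
  (126, .mm (.c0 0) (.c2 0) (.c1 0)),
  (-432, .mm (.c0 0) (.c3 1) (.c0 2)),
  (504, .mm (.c0 0) (.c3 1) (.c1 0)),
  (216, .mm (.c0 0) (.c3 2) (.c0 1)),
  (270, .mm (.c0 0) (.c5 0) (.c0 0)),
  (-144, .mm (.c0 1) (.c0 2) (.c0 3)),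
  (90, .mm (.c0 1) (.c3 0) (.c0 2)),
  (-234, .mm (.c0 1) (.c3 0) (.c1 0)),
  (-324, .mm (.c0 1) (.c2 1) (.c0 0)),
  (108, .mm (.c0 1) (.c3 2) (.c0 0)),
  (144, .mm (.c0 2) (.c3 0) (.c0 1)),
  (-72, .mm (.c0 2) (.c2 0) (.c0 0)),
  (72, .mm (.c0 2) (.c3 1) (.c0 0)),
  (1209, .xa (.c0 0) (.c0 0) (.c2 1)),
  (-378, .xa (.c0 0) (.c0 0) (.c3 2)),
  (-60, .xa (.c0 0) (.c0 0) (.c4 0)),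
  (-288, .xa (.c0 0) (.c0 1) (.c3 1)),
  (-342, .xa (.c0 0) (.c0 2) (.c3 0)),
  (-1224, .xa (.c0 0) (.c1 0) (.c3 0)),
  (-252, .xa (.c0 0) (.c2 0) (.c0 1)),
  (-216, .xa (.c0 1) (.c0 3) (.c0 1)),
  (306, .xa (.c0 1) (.c3 0) (.c0 1)),
  (90, .xa (.c0 1) (.c2 0) (.c0 0)),
  (-540, .xa (.c0 1) (.c3 1) (.c0 0)),
  (-108, .xa (.c0 2) (.c0 2) (.c0 1)),
  (-288, .xa (.c0 2) (.c1 0) (.c0 1)),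
  (360, .xa (.c1 0) (.c1 0) (.c0 1)),
  (-594, .xa (.c0 2) (.c3 0) (.c0 0)),
  (-132, .xb (.c0 0) (.c0 0) (.c2 1)),
  (72, .xb (.c0 0) (.c0 0) (.c3 2)),
  (60, .xb (.c0 0) (.c0 0) (.c4 0)),
  (-36, .xb (.c0 0) (.c0 1) (.c3 1)),
  (144, .xb (.c0 0) (.c3 0) (.c0 2)),
  (-144, .xb (.c0 0) (.c3 0) (.c1 0)),
  (288, .xb (.c0 0) (.c2 0) (.c0 1)),
  (-324, .xb (.c0 0) (.c3 1) (.c0 1)),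
  (216, .xb (.c0 1) (.c0 2) (.c0 2)),
  (-216, .xb (.c0 1) (.c0 2) (.c1 0)),
  (-36, .xb (.c0 1) (.c2 0) (.c0 0)),
  (270, .tt (.c0 0) (.c0 0) (.c2 0)),
  (-870, .tt (.c0 0) (.c0 0) (.c3 1)),
  (216, .tt (.c0 1) (.c0 3) (.c0 0)),
  (468, .tt (.c0 1) (.c3 0) (.c0 0)),
  (72, .tt (.c0 2) (.c0 2) (.c0 0)),
  (1008, .tt (.c0 2) (.c1 0) (.c0 0)),
  (-108, .uu (.c0 0) (.c0 0) (.c0 4)),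
  (405, .uu (.c0 0) (.c0 0) (.c2 0)),
  (-108, .uu (.c0 0) (.c0 0) (.c3 1)),
  (270, .uu (.c0 0) (.c0 1) (.c3 0)),
  (-324, .uu (.c0 0) (.c0 2) (.c0 2)),
  (216, .vv 2 true 0 0 1)]

theorem cert8_ok : chk 3 true 216 cert8 = true := by decide +kernel

/-- certificate for `u_9` -/
def cert9 : List (ℤ × Inst) := [
  (24, .g2 0 (.c0 1) (.c0 2) (.c3 1)),
  (24, .g4 0 (.c0 1) (.c0 2) (.c0 2)),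
  (-30, .g2 0 (.c0 1) (.c0 1) (.c3 2)),
  (24, .g2 0 (.c0 1) (.c0 1) (.c4 0)),
  (24, .g2 0 (.c0 1) (.c0 3) (.c3 0)),
  (60, .g4 0 (.c0 1) (.c0 0) (.c2 0)),
  (78, .g4 0 (.c0 1) (.c0 0) (.c3 1)),
  (96, .g4 0 (.c0 1) (.c0 1) (.c3 0)),
  (6, .g4 0 (.c0 1) (.c1 0) (.c0 2)),
  (24, .g4 0 (.c0 1) (.c1 1) (.c0 1)),
  (18, .g3 0 (.c0 1) (.c0 0) (.c3 2)),
  (-48, .g3 0 (.c0 1) (.c1 0) (.c3 0)),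
  (-12, .g3 0 (.c0 1) (.c0 4) (.c0 1)),
  (12, .g3 0 (.c0 1) (.c3 1) (.c0 1)),
  (-96, .g3 0 (.c0 1) (.c0 0) (.c2 1)),
  (-30, .g3 0 (.c0 1) (.c3 0) (.c0 2)),
  (-4, .g3 1 (.c0 1) (.c0 2) (.c0 2)),
  (-4, .g3 1 (.c0 1) (.c3 0) (.c0 1)),
  (-4, .g2 1 (.c0 1) (.c0 2) (.c0 3)),
  (-8, .g4 1 (.c0 1) (.c1 0) (.c0 1)),
  (-4, .g3 1 (.c0 1) (.c0 3) (.c0 1)),
  (-42, .g2 0 (.c0 2) (.c0 0) (.c3 2)),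
  (54, .g2 0 (.c1 0) (.c0 0) (.c3 2)),
  (36, .g2 0 (.c0 2) (.c0 1) (.c3 1)),
  (-90, .g2 0 (.c0 2) (.c0 2) (.c3 0)),
  (162, .g2 0 (.c1 0) (.c0 2) (.c3 0)),
  (-24, .g4 0 (.c0 2) (.c0 0) (.c0 3)),
  (120, .g4 0 (.c1 0) (.c0 0) (.c0 3)),
  (-12, .g4 0 (.c0 2) (.c0 0) (.c3 0)),
  (96, .g4 0 (.c0 2) (.c0 1) (.c0 2)),
  (-180, .g4 0 (.c1 0) (.c0 1) (.c0 2)),
  (24, .g4 0 (.c0 2) (.c1 0) (.c0 1)),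
  (-84, .g4 0 (.c1 0) (.c1 0) (.c0 1)),
  (120, .g3 0 (.c1 0) (.c0 1) (.c3 0)),
  (24, .g2 0 (.c0 2) (.c0 1) (.c2 0)),
  (108, .g2 0 (.c1 0) (.c0 1) (.c2 0)),
  (3, .g2 0 (.c0 2) (.c0 2) (.c0 3)),
  (-36, .g2 0 (.c1 0) (.c0 2) (.c0 3)),
  (12, .g3 0 (.c0 2) (.c0 3) (.c0 1)),
  (27, .g3 0 (.c0 2) (.c0 2) (.c0 2)),
  (-24, .g3 0 (.c1 0) (.c0 2) (.c0 2)),
  (-24, .g3 0 (.c0 2) (.c1 0) (.c0 2)),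
  (36, .g3 0 (.c1 0) (.c1 0) (.c0 2)),
  (36, .g3 0 (.c0 2) (.c2 0) (.c0 0)),
  (24, .g3 0 (.c0 2) (.c3 1) (.c0 0)),
  (-36, .g3 0 (.c1 0) (.c3 1) (.c0 0)),
  (4, .g2 1 (.c1 0) (.c3 0) (.c0 1)),
  (8, .g2 1 (.c1 0) (.c0 2) (.c0 2)),
  (8, .g4 1 (.c0 2) (.c0 0) (.c0 2)),
  (-12, .g4 1 (.c1 0) (.c0 0) (.c0 2)),
  (-4, .g2 1 (.c0 2) (.c0 1) (.c0 3)),
  (8, .g3 1 (.c0 2) (.c0 2) (.c0 1)),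
  (-4, .g3 1 (.c1 0) (.c0 1) (.c0 2)),
  (-30, .g2 0 (.c0 3) (.c0 2) (.c0 2)),
  (3, .g2 0 (.c3 0) (.c0 2) (.c0 2)),
  (-33, .g2 0 (.c0 3) (.c1 0) (.c1 0)),
  (6, .g2 0 (.c1 1) (.c1 0) (.c1 0)),
  (24, .g2 0 (.c3 0) (.c1 0) (.c1 0)),
  (24, .g2 0 (.c0 3) (.c0 0) (.c3 1)),
  (6, .g2 0 (.c0 3) (.c0 1) (.c3 0)),
  (36, .g4 0 (.c0 3) (.c0 0) (.c0 2)),
  (-72, .g4 0 (.c1 1) (.c0 0) (.c0 2)),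
  (-18, .g3 0 (.c0 3) (.c0 0) (.c3 0)),
  (-66, .g4 0 (.c0 3) (.c1 0) (.c0 0)),
  (30, .g2 0 (.c0 3) (.c0 0) (.c2 0)),
  (-42, .g3 0 (.c0 3) (.c0 2) (.c0 1)),
  (-12, .g4 0 (.c1 1) (.c0 0) (.c1 0)),
  (-48, .g4 0 (.c3 0) (.c0 0) (.c1 0)),
  (-12, .g4 0 (.c0 3) (.c0 2) (.c0 0)),
  (24, .g3 0 (.c0 3) (.c1 0) (.c0 1)),
  (4, .g2 1 (.c0 3) (.c3 0) (.c0 0)),
  (-4, .g4 1 (.c0 3) (.c0 0) (.c0 1)),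
  (-4, .g3 1 (.c0 3) (.c0 2) (.c0 0)),
  (-6, .g2 0 (.c0 4) (.c0 0) (.c3 0)),
  (42, .g2 0 (.c3 1) (.c0 0) (.c3 0)),
  (36, .g4 0 (.c3 1) (.c0 0) (.c0 1)),
  (-12, .g2 0 (.c0 4) (.c0 1) (.c0 2)),
  (6, .g2 0 (.c3 1) (.c0 1) (.c0 2)),
  (78, .g2 0 (.c2 0) (.c0 0) (.c0 3)),
  (-78, .g3 0 (.c2 0) (.c0 2) (.c0 0)),
  (36, .g2 0 (.c2 1) (.c0 0) (.c0 2)),
  (-27, .g2 0 (.c2 2) (.c0 0) (.c0 1)),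
  (-9, .g3 0 (.c2 2) (.c0 0) (.c0 0)),
  (-18, .mm (.c0 0) (.c0 0) (.c2 3)),
  (-36, .mm (.c0 0) (.c0 1) (.c2 2)),
  (-6, .mm (.c0 0) (.c3 0) (.c0 4)),
  (-12, .mm (.c0 0) (.c3 0) (.c2 0)),
  (18, .mm (.c0 0) (.c3 0) (.c3 1)),
  (18, .mm (.c0 0) (.c3 2) (.c0 2)),
  (-18, .mm (.c0 0) (.c3 2) (.c1 0)),
  (-12, .mm (.c0 0) (.c3 3) (.c0 1)),
  (-24, .mm (.c0 0) (.c5 0) (.c0 1)),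
  (-36, .mm (.c0 0) (.c5 1) (.c0 0)),
  (6, .mm (.c0 1) (.c0 2) (.c0 4)),
  (-6, .mm (.c0 1) (.c0 2) (.c3 1)),
  (-36, .mm (.c0 1) (.c5 0) (.c0 0)),
  (-9, .mm (.c0 2) (.c0 2) (.c0 3)),
  (6, .mm (.c0 2) (.c0 2) (.c3 0)),
  (-6, .mm (.c0 2) (.c3 0) (.c1 0)),
  (96, .mm (.c3 1) (.c3 0) (.c0 0)),
  (-84, .xa (.c0 0) (.c1 0) (.c2 0)),
  (-6, .xa (.c0 0) (.c3 0) (.c0 3)),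
  (-96, .xa (.c0 0) (.c3 0) (.c3 0)),
  (-36, .xa (.c0 0) (.c3 1) (.c0 2)),
  (-24, .xa (.c0 0) (.c2 1) (.c0 1)),
  (-30, .xa (.c0 0) (.c3 2) (.c0 1)),
  (6, .xa (.c0 1) (.c0 3) (.c0 2)),
  (36, .xa (.c0 1) (.c2 1) (.c0 0)),
  (36, .xa (.c1 0) (.c1 0) (.c0 2)),
  (-30, .xa (.c0 2) (.c0 3) (.c0 1)),
  (18, .xa (.c0 2) (.c3 0) (.c0 1)),
  (-36, .xb (.c0 0) (.c0 0) (.c5 0)),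
  (-72, .xb (.c0 0) (.c2 2) (.c0 0)),
  (24, .xb (.c0 2) (.c1 0) (.c0 2)),
  (15, .tt (.c0 0) (.c0 0) (.c3 2)),
  (36, .tt (.c0 0) (.c0 0) (.c4 0)),
  (-12, .tt (.c0 0) (.c0 1) (.c2 0)),
  (-6, .tt (.c0 0) (.c0 2) (.c3 0)),
  (-84, .tt (.c0 0) (.c1 0) (.c0 3)),
  (-36, .tt (.c0 0) (.c3 1) (.c0 1)),
  (-60, .tt (.c0 2) (.c1 0) (.c0 1)),
  (24, .tt (.c0 2) (.c0 3) (.c0 0)),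
  (-60, .tt (.c0 2) (.c3 0) (.c0 0)),
  (-18, .uu (.c0 0) (.c0 0) (.c2 1)),
  (-9, .uu (.c0 0) (.c0 0) (.c3 2)),
  (36, .uu (.c0 0) (.c0 1) (.c2 0)),
  (-36, .uu (.c0 0) (.c0 1) (.c3 1)),
  (-18, .uu (.c0 0) (.c0 2) (.c3 0)),
  (-9, .uu (.c0 1) (.c0 2) (.c0 2)),
  (18, .vv 2 false 0 0 2),
  (27, .vv 2 false 0 1 1)]

theorem cert9_ok : chk 4 false 18 cert9 = true := by decide +kernel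

/-- certificate for `u_10` -/
def cert10 : List (ℤ × Inst) := [
  (4, .g4 0 (.c0 1) (.c0 0) (.c4 0)),
  (2, .g2 0 (.c0 1) (.c3 0) (.c2 0)),
  (-4, .g3 0 (.c0 1) (.c0 1) (.c4 0)),
  (-2, .g2 0 (.c0 1) (.c0 1) (.c3 3)),
  (-2, .g2 0 (.c0 1) (.c0 3) (.c3 1)),
  (4, .g2 0 (.c0 1) (.c1 1) (.c3 1)),
  (-2, .g3 0 (.c0 1) (.c0 2) (.c3 1)),
  (-4, .g4 0 (.c0 1) (.c0 1) (.c1 2)),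
  (-2, .g4 0 (.c0 1) (.c0 1) (.c2 0)),
  (8, .g4 0 (.c0 1) (.c0 1) (.c3 1)),
  (2, .g4 0 (.c0 1) (.c0 2) (.c0 3)),
  (-4, .g4 0 (.c0 1) (.c0 2) (.c1 1)),
  (-8, .g4 0 (.c0 1) (.c0 2) (.c3 0)),
  (-2, .g3 0 (.c0 1) (.c0 0) (.c3 3)),
  (2, .g3 0 (.c0 1) (.c0 1) (.c3 2)),
  (4, .g3 0 (.c0 1) (.c2 0) (.c1 0)),
  (-8, .g3 0 (.c0 1) (.c0 1) (.c2 1)),
  (-4, .g3 0 (.c0 1) (.c3 0) (.c1 1)),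
  (6, .g2 0 (.c0 2) (.c0 2) (.c3 1)),
  (-8, .g4 0 (.c0 2) (.c0 2) (.c0 2)),
  (-2, .g2 0 (.c0 2) (.c0 0) (.c3 3)),
  (2, .g2 0 (.c1 0) (.c0 0) (.c3 3)),
  (6, .g2 0 (.c0 2) (.c0 1) (.c3 2)),
  (-2, .g2 0 (.c1 0) (.c0 1) (.c3 2)),
  (4, .g2 0 (.c0 2) (.c1 0) (.c3 1)),
  (-26, .g4 0 (.c0 2) (.c0 0) (.c3 1)),
  (4, .g4 0 (.c1 0) (.c0 0) (.c3 1)),
  (-4, .g4 0 (.c0 2) (.c0 1) (.c0 3)),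
  (-14, .g4 0 (.c0 2) (.c0 1) (.c3 0)),
  (10, .g4 0 (.c0 2) (.c0 3) (.c0 1)),
  (-6, .g4 0 (.c0 2) (.c3 0) (.c0 1)),
  (4, .g2 0 (.c0 2) (.c0 2) (.c0 4)),
  (-2, .g3 0 (.c0 2) (.c0 0) (.c3 2)),
  (-8, .g3 0 (.c1 0) (.c0 1) (.c3 1)),
  (8, .g4 0 (.c0 2) (.c0 2) (.c1 0)),
  (4, .g3 0 (.c0 2) (.c0 4) (.c0 1)),
  (-2, .g3 0 (.c0 2) (.c3 1) (.c0 1)),
  (22, .g3 0 (.c0 2) (.c0 0) (.c2 1)),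
  (8, .g2 0 (.c0 3) (.c0 0) (.c3 2)),
  (-2, .g2 0 (.c3 0) (.c0 0) (.c3 2)),
  (10, .g2 0 (.c3 0) (.c0 2) (.c3 0)),
  (-6, .g4 0 (.c0 3) (.c0 0) (.c3 0)),
  (16, .g4 0 (.c3 0) (.c0 1) (.c0 2)),
  (40, .g4 0 (.c3 0) (.c0 2) (.c0 1)),
  (-14, .g4 0 (.c0 3) (.c1 0) (.c0 1)),
  (36, .g4 0 (.c3 0) (.c1 0) (.c0 1)),
  (4, .g3 0 (.c0 3) (.c0 0) (.c3 1)),
  (-8, .g3 0 (.c3 0) (.c0 0) (.c3 1)),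
  (-1, .g2 0 (.c0 3) (.c0 2) (.c0 3)),
  (4, .g3 0 (.c3 0) (.c0 3) (.c0 1)),
  (-8, .g4 0 (.c0 3) (.c0 1) (.c1 0)),
  (1, .g3 0 (.c0 3) (.c0 2) (.c0 2)),
  (-8, .g3 0 (.c0 3) (.c0 0) (.c2 0)),
  (4, .g3 0 (.c0 3) (.c0 1) (.c0 3)),
  (2, .g3 0 (.c0 3) (.c3 0) (.c0 1)),
  (20, .g3 0 (.c3 0) (.c3 0) (.c0 1)),
  (1, .g2 0 (.c0 4) (.c0 2) (.c0 2)),
  (11, .g2 0 (.c2 0) (.c0 2) (.c0 2)),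
  (1, .g2 0 (.c3 1) (.c0 2) (.c0 2)),
  (-4, .g2 0 (.c0 4) (.c1 0) (.c1 0)),
  (8, .g2 0 (.c0 4) (.c0 0) (.c3 1)),
  (-4, .g2 0 (.c3 1) (.c0 0) (.c3 1)),
  (-16, .g2 0 (.c0 4) (.c0 1) (.c3 0)),
  (-54, .g2 0 (.c3 1) (.c0 1) (.c3 0)),
  (12, .g4 0 (.c3 1) (.c0 0) (.c0 2)),
  (-8, .g3 0 (.c3 1) (.c0 0) (.c3 0)),
  (14, .g3 0 (.c2 0) (.c0 2) (.c0 1)),
  (4, .g3 0 (.c3 1) (.c0 2) (.c0 1)),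
  (8, .g4 0 (.c0 4) (.c0 0) (.c1 0)),
  (8, .g4 0 (.c3 1) (.c0 0) (.c1 0)),
  (-16, .g4 0 (.c2 0) (.c0 2) (.c0 0)),
  (-4, .g3 0 (.c0 4) (.c0 1) (.c0 2)),
  (-4, .g3 0 (.c3 1) (.c0 3) (.c0 0)),
  (48, .g2 0 (.c2 1) (.c0 0) (.c3 0)),
  (-4, .g2 0 (.c3 2) (.c0 0) (.c3 0)),
  (56, .g4 0 (.c2 1) (.c0 0) (.c0 1)),
  (-4, .g4 0 (.c3 2) (.c0 0) (.c0 1)),
  (-12, .g2 0 (.c2 1) (.c0 1) (.c1 0)),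
  (-32, .g3 0 (.c2 1) (.c0 2) (.c0 0)),
  (4, .g3 0 (.c3 2) (.c0 2) (.c0 0)),
  (8, .g2 0 (.c2 2) (.c0 0) (.c1 0)),
  (12, .g4 0 (.c2 2) (.c0 0) (.c0 0)),
  (-26, .g3 0 (.c2 2) (.c0 1) (.c0 0)),
  (-3, .g2 0 (.c2 3) (.c0 0) (.c0 1)),
  (2, .g2 0 (.c5 1) (.c0 0) (.c0 1)),
  (-1, .g3 0 (.c2 3) (.c0 0) (.c0 0)),
  (2, .g3 0 (.c5 1) (.c0 0) (.c0 0)),
  (2, .mm (.c0 0) (.c0 0) (.c5 2)),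
  (8, .mm (.c0 0) (.c0 1) (.c2 3)),
  (-8, .mm (.c0 0) (.c0 1) (.c5 1)),
  (8, .mm (.c0 0) (.c0 2) (.c2 2)),
  (-8, .mm (.c0 0) (.c0 2) (.c5 0)),
  (2, .mm (.c0 0) (.c3 2) (.c0 3)),
  (-2, .mm (.c0 0) (.c3 2) (.c3 0)),
  (2, .mm (.c0 0) (.c3 3) (.c0 2)),
  (-2, .mm (.c0 0) (.c3 3) (.c1 0)),
  (4, .mm (.c0 0) (.c2 4) (.c0 0)),
  (2, .mm (.c0 1) (.c3 0) (.c0 4)),
  (28, .mm (.c0 1) (.c2 0) (.c0 3)),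
  (-28, .mm (.c0 1) (.c2 0) (.c3 0)),
  (2, .mm (.c0 1) (.c3 1) (.c3 0)),
  (-2, .mm (.c0 1) (.c3 2) (.c0 2)),
  (2, .mm (.c0 1) (.c3 2) (.c1 0)),
  (1, .mm (.c0 2) (.c0 2) (.c0 4)),
  (1, .mm (.c0 2) (.c0 2) (.c3 1)),
  (-2, .mm (.c0 2) (.c3 0) (.c0 3)),
  (2, .mm (.c0 2) (.c3 0) (.c3 0)),
  (4, .mm (.c0 2) (.c3 1) (.c1 0)),
  (18, .mm (.c3 1) (.c3 0) (.c0 1)),
  (6, .mm (.c3 1) (.c3 1) (.c0 0)),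
  (1, .xa (.c0 0) (.c0 0) (.c2 3)),
  (-2, .xa (.c0 0) (.c0 1) (.c2 2)),
  (14, .xa (.c0 0) (.c0 1) (.c5 0)),
  (18, .xa (.c0 0) (.c0 2) (.c2 1)),
  (2, .xa (.c0 0) (.c0 2) (.c3 2)),
  (-8, .xa (.c0 0) (.c3 1) (.c3 0)),
  (4, .xa (.c0 0) (.c2 1) (.c1 0)),
  (-2, .xa (.c0 0) (.c3 3) (.c0 1)),
  (-4, .xa (.c0 1) (.c0 2) (.c0 4)),
  (4, .xa (.c0 1) (.c0 3) (.c0 3)),
  (-18, .xa (.c0 1) (.c0 3) (.c3 0)),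
  (36, .xa (.c0 1) (.c3 0) (.c3 0)),
  (-12, .xa (.c0 1) (.c3 1) (.c1 0)),
  (4, .xa (.c0 1) (.c2 1) (.c0 1)),
  (-2, .xa (.c0 1) (.c3 2) (.c0 1)),
  (-3, .xa (.c0 2) (.c0 2) (.c0 3)),
  (13, .xa (.c0 2) (.c0 2) (.c3 0)),
  (-8, .xa (.c0 2) (.c3 0) (.c1 0)),
  (12, .xa (.c0 2) (.c2 0) (.c0 1)),
  (6, .xa (.c0 2) (.c3 2) (.c0 0)),
  (-14, .xa (.c0 3) (.c3 0) (.c0 1)),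
  (-4, .xa (.c0 3) (.c3 1) (.c0 0)),
  (20, .xa (.c3 1) (.c3 0) (.c0 0)),
  (16, .xb (.c0 1) (.c3 0) (.c0 3)),
  (-16, .xb (.c0 1) (.c3 0) (.c3 0)),
  (-4, .xb (.c0 1) (.c3 1) (.c0 2)),
  (4, .xb (.c0 1) (.c3 1) (.c1 0)),
  (-8, .xb (.c0 2) (.c0 3) (.c0 2)),
  (8, .xb (.c0 2) (.c3 0) (.c0 2)),
  (-12, .tt (.c0 0) (.c0 1) (.c3 2)),
  (-14, .tt (.c0 0) (.c0 1) (.c4 0)),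
  (8, .tt (.c0 0) (.c0 2) (.c2 0)),
  (-18, .tt (.c0 0) (.c0 2) (.c3 1)),
  (58, .tt (.c0 1) (.c0 2) (.c3 0)),
  (36, .tt (.c0 1) (.c1 0) (.c3 0)),
  (12, .tt (.c0 1) (.c2 0) (.c0 1)),
  (-36, .tt (.c0 1) (.c3 1) (.c0 1)),
  (-8, .tt (.c0 2) (.c1 0) (.c0 2)),
  (-8, .tt (.c0 2) (.c1 0) (.c1 0)),
  (-40, .tt (.c0 2) (.c3 0) (.c0 1)),
  (-16, .tt (.c3 0) (.c1 0) (.c0 1)),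
  (-6, .uu (.c0 0) (.c0 0) (.c2 2)),
  (3, .uu (.c0 0) (.c0 0) (.c3 3)),
  (12, .uu (.c0 0) (.c0 1) (.c2 1)),
  (-6, .uu (.c0 0) (.c0 1) (.c3 2)),
  (12, .uu (.c0 0) (.c0 2) (.c0 4)),
  (6, .uu (.c0 1) (.c0 2) (.c3 0)),
  (5, .uu (.c0 2) (.c0 2) (.c0 2)),
  (-6, .vv 2 true 0 0 2),
  (-18, .vv 2 true 0 1 1),
  (12, .vv 3 true 0 0 1)]

theorem cert10_ok : chk 4 true 12 cert10 = true := by decide +kernel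

/-- certificate for `u_11` -/
def cert11 : List (ℤ × Inst) := [
  (15, .vv 4 false 0 0 1),
  (-20, .vv 3 false 0 1 1),
  (-10, .vv 3 false 0 0 2)]

theorem cert11_ok : chk 5 false 12 cert11 = true := by decide +kernel

/-- certificate for `u_12` -/
def cert12 : List (ℤ × Inst) := [
  (-36, .g2 0 (.c0 2) (.c3 1) (.c3 1)),
  (90, .g2 0 (.c1 0) (.c3 1) (.c3 1)),
  (-3, .g2 0 (.c0 2) (.c0 4) (.c0 4)),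
  (60, .g2 0 (.c1 0) (.c0 3) (.c3 2)),
  (-36, .g2 0 (.c0 2) (.c0 4) (.c3 1)),
  (60, .g4 0 (.c1 0) (.c0 2) (.c0 4)),
  (-48, .g4 0 (.c0 2) (.c3 0) (.c0 3)),
  (60, .g4 0 (.c1 0) (.c3 0) (.c0 3)),
  (12, .g4 0 (.c0 2) (.c0 4) (.c0 2)),
  (60, .g4 0 (.c1 0) (.c3 1) (.c0 2)),
  (-6, .g3 0 (.c0 2) (.c0 3) (.c0 4)),
  (-48, .g3 0 (.c0 2) (.c3 1) (.c0 3)),
  (60, .g3 0 (.c1 0) (.c3 1) (.c0 3)),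
  (-6, .g3 0 (.c0 2) (.c0 5) (.c0 2)),
  (-60, .g3 0 (.c1 0) (.c3 2) (.c0 2)),
  (-96, .g2 0 (.c0 3) (.c3 0) (.c3 1)),
  (36, .g2 0 (.c0 3) (.c0 1) (.c3 3)),
  (-96, .g2 0 (.c0 3) (.c0 2) (.c3 2)),
  (-12, .g4 0 (.c0 3) (.c0 1) (.c0 4)),
  (-72, .g4 0 (.c0 3) (.c0 2) (.c0 3)),
  (-96, .g4 0 (.c1 1) (.c0 2) (.c0 3)),
  (48, .g4 0 (.c3 0) (.c0 3) (.c0 2)),
  (-48, .g4 0 (.c0 3) (.c3 0) (.c0 2)),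
  (-96, .g4 0 (.c1 1) (.c3 0) (.c0 2)),
  (-48, .g4 0 (.c0 3) (.c0 4) (.c0 1)),
  (-48, .g4 0 (.c0 3) (.c3 1) (.c0 1)),
  (30, .g2 0 (.c0 3) (.c0 3) (.c0 4)),
  (-36, .g2 0 (.c0 3) (.c0 2) (.c0 5)),
  (24, .g3 0 (.c0 3) (.c0 4) (.c0 2)),
  (-96, .g3 0 (.c0 3) (.c3 1) (.c0 2)),
  (96, .g3 0 (.c1 1) (.c3 1) (.c0 2)),
  (-6, .g3 0 (.c0 3) (.c0 5) (.c0 1)),
  (-48, .g3 0 (.c0 3) (.c3 2) (.c0 1)),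
  (-48, .g2 0 (.c0 4) (.c0 2) (.c3 1)),
  (-126, .g2 0 (.c2 0) (.c0 2) (.c3 1)),
  (-60, .g2 0 (.c3 1) (.c0 2) (.c3 1)),
  (48, .g4 0 (.c0 4) (.c0 2) (.c0 2)),
  (-70, .g4 0 (.c2 0) (.c0 2) (.c0 2)),
  (84, .g4 0 (.c3 1) (.c0 2) (.c0 2)),
  (24, .g2 0 (.c0 4) (.c1 0) (.c3 1)),
  (72, .g4 0 (.c0 4) (.c0 1) (.c0 3)),
  (52, .g4 0 (.c2 0) (.c0 1) (.c0 3)),
  (24, .g4 0 (.c0 4) (.c1 0) (.c0 2)),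
  (56, .g4 0 (.c2 0) (.c1 0) (.c0 2)),
  (-48, .g4 0 (.c0 4) (.c0 3) (.c0 1)),
  (48, .g4 0 (.c3 1) (.c0 3) (.c0 1)),
  (-24, .g4 0 (.c0 4) (.c3 0) (.c0 1)),
  (-4, .g4 0 (.c2 0) (.c3 0) (.c0 1)),
  (-12, .g2 0 (.c0 4) (.c0 2) (.c0 4)),
  (-24, .g2 0 (.c3 1) (.c0 2) (.c0 4)),
  (72, .g3 0 (.c2 0) (.c0 3) (.c0 2)),
  (-6, .g3 0 (.c0 4) (.c0 4) (.c0 1)),
  (-24, .g3 0 (.c0 4) (.c3 1) (.c0 1)),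
  (-4, .g3 0 (.c2 0) (.c3 1) (.c0 1)),
  (-24, .g3 0 (.c0 4) (.c3 0) (.c0 2)),
  (-56, .g3 0 (.c2 0) (.c3 0) (.c0 2)),
  (240, .g2 0 (.c2 1) (.c0 1) (.c3 1)),
  (72, .g2 0 (.c3 2) (.c0 1) (.c3 1)),
  (84, .g2 0 (.c0 5) (.c0 2) (.c3 0)),
  (-48, .g2 0 (.c3 2) (.c0 2) (.c3 0)),
  (-144, .g2 0 (.c2 1) (.c1 0) (.c3 0)),
  (-84, .g4 0 (.c2 1) (.c0 0) (.c0 3)),
  (24, .g4 0 (.c3 2) (.c0 0) (.c0 3)),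
  (92, .g4 0 (.c2 1) (.c0 1) (.c0 2)),
  (84, .g4 0 (.c0 5) (.c0 2) (.c0 1)),
  (-148, .g4 0 (.c2 1) (.c1 0) (.c0 1)),
  (-24, .g4 0 (.c3 2) (.c1 0) (.c0 1)),
  (12, .g2 0 (.c0 5) (.c0 1) (.c0 4)),
  (-48, .g2 0 (.c3 2) (.c0 2) (.c0 3)),
  (-48, .g3 0 (.c2 1) (.c0 3) (.c0 1)),
  (-48, .g3 0 (.c3 2) (.c0 3) (.c0 1)),
  (-144, .g4 0 (.c2 1) (.c3 0) (.c0 0)),
  (24, .g4 0 (.c3 2) (.c3 0) (.c0 0)),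
  (-6, .g3 0 (.c0 5) (.c0 2) (.c0 2)),
  (-72, .g3 0 (.c2 1) (.c0 2) (.c0 2)),
  (6, .g3 0 (.c0 5) (.c0 1) (.c0 3)),
  (-148, .g3 0 (.c2 1) (.c3 0) (.c0 1)),
  (-24, .g3 0 (.c3 2) (.c3 0) (.c0 1)),
  (144, .g3 0 (.c2 1) (.c3 1) (.c0 0)),
  (-24, .g3 0 (.c3 2) (.c3 1) (.c0 0)),
  (-15, .g2 0 (.c0 6) (.c0 2) (.c0 2)),
  (-12, .g2 0 (.c2 2) (.c0 2) (.c0 2)),
  (-60, .g2 0 (.c3 3) (.c0 2) (.c0 2)),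
  (48, .g2 0 (.c2 2) (.c0 0) (.c3 1)),
  (168, .g2 0 (.c3 3) (.c0 0) (.c3 1)),
  (-48, .g2 0 (.c2 2) (.c0 1) (.c3 0)),
  (48, .g4 0 (.c2 2) (.c0 0) (.c0 2)),
  (168, .g4 0 (.c3 3) (.c0 0) (.c0 2)),
  (-6, .g3 0 (.c0 6) (.c0 2) (.c0 1)),
  (-168, .g3 0 (.c2 2) (.c0 2) (.c0 1)),
  (-96, .g3 0 (.c3 3) (.c0 2) (.c0 1)),
  (120, .g3 0 (.c2 2) (.c0 3) (.c0 0)),
  (-6, .mm (.c0 1) (.c0 2) (.c0 7)),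
  (6, .mm (.c0 1) (.c0 2) (.c3 4)),
  (6, .mm (.c0 1) (.c0 3) (.c0 6)),
  (-6, .mm (.c0 1) (.c0 3) (.c3 3)),
  (-12, .mm (.c0 1) (.c0 4) (.c0 5)),
  (48, .mm (.c0 1) (.c3 1) (.c3 2)),
  (-6, .mm (.c0 1) (.c0 5) (.c3 1)),
  (42, .mm (.c0 1) (.c3 2) (.c0 4)),
  (-6, .mm (.c0 2) (.c0 2) (.c0 6)),
  (168, .mm (.c0 2) (.c3 1) (.c3 1)),
  (-6, .mm (.c0 2) (.c0 5) (.c0 3)),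
  (6, .mm (.c0 2) (.c0 5) (.c3 0)),
  (48, .mm (.c0 2) (.c3 2) (.c0 3)),
  (-48, .mm (.c0 2) (.c3 2) (.c3 0)),
  (-12, .mm (.c0 2) (.c3 3) (.c0 2)),
  (-6, .mm (.c0 3) (.c0 4) (.c0 3)),
  (6, .mm (.c0 3) (.c0 4) (.c3 0)),
  (-72, .mm (.c3 1) (.c3 0) (.c0 3)),
  (-148, .mm (.c3 1) (.c3 0) (.c3 0)),
  (-12, .mm (.c0 4) (.c0 4) (.c0 2)),
  (24, .mm (.c0 4) (.c3 1) (.c0 2)),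
  (120, .mm (.c3 1) (.c3 1) (.c1 0)),
  (6, .mm (.c0 4) (.c0 5) (.c0 1)),
  (6, .mm (.c0 4) (.c3 2) (.c0 1)),
  (-72, .mm (.c3 2) (.c3 0) (.c0 2)),
  (120, .xa (.c0 0) (.c3 1) (.c3 2)),
  (-6, .xa (.c0 1) (.c0 3) (.c0 5)),
  (-48, .xa (.c0 1) (.c0 3) (.c3 2)),
  (-6, .xa (.c0 1) (.c0 5) (.c0 3)),
  (-6, .xa (.c0 1) (.c0 6) (.c0 2)),
  (-21, .xa (.c0 2) (.c0 2) (.c0 5)),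
  (48, .xa (.c0 2) (.c0 2) (.c3 2)),
  (24, .xa (.c0 2) (.c0 3) (.c0 4)),
  (24, .xa (.c0 2) (.c3 1) (.c0 3)),
  (-144, .xa (.c0 2) (.c2 1) (.c0 2)),
  (-6, .xa (.c0 2) (.c0 6) (.c0 1)),
  (96, .xa (.c3 0) (.c1 0) (.c3 1)),
  (-96, .xa (.c0 3) (.c3 0) (.c0 3)),
  (-24, .xa (.c0 3) (.c3 0) (.c3 0)),
  (-18, .xa (.c0 3) (.c0 4) (.c0 2)),
  (-24, .xa (.c0 3) (.c3 1) (.c1 0)),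
  (-192, .xa (.c3 1) (.c1 0) (.c0 3)),
  (96, .xa (.c0 4) (.c3 0) (.c0 2)),
  (192, .xa (.c3 1) (.c3 0) (.c0 2)),
  (-3, .xa (.c0 4) (.c0 4) (.c0 1)),
  (96, .xa (.c0 4) (.c3 1) (.c0 1)),
  (24, .xb (.c0 2) (.c0 2) (.c0 5)),
  (-48, .xb (.c0 2) (.c0 3) (.c0 4)),
  (48, .xb (.c0 2) (.c0 3) (.c3 1)),
  (48, .xb (.c0 2) (.c3 2) (.c0 2)),
  (60, .tt (.c0 0) (.c3 0) (.c3 2)),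
  (-120, .tt (.c0 0) (.c3 1) (.c3 1)),
  (-6, .tt (.c0 1) (.c0 2) (.c0 5)),
  (6, .tt (.c0 1) (.c0 3) (.c0 4)),
  (48, .tt (.c0 1) (.c0 3) (.c3 1)),
  (-6, .tt (.c0 1) (.c0 4) (.c0 3)),
  (6, .tt (.c0 1) (.c0 5) (.c0 2)),
  (6, .tt (.c0 2) (.c0 2) (.c0 4)),
  (-20, .tt (.c1 0) (.c1 0) (.c3 1)),
  (48, .tt (.c0 2) (.c0 3) (.c3 0)),
  (-6, .tt (.c0 2) (.c0 5) (.c0 1)),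
  (-24, .tt (.c0 3) (.c1 0) (.c0 3)),
  (-24, .tt (.c0 3) (.c1 0) (.c3 0)),
  (-108, .tt (.c3 0) (.c1 0) (.c0 3)),
  (-4, .tt (.c3 0) (.c1 0) (.c3 0)),
  (72, .tt (.c0 3) (.c3 0) (.c0 2)),
  (24, .tt (.c0 3) (.c3 0) (.c1 0)),
  (-102, .tt (.c0 3) (.c0 4) (.c0 1)),
  (-48, .tt (.c0 3) (.c3 1) (.c0 1)),
  (-168, .tt (.c0 4) (.c1 0) (.c0 2)),
  (-48, .tt (.c3 1) (.c3 0) (.c0 1)),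
  (-168, .tt (.c0 4) (.c3 1) (.c0 0)),
  (-144, .uu (.c0 0) (.c0 2) (.c0 6)),
  (-180, .uu (.c0 0) (.c0 4) (.c0 4)),
  (-180, .uu (.c0 0) (.c3 1) (.c3 1)),
  (-18, .uu (.c0 1) (.c0 2) (.c0 5)),
  (-144, .uu (.c0 1) (.c0 2) (.c2 1)),
  (144, .uu (.c0 1) (.c0 2) (.c3 2)),
  (-18, .uu (.c0 1) (.c0 3) (.c0 4)),
  (-144, .uu (.c0 1) (.c3 1) (.c3 0)),
  (-450, .uu (.c0 2) (.c0 2) (.c0 4)),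
  (-72, .uu (.c0 2) (.c0 2) (.c2 0)),
  (36, .uu (.c0 2) (.c0 2) (.c3 1)),
  (36, .vv 2 true 0 0 3),
  (504, .vv 2 true 0 1 2),
  (216, .vv 2 true 1 1 1),
  (-108, .vv 3 true 0 0 2),
  (-288, .vv 3 true 0 1 1),
  (108, .vv 4 true 0 0 1)]

theorem cert12_ok : chk 5 true 72 cert12 = true := by decide +kernel

/-- the certificates as a whole -/
theorem all_certs (q : ℕ) (hq : q ≤ 5) (e : Bool) :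
    ∃ (N : ℤ) (cert : List (ℤ × Inst)), N ≠ 0 ∧ chk q e N cert = true := by
  interval_cases q <;> cases e
  · exact ⟨_, _, by norm_num, cert1_ok⟩
  · exact ⟨_, _, by norm_num, cert2_ok⟩
  · exact ⟨_, _, by norm_num, cert3_ok⟩
  · exact ⟨_, _, by norm_num, cert4_ok⟩
  · exact ⟨_, _, by norm_num, cert5_ok⟩
  · exact ⟨_, _, by norm_num, cert6_ok⟩
  · exact ⟨_, _, by norm_num, cert7_ok⟩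
  · exact ⟨_, _, by norm_num, cert8_ok⟩
  · exact ⟨_, _, by norm_num, cert9_ok⟩
  · exact ⟨_, _, by norm_num, cert10_ok⟩
  · exact ⟨_, _, by norm_num, cert11_ok⟩
  · exact ⟨_, _, by norm_num, cert12_ok⟩

end Pool.Agent.Lib.MP_5f6665_al
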