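import Pool.Agent.Lib.MP_5f6665_al.Formal

/-! Certificates and their soundness. -/

namespace Pool.Agent.Lib.MP_5f6665_al

variable {S : Type*} [NonUnitalNonAssocRing S] {P : Bool → AddSubgroup S} [AltSuper P]

section values
variable (x : S) (hx : x ∈ P true)

/-- one third of the polarization of `u_4`, not symmetrized -/
def UT (y z w : HE P) : S :=
  -(sg (xor z.par w.par) • (jo (Dd x hx y) (asr z (Dd x hx (Dd x hx w)) (HX x hx))).val
    + (jo (Dd x hx (Dd x hx y)) (asr z (Dd x hx w) (HX x hx))).val)

/-- full super-linearization of `u_4` -/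
def Uval (y z w : HE P) : S :=
  UT x hx y z w + sg (z.par && w.par) • UT x hx y w z + sg (y.par && z.par) • UT x hx z y w
  + sg (xor (y.par && z.par) (y.par && w.par)) • UT x hx z w y
  + sg (xor (y.par && w.par) (z.par && w.par)) • UT x hx w y z
  + sg (xor (y.par && z.par) (xor (y.par && w.par) (z.par && w.par))) • UT x hx w z y

/-- value of a list of terms `c · D^i y ∘ (D^j z, D^k w, x)` -/
def phiL : List (ℤ × ℕ × ℕ × ℕ) → HE P → HE P → HE P → S
  | [], _, _, _ => 0
  | (c, i, j, k) :: t, y, z, w =>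
    c • (jo (Dn x hx i y) (asr (Dn x hx j z) (Dn x hx k w) (HX x hx))).val + phiL t y z w

/-- symmetrization of `phiL` (for even arguments) -/
def Vval (t : List (ℤ × ℕ × ℕ × ℕ)) (y z w : HE P) : S :=
  phiL x hx t y z w + (phiL x hx t y w z + (phiL x hx t z y w + (phiL x hx t z w y
    + (phiL x hx t w y z + phiL x hx t w z y))))

end values

/-- the terms of `u_{2q+1}` (`e = false`) and `u_{2q+2}` (`e = true`) -/
def tgt (q : ℕ) (e : Bool) : List (ℤ × ℕ × ℕ × ℕ) :=
  match e with
  | false => (1, 0, 0, 2 * q) :: (List.range (q + 1)).map fun k =>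
      ((Nat.choose q k : ℕ), 2 * k, 2 * (q - k), 0)
  | true => (1, 0, 0, 2 * q + 1) :: (List.range (q + 1)).flatMap fun k =>
      [((Nat.choose q k : ℕ), 2 * k, 2 * (q - k) + 1, 0),
       ((Nat.choose q k : ℕ), 2 * (q - k) + 1, 2 * k, 0)]

/-- formal vector of a list of terms, at even iterates -/
def tcv (t : List (ℤ × ℕ × ℕ × ℕ)) (i j k : ℕ) : CV :=
  t.map fun s => (s.1, .c0 (s.2.1 + 2 * i), true, .c0 (s.2.2.1 + 2 * j), .c0 (s.2.2.2 + 2 * k))

/-- formal vector of `UT` -/
def utv (c : ℤ) (y z w : Ltr) : CV :=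
  [(-(c * sg (xor z.par w.par)), y.sD, true, z, w.sD.sD), (-c, y.sD.sD, true, z, w.sD)]

/-- formal vector of `Uval` -/
def uuv (y z w : Ltr) : CV :=
  utv 1 y z w ++ (utv (sg (z.par && w.par)) y w z ++ (utv (sg (y.par && z.par)) z y w ++
  (utv (sg (xor (y.par && z.par) (y.par && w.par))) z w y ++
  (utv (sg (xor (y.par && w.par) (z.par && w.par))) w y z ++
  utv (sg (xor (y.par && z.par) (xor (y.par && w.par) (z.par && w.par)))) w z y))))

/-- formal vector of `Vval` -/
def vvv (t : List (ℤ × ℕ × ℕ × ℕ)) (i j k : ℕ) : CV :=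
  tcv t i j k ++ (tcv t i k j ++ (tcv t j i k ++ (tcv t j k i ++ (tcv t k i j ++ tcv t k j i))))

/-- instances of relations and of values in `W` -/
inductive Inst
  | g2 (o : ℕ) (h l r : Ltr)
  | g3 (o : ℕ) (h l r : Ltr)
  | g4 (o : ℕ) (h l r : Ltr)
  | mm (y z w : Ltr)
  | xa (y z w : Ltr)
  | xb (y z w : Ltr)
  | tt (y z w : Ltr)
  | uu (y z w : Ltr)
  | vv (q : ℕ) (e : Bool) (i j k : ℕ)

/-- vector of an instance -/
def Inst.vec : Inst → CV
  | .g2 o h l r => hcv h (oDn o (g2v l r))
  | .g3 o h l r => hcv h (oDn o (g3v l r))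
  | .g4 o h l r => hcv h (oDn o (g4v l r))
  | .mm y z w => mmv y z w
  | .xa y z w => xav y z w
  | .xb y z w => xbv y z w
  | .tt y z w => ttv y z w
  | .uu y z w => uuv y z w
  | .vv q e i j k => vvv (tgt q e) i j k

/-- rank of `u_n` -/
def rk (q : ℕ) (e : Bool) : ℕ := 2 * q + (match e with | false => 1 | true => 2)

/-- instance only refers to earlier elements -/
def Inst.ok (n : ℕ) : Inst → Bool
  | .vv q e _ _ _ => Nat.blt (rk q e) n
  | _ => true

section sound
variable (x : S) (hx : x ∈ P true) (a : HE P)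

theorem cden_utv (ha : a.par = false) (c : ℤ) (y z w : Ltr) : cden x hx a (utv c y z w) =
    c • UT x hx (ev x hx a y) (ev x hx a z) (ev x hx a w) := by
  simp only [utv, cden, csym, bsym, ev_sD, ev_par x hx a ha, UT]
  module

theorem cden_uuv (ha : a.par = false) (y z w : Ltr) : cden x hx a (uuv y z w) =
    Uval x hx (ev x hx a y) (ev x hx a z) (ev x hx a w) := by
  simp only [uuv, cden_append, cden_utv x hx a ha, Uval, ev_par x hx a ha]
  module

theorem Dn_add (m n : ℕ) (y : HE P) : Dn x hx m (Dn x hx n y) = Dn x hx (m + n) y :=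
  (Function.iterate_add_apply _ m n y).symm

theorem cden_tcv (t : List (ℤ × ℕ × ℕ × ℕ)) (i j k : ℕ) : cden x hx a (tcv t i j k) =
    phiL x hx t (Dn x hx (2 * i) a) (Dn x hx (2 * j) a) (Dn x hx (2 * k) a) := by
  induction t with
  | nil => simp [tcv, cden, phiL]
  | cons s t ih =>
    obtain ⟨c, p, q, r⟩ := s
    simp only [tcv, List.map_cons, cden, phiL, csym, bsym, ev, Dn_add] at ih ⊢
    rw [ih]

theorem cden_vvv (t : List (ℤ × ℕ × ℕ × ℕ)) (i j k : ℕ) : cden x hx a (vvv t i j k) =
    Vval x hx t (Dn x hx (2 * i) a) (Dn x hx (2 * j) a) (Dn x hx (2 * k) a) := by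
  simp only [vvv, cden_append, cden_tcv, Vval]

/-- a target `W` -/
structure Tgt (W : AddSubgroup S) : Prop where
  hU : ∀ y z w : HE P, Uval x hx y z w ∈ W
  hd : ∀ (n : ℤ) (s : S), n ≠ 0 → n • s ∈ W → s ∈ W

theorem odd?_two_mul (i : ℕ) : odd? (2 * i) = false := by
  unfold odd?
  have : 2 * i % 2 = 0 := by omega
  rw [this]; rfl

theorem inst_sound (ha : a.par = false) (W : AddSubgroup S) (hW : Tgt x hx W) (n : ℕ)
    (H : ∀ (q : ℕ) (e : Bool), rk q e < n → ∀ y z w : HE P, y.par = false → z.par = false →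
      w.par = false → Vval x hx (tgt q e) y z w ∈ W) (i : Inst) (hi : i.ok n = true) :
    cden x hx a i.vec ∈ W := by
  cases i with
  | g2 o h l r =>
    rw [Inst.vec, cden_hcv_oDn x hx a ha h o _ _ (upar_g2v l r) (bden_g2v x hx a ha l r)]
    exact W.zero_mem
  | g3 o h l r =>
    rw [Inst.vec, cden_hcv_oDn x hx a ha h o _ _ (upar_g3v l r) (bden_g3v x hx a ha l r)]
    exact W.zero_mem
  | g4 o h l r =>
    rw [Inst.vec, cden_hcv_oDn x hx a ha h o _ _ (upar_g4v l r) (bden_g4v x hx a l r)]
    exact W.zero_mem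
  | mm y z w => rw [Inst.vec, cden_mmv x hx a ha]; exact W.zero_mem
  | xa y z w => rw [Inst.vec, cden_xav x hx a ha]; exact W.zero_mem
  | xb y z w => rw [Inst.vec, cden_xbv x hx a ha]; exact W.zero_mem
  | tt y z w => rw [Inst.vec, cden_ttv x hx a ha]; exact W.zero_mem
  | uu y z w => rw [Inst.vec, cden_uuv x hx a ha]; exact hW.hU _ _ _
  | vv q e i j k =>
    rw [Inst.vec, cden_vvv]
    have h1 : rk q e < n := by
      simp only [Inst.ok] at hi
      exact Nat.blt_eq.mp hi
    exact H q e h1 _ _ _ (by simp [par_Dn, odd?_two_mul, ha]) (by simp [par_Dn, odd?_two_mul, ha])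
      (by simp [par_Dn, odd?_two_mul, ha])

end sound

/-- binary trees of cubic symbols with keys -/
inductive Tr
  | nil
  | node (key : ℕ) (h : Ltr) (k : Bool) (l m : Ltr) (c : ℤ) (lt rt : Tr)

/-- equality test of symbols -/
def eqs (h : Ltr) (k : Bool) (l m : Ltr) (h' : Ltr) (k' : Bool) (l' m' : Ltr) : Bool :=
  Nat.beq h.code h'.code && (Nat.beq l.code l'.code && (Nat.beq m.code m'.code &&
    (match k, k' with
      | false, false => true
      | true, true => true
      | _, _ => false)))

theorem eqs_spec {h : Ltr} {k : Bool} {l m : Ltr} {h' : Ltr} {k' : Bool} {l' m' : Ltr}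
    (e : eqs h k l m h' k' l' m' = true) : h = h' ∧ k = k' ∧ l = l' ∧ m = m' := by
  simp only [eqs, Bool.and_eq_true, Nat.beq_eq] at e
  obtain ⟨e1, e2, e3, e4⟩ := e
  refine ⟨Ltr.code_inj e1, ?_, Ltr.code_inj e2, Ltr.code_inj e3⟩
  cases k <;> cases k' <;> simp_all

/-- insertion -/
def Tr.ins (key : ℕ) (h : Ltr) (k : Bool) (l m : Ltr) (c : ℤ) : Tr → Tr
  | .nil => .node key h k l m c .nil .nil
  | .node key' h' k' l' m' c' lt rt =>
    match Nat.ble key key' with
    | false => .node key' h' k' l' m' c' lt (rt.ins key h k l m c)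
    | true => match Nat.ble key' key with
      | false => .node key' h' k' l' m' c' (lt.ins key h k l m c) rt
      | true => match eqs h k l m h' k' l' m' with
        | true => .node key' h' k' l' m' (c + c') lt rt
        | false => .node key' h' k' l' m' c' lt (rt.ins key h k l m c)

/-- all coefficients vanish -/
def Tr.zero : Tr → Bool
  | .nil => true
  | .node _ _ _ _ _ c lt rt => (match c with | .ofNat 0 => true | _ => false) && (lt.zero && rt.zero)

/-- key of a symbol -/
def skey (h : Ltr) (k : Bool) (l m : Ltr) : ℕ :=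
  ((h.code * 256 + l.code) * 256 + m.code) * 2 + (match k with | false => 0 | true => 1)

/-- add a symbol -/
def Tr.add1 (t : Tr) (c : ℤ) (h : Ltr) (k : Bool) (l m : Ltr) : Tr :=
  match Nat.ble l.code m.code with
  | false => t.ins (skey h k m l) h k m l (match l.par && m.par with | true => c | false => -c)
  | true => match Nat.ble m.code l.code with
    | false => t.ins (skey h k l m) h k l m c
    | true => match l.par with
      | true => t.ins (skey h k l m) h k l m c
      | false => t

/-- add a multiple of a vector -/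
def Tr.addv (q : ℤ) : CV → Tr → Tr
  | [], t => t
  | (c, h, k, l, m) :: v, t => Tr.addv q v (t.add1 (q * c) h k l m)

/-- add a combination of instances -/
def Tr.addi : List (ℤ × Inst) → Tr → Tr
  | [], t => t
  | (c, i) :: v, t => Tr.addi v (Tr.addv c i.vec t)

/-- all instances refer to earlier elements -/
def okAll (n : ℕ) : List (ℤ × Inst) → Bool
  | [] => true
  | s :: v => s.2.ok n && okAll n v

/-- the check -/
def chk (q : ℕ) (e : Bool) (N : ℤ) (cert : List (ℤ × Inst)) : Bool :=
  okAll (rk q e) cert && (Tr.addi cert (Tr.addv (-N) (tcv (tgt q e) 0 0 0) .nil)).zero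

section sound2
variable (x : S) (hx : x ∈ P true) (a : HE P)

/-- meaning of a tree -/
def tden : Tr → S
  | .nil => 0
  | .node _ h k l m c lt rt => c • csym x hx a h k l m + tden lt + tden rt

theorem tden_ins (key : ℕ) (h : Ltr) (k : Bool) (l m : Ltr) (c : ℤ) (t : Tr) :
    tden x hx a (t.ins key h k l m c) = c • csym x hx a h k l m + tden x hx a t := by
  induction t with
  | nil => simp [Tr.ins, tden]
  | node key' h' k' l' m' c' lt rt ih1 ih2 =>
    simp only [Tr.ins]
    split
    · simp only [tden, ih2]; abel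
    · split
      · simp only [tden, ih1]; abel
      · split
        · rename_i e
          obtain ⟨rfl, rfl, rfl, rfl⟩ := eqs_spec e
          simp only [tden, add_smul]; abel
        · simp only [tden, ih2]; abel

theorem tden_zero (t : Tr) (ht : t.zero = true) : tden x hx a t = 0 := by
  induction t with
  | nil => rfl
  | node key h k l m c lt rt ih1 ih2 =>
    simp only [Tr.zero, Bool.and_eq_true] at ht
    obtain ⟨h1, h2, h3⟩ := ht
    have hc : c = 0 := by
      split at h1
      · rfl
      · exact absurd h1 (by simp)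
    simp only [tden, hc, ih1 h2, ih2 h3]
    simp

theorem csym_swap (ha : a.par = false) (h : Ltr) (k : Bool) (l m : Ltr) :
    csym x hx a h k l m = -(sg (l.par && m.par) • csym x hx a h k m l) := by
  have e : (bsym x hx a k l m).val = -(sg (l.par && m.par) • (bsym x hx a k m l).val) := by
    cases k
    · simp only [bsym, br, ev_par x hx a ha]
      generalize (ev x hx a l).val * (ev x hx a m).val = u
      generalize (ev x hx a m).val * (ev x hx a l).val = v
      cases l.par <;> cases m.par <;> simp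
    · simp only [bsym, asr]
      rw [perm213 (ev x hx a m) (ev x hx a l) (HX x hx), ev_par x hx a ha, ev_par x hx a ha,
        Bool.and_comm m.par l.par]
  have e2 : (bsym x hx a k l m).par = (bsym x hx a k m l).par := by
    rw [bsym_par x hx a ha, bsym_par x hx a ha]
    simp [spar, Bool.xor_comm l.par m.par]
  simp only [csym, jo]
  rw [e, e2]
  simp only [mul_neg, neg_mul, mul_smul_comm, smul_mul_assoc, smul_neg, smul_add]
  rw [smul_comm (sg ((ev x hx a h).par && (bsym x hx a k m l).par))]
  abel

theorem csym_self (ha : a.par = false) (h : Ltr) (k : Bool) (l : Ltr) (hl : l.par = false) :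
    csym x hx a h k l l = 0 := by
  have := csym_swap x hx a ha h k l l
  rw [hl] at this
  simp only [Bool.and_false, sg_false, one_smul] at this
  apply AltSuper.tf (P := P) 2 _ (by norm_num)
  rw [two_smul]
  nth_rewrite 1 [this]
  simp

theorem tden_add1 (ha : a.par = false) (t : Tr) (c : ℤ) (h : Ltr) (k : Bool) (l m : Ltr) :
    tden x hx a (t.add1 c h k l m) = c • csym x hx a h k l m + tden x hx a t := by
  simp only [Tr.add1]
  split
  · rw [tden_ins, csym_swap x hx a ha h k l m]
    cases l.par && m.par <;> simp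
  · rename_i e1
    split
    · rw [tden_ins]
    · rename_i e2
      split
      · rw [tden_ins]
      · rename_i e3
        have : l = m := Ltr.code_inj (le_antisymm (Nat.le_of_ble_eq_true e1) (Nat.le_of_ble_eq_true e2))
        subst this
        rw [csym_self x hx a ha h k l e3]; simp

theorem tden_addv (ha : a.par = false) (q : ℤ) (v : CV) (t : Tr) :
    tden x hx a (Tr.addv q v t) = q • cden x hx a v + tden x hx a t := by
  induction v generalizing t with
  | nil => simp [Tr.addv, cden]
  | cons s v ih =>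
    obtain ⟨c, h, k, l, m⟩ := s
    simp only [Tr.addv, ih, tden_add1 x hx a ha, cden, smul_add, mul_smul]
    abel

theorem tden_addi (ha : a.par = false) (W : AddSubgroup S) (hW : Tgt x hx W) (n : ℕ)
    (H : ∀ (q : ℕ) (e : Bool), rk q e < n → ∀ y z w : HE P, y.par = false → z.par = false →
      w.par = false → Vval x hx (tgt q e) y z w ∈ W)
    (cert : List (ℤ × Inst)) (hc : okAll n cert = true) (t : Tr) :
    ∃ s ∈ W, tden x hx a (Tr.addi cert t) = s + tden x hx a t := by
  induction cert generalizing t with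
  | nil => exact ⟨0, W.zero_mem, by simp [Tr.addi]⟩
  | cons s cert ih =>
    obtain ⟨c, i⟩ := s
    simp only [okAll, Bool.and_eq_true] at hc
    obtain ⟨s, hs, e⟩ := ih hc.2 (Tr.addv c i.vec t)
    refine ⟨s + c • cden x hx a i.vec, W.add_mem hs
      (W.zsmul_mem (inst_sound x hx a ha W hW n H i hc.1) c), ?_⟩
    simp only [Tr.addi]
    rw [e, tden_addv x hx a ha]; abel

theorem chk_sound (ha : a.par = false) (W : AddSubgroup S) (hW : Tgt x hx W) (q : ℕ) (e : Bool)
    (H : ∀ (q' : ℕ) (e' : Bool), rk q' e' < rk q e → ∀ y z w : HE P, y.par = false →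
      z.par = false → w.par = false → Vval x hx (tgt q' e') y z w ∈ W)
    (N : ℤ) (hN : N ≠ 0) (cert : List (ℤ × Inst)) (hc : chk q e N cert = true) :
    phiL x hx (tgt q e) a a a ∈ W := by
  simp only [chk, Bool.and_eq_true] at hc
  obtain ⟨s, hs, h1⟩ := tden_addi x hx a ha W hW (rk q e) H cert hc.1
    (Tr.addv (-N) (tcv (tgt q e) 0 0 0) .nil)
  rw [tden_zero x hx a _ hc.2, tden_addv x hx a ha, cden_tcv] at h1
  apply hW.hd N _ hN
  have e0 : Dn x hx (2 * 0) a = a := rfl
  rw [e0] at h1
  have : N • phiL x hx (tgt q e) a a a = s := by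
    simp only [tden, add_zero, neg_smul] at h1
    rw [← sub_eq_add_neg] at h1
    exact (sub_eq_zero.mp h1.symm).symm
  rw [this]; exact hs

end sound2

end Pool.Agent.Lib.MP_5f6665_al
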