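import Mathlib

/-!
# The free alternative superalgebra, the elements `u_n` and verbal subsuperalgebras

Parities are Booleans: `false` is even, `true` is odd.
-/

namespace Pool.Agent.Lib.MP_5f6665_al

/-- The sign `(-1)^b` of a parity `b` (`false` is even, `true` is odd). -/
def sg (b : Bool) : ℤ := if b then -1 else 1

section free

variable (F : Type*) [Field F] {V : Type*}

/-- Parity of a nonassociative monomial in variables `v` of parity `π v`: the sum (mod 2) of the
parities of its letters. -/
def mpar (π : V → Bool) : FreeMagma V → Bool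
  | .of v => π v
  | .mul a b => xor (mpar π a) (mpar π b)

/-- A nonassociative monomial as an element of the free nonassociative algebra. -/
noncomputable def mon (m : FreeMagma V) : FreeNonUnitalNonAssocAlgebra F V :=
  MonoidAlgebra.single m 1

/-- The component of parity `p` of the free nonassociative algebra on variables `v` of
parity `π v`: the span of the monomials of parity `p`. -/
noncomputable def comp (π : V → Bool) (p : Bool) : Submodule F (FreeNonUnitalNonAssocAlgebra F V) :=
  Submodule.span F {f | ∃ m : FreeMagma V, mpar π m = p ∧ f = mon F m}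

/-- The relations of super-alternativity: `(u,v,w) + (-1)^{|u||v|} (v,u,w)` and
`(w,u,v) + (-1)^{|u||v|} (w,v,u)`, for homogeneous `u`, `v` and any `w`. -/
def altRel (π : V → Bool) : Set (FreeNonUnitalNonAssocAlgebra F V) :=
  {f | ∃ (p q : Bool) (u v w : FreeNonUnitalNonAssocAlgebra F V),
    u ∈ comp F π p ∧ v ∈ comp F π q ∧
    (f = associator u v w + sg (p && q) • associator v u w ∨
     f = associator w u v + sg (p && q) • associator w v u)}

/-- The two-sided ideal generated by the relations of super-alternativity. -/
noncomputable def altIdeal (π : V → Bool) : Submodule F (FreeNonUnitalNonAssocAlgebra F V) :=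
  sInf {I | altRel F π ⊆ I ∧
    ∀ a b : FreeNonUnitalNonAssocAlgebra F V, b ∈ I → a * b ∈ I ∧ b * a ∈ I}

theorem altIdeal_mul (π : V → Bool) (a b : FreeNonUnitalNonAssocAlgebra F V)
    (h : b ∈ altIdeal F π) : a * b ∈ altIdeal F π ∧ b * a ∈ altIdeal F π := by
  simp only [altIdeal, Submodule.mem_sInf] at h ⊢
  exact ⟨fun I hI => (hI.2 a b (h I hI)).1, fun I hI => (hI.2 a b (h I hI)).2⟩

end free

/-- The free alternative superalgebra `SAlt[A;X]` over `F` on the set `A` of even generators and
the set `X` of odd generators: the free nonassociative algebra on `A ⊕ X` modulo the ideal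
generated by the relations of super-alternativity. -/
abbrev SAlt (F : Type*) [Field F] (A X : Type*) : Type _ :=
  FreeNonUnitalNonAssocAlgebra F (A ⊕ X) ⧸ altIdeal F (Sum.isRight : A ⊕ X → Bool)

namespace SAlt

variable (F : Type*) [Field F] (A X : Type*)

/-- The quotient map from the free nonassociative algebra. -/
noncomputable def mk : FreeNonUnitalNonAssocAlgebra F (A ⊕ X) →ₗ[F] SAlt F A X :=
  (altIdeal F (Sum.isRight : A ⊕ X → Bool)).mkQ

variable {F A X}

theorem mk_surjective : Function.Surjective (mk F A X) :=
  Submodule.mkQ_surjective _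

theorem mk_eq {u v : FreeNonUnitalNonAssocAlgebra F (A ⊕ X)} :
    mk F A X u = mk F A X v ↔ u - v ∈ altIdeal F (Sum.isRight : A ⊕ X → Bool) :=
  Submodule.Quotient.eq _

/-- The product of classes is the class of the product. -/
noncomputable instance : Mul (SAlt F A X) where
  mul := Quotient.map₂ (· * ·) (by
    intro u u' hu v v' hv
    replace hu := (Submodule.quotientRel_def _).mp hu
    replace hv := (Submodule.quotientRel_def _).mp hv
    have h : u * v - u' * v' = (u - u') * v + u' * (v - v') := by
      rw [sub_mul, mul_sub]; abel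
    refine (Submodule.quotientRel_def _).mpr ?_
    rw [h]
    exact Submodule.add_mem _ (altIdeal_mul F _ v _ hu).2 (altIdeal_mul F _ u' _ hv).1)

theorem mk_mul (u v : FreeNonUnitalNonAssocAlgebra F (A ⊕ X)) :
    mk F A X (u * v) = mk F A X u * mk F A X v := rfl

noncomputable instance : NonUnitalNonAssocRing (SAlt F A X) where
  left_distrib a b c := by
    obtain ⟨a, rfl⟩ := mk_surjective a
    obtain ⟨b, rfl⟩ := mk_surjective b
    obtain ⟨c, rfl⟩ := mk_surjective c
    rw [← map_add, ← mk_mul, mul_add, map_add, mk_mul, mk_mul]
  right_distrib a b c := by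
    obtain ⟨a, rfl⟩ := mk_surjective a
    obtain ⟨b, rfl⟩ := mk_surjective b
    obtain ⟨c, rfl⟩ := mk_surjective c
    rw [← map_add, ← mk_mul, add_mul, map_add, mk_mul, mk_mul]
  zero_mul a := by
    obtain ⟨a, rfl⟩ := mk_surjective a
    rw [← map_zero (mk F A X), ← mk_mul, zero_mul]
  mul_zero a := by
    obtain ⟨a, rfl⟩ := mk_surjective a
    rw [← map_zero (mk F A X), ← mk_mul, mul_zero]

instance : IsScalarTower F (SAlt F A X) (SAlt F A X) where
  smul_assoc c a b := by
    obtain ⟨a, rfl⟩ := mk_surjective a
    obtain ⟨b, rfl⟩ := mk_surjective b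
    simp only [smul_eq_mul]
    rw [← map_smul, ← mk_mul, ← mk_mul, smul_mul_assoc, map_smul]

instance : SMulCommClass F (SAlt F A X) (SAlt F A X) where
  smul_comm c a b := by
    obtain ⟨a, rfl⟩ := mk_surjective a
    obtain ⟨b, rfl⟩ := mk_surjective b
    simp only [smul_eq_mul]
    rw [← map_smul, ← mk_mul, ← mk_mul, mul_smul_comm, map_smul]

variable (F A X) in
/-- The homogeneous component of parity `p` of `SAlt[A;X]`. -/
noncomputable def homog (p : Bool) : Submodule F (SAlt F A X) :=
  (comp F (Sum.isRight : A ⊕ X → Bool) p).map (mk F A X)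

variable (F X) in
/-- The even generator `a ∈ A`. -/
noncomputable def even (a : A) : SAlt F A X :=
  mk F A X (FreeNonUnitalNonAssocAlgebra.of F (Sum.inl a))

variable (F A) in
/-- The odd generator `x ∈ X`. -/
noncomputable def odd (x : X) : SAlt F A X :=
  mk F A X (FreeNonUnitalNonAssocAlgebra.of F (Sum.inr x))

end SAlt

/-! ### The elements `u_n` -/

/-- For an even element `b` and an odd element `x` of a superalgebra: `b_0 = b` and
`b_{i+1} = [b_i, x]_s = b_i x - (-1)^i x b_i` (`b_i` has the parity of `i`, `x` is odd). -/
def bseq {S : Type*} [NonUnitalNonAssocRing S] (x b : S) : ℕ → S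
  | 0 => b
  | i + 1 => bseq x b i * x - (-1 : ℤ) ^ i • (x * bseq x b i)

/-- `u_n(a,x) = ((a²)_{n-1}, a, x) - (a_{n-1}, a², x)` for `a` even and `x` odd. -/
def un {S : Type*} [NonUnitalNonAssocRing S] (n : ℕ) (a x : S) : S :=
  associator (bseq x (a * a) (n - 1)) a x - associator (bseq x a (n - 1)) (a * a) x

/-! ### Superlinearizations and verbal subsuperalgebras -/

section verbal

variable (F : Type*) [Field F]

/-- Superpolynomials: the free nonassociative algebra on the variables `(i, p)`, the `i`-th
variable of parity `p`, for `i : ℕ` and `p : Bool`. -/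
abbrev SPoly : Type _ := FreeNonUnitalNonAssocAlgebra F (ℕ × Bool)

/-- The value on monomials of the superderivation `slin v y`. -/
noncomputable def dmon (v y : ℕ × Bool) : FreeMagma (ℕ × Bool) → SPoly F
  | .of z => if z = v then mon F (FreeMagma.of y) else 0
  | .mul a b => dmon v y a * mon F b +
      sg ((xor v.2 y.2) && mpar Prod.snd a) • (mon F a * dmon v y b)

/-- The superlinearization operator `Δ_v(y)`: the superderivation of parity `|v| + |y|` of the
superalgebra of superpolynomials which maps the variable `v` to the variable `y` and the other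
variables to `0`; on monomials
`Δ(ab) = Δ(a) b + (-1)^{(|v|+|y|)|a|} a Δ(b)` (the Koszul sign rule). -/
noncomputable def slin (v y : ℕ × Bool) : SPoly F →ₗ[F] SPoly F :=
  (MonoidAlgebra.basis (FreeMagma (ℕ × Bool)) F).constr F (dmon F v y)

/-- For a superpolynomial `f` in the variables of index `0` (the even variable `(0, false)` and
the odd variable `(0, true)`), `IsLin f k g` says that `g` is `f` itself (`k = 1`) or one of its
partial or full superlinearizations, which has the new variables `(1, p_1), …, (k-1, p_{k-1})`
of parities `p_i` of any kind: in each step the operator `Δ_v(y)` is applied, where `v` is a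
variable of index `0` and `y = (k, p)` is a new variable, even or odd. -/
inductive IsLin (f : SPoly F) : ℕ → SPoly F → Prop
  | base : IsLin f 1 f
  | step {k : ℕ} {g : SPoly F} (q p : Bool) : IsLin f k g → IsLin f (k + 1) (slin F (0, q) (k, p) g)

/-- The verbal subsuperalgebra generated by the superpolynomial `f` in an algebra `S` with
components `P false` (even) and `P true` (odd): the subalgebra generated by all values of `f`
and of its superlinearizations at homogeneous elements of the matching parities. -/
noncomputable def verbal {S : Type*} [NonUnitalNonAssocRing S] [Module F S] [IsScalarTower F S S]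
    [SMulCommClass F S S] (P : Bool → Submodule F S) (f : SPoly F) : NonUnitalSubalgebra F S :=
  NonUnitalAlgebra.adjoin F {s | ∃ (k : ℕ) (g : SPoly F) (φ : ℕ × Bool → S), IsLin F f k g ∧
    (∀ v, φ v ∈ P v.2) ∧ s = FreeNonUnitalNonAssocAlgebra.lift F φ g}

/-- The superpolynomial `u_n(a,x)` in the even variable `a = (0, false)` and the odd variable
`x = (0, true)`. -/
noncomputable def upoly (n : ℕ) : SPoly F :=
  un n (FreeNonUnitalNonAssocAlgebra.of F ((0, false) : ℕ × Bool))
    (FreeNonUnitalNonAssocAlgebra.of F ((0, true) : ℕ × Bool))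

end verbal

end Pool.Agent.Lib.MP_5f6665_al
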