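import Pool.Agent.Lib.MP_5f6665_al.Un

/-! Polarization and the recurrence for the elements `u_n`. -/

namespace Pool.Agent.Lib.MP_5f6665_al

variable {S : Type*} [NonUnitalNonAssocRing S] {P : Bool → AddSubgroup S} [AltSuper P]

/-- raw version of `phiL` for even arguments -/
def phiR (x : S) : List (ℤ × ℕ × ℕ × ℕ) → S → S → S → S
  | [], _, _, _ => 0
  | (c, i, j, k) :: t, u, v, w =>
    c • (adr x false u i * associator (adr x false v j) (adr x false w k) x
      + sg (odd? i && !(xor (odd? j) (odd? k))) •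
        (associator (adr x false v j) (adr x false w k) x * adr x false u i)) + phiR x t u v w

theorem phiR_add1 (x : S) (t : List (ℤ × ℕ × ℕ × ℕ)) (u u' v w : S) :
    phiR x t (u + u') v w = phiR x t u v w + phiR x t u' v w := by
  induction t with
  | nil => simp [phiR]
  | cons s t ih =>
    obtain ⟨c, i, j, k⟩ := s
    simp only [phiR, ih, adr_add, add_mul, mul_add, smul_add]
    abel

theorem phiR_add2 (x : S) (t : List (ℤ × ℕ × ℕ × ℕ)) (u v v' w : S) :
    phiR x t u (v + v') w = phiR x t u v w + phiR x t u v' w := by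
  induction t with
  | nil => simp [phiR]
  | cons s t ih =>
    obtain ⟨c, i, j, k⟩ := s
    simp only [phiR, ih, adr_add, as1, add_mul, mul_add, smul_add]
    abel

theorem phiR_add3 (x : S) (t : List (ℤ × ℕ × ℕ × ℕ)) (u v w w' : S) :
    phiR x t u v (w + w') = phiR x t u v w + phiR x t u v w' := by
  induction t with
  | nil => simp [phiR]
  | cons s t ih =>
    obtain ⟨c, i, j, k⟩ := s
    simp only [phiR, ih, adr_add, as2, add_mul, mul_add, smul_add]
    abel

section
variable (x : S) (hx : x ∈ P true)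

theorem phiL_eq (t : List (ℤ × ℕ × ℕ × ℕ)) (y z w : HE P) (hy : y.par = false) (hz : z.par = false)
    (hw : w.par = false) : phiL x hx t y z w = phiR x t y.val z.val w.val := by
  induction t with
  | nil => rfl
  | cons s t ih =>
    obtain ⟨c, i, j, k⟩ := s
    simp only [phiL, phiR, ih, jo, asr, Dn_val, par_Dn, hy, hz, hw, HX, Bool.xor_false,
      Bool.xor_true]

theorem polarV (W : AddSubgroup S) (t : List (ℤ × ℕ × ℕ × ℕ))
    (h : ∀ a : HE P, a.par = false → phiL x hx t a a a ∈ W) (y z w : HE P) (hy : y.par = false)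
    (hz : z.par = false) (hw : w.par = false) : Vval x hx t y z w ∈ W := by
  have hf : ∀ s ∈ P false, phiR x t s s s ∈ W := by
    intro s hs
    have := h ⟨s, false, hs⟩ rfl
    rwa [phiL_eq x hx t _ _ _ rfl rfl rfl] at this
  have my : y.val ∈ P false := hy ▸ y.mem
  have mz : z.val ∈ P false := hz ▸ z.mem
  have mw : w.val ∈ P false := hw ▸ w.mem
  have e : Vval x hx t y z w = phiR x t (y.val + z.val + w.val) (y.val + z.val + w.val) (y.val + z.val + w.val)
      - phiR x t (y.val + z.val) (y.val + z.val) (y.val + z.val)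
      - phiR x t (y.val + w.val) (y.val + w.val) (y.val + w.val)
      - phiR x t (z.val + w.val) (z.val + w.val) (z.val + w.val)
      + phiR x t y.val y.val y.val + phiR x t z.val z.val z.val + phiR x t w.val w.val w.val := by
    simp only [Vval, phiL_eq x hx t _ _ _ hy hz hw, phiL_eq x hx t _ _ _ hy hw hz,
      phiL_eq x hx t _ _ _ hz hy hw, phiL_eq x hx t _ _ _ hz hw hy, phiL_eq x hx t _ _ _ hw hy hz,
      phiL_eq x hx t _ _ _ hw hz hy, phiR_add1, phiR_add2, phiR_add3]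
    abel
  rw [e]
  refine W.add_mem (W.add_mem (W.add_mem (W.sub_mem (W.sub_mem (W.sub_mem (hf _ ?_) (hf _ ?_))
    (hf _ ?_)) (hf _ ?_)) (hf _ my)) (hf _ mz)) (hf _ mw)
  · exact (P false).add_mem ((P false).add_mem my mz) mw
  · exact (P false).add_mem my mz
  · exact (P false).add_mem my mw
  · exact (P false).add_mem mz mw

end

/-- the form `B_m(s,t)` with `u_{m+1}(a) = B_m(a²,a)` -/
def BB (x : S) (m : ℕ) (s t : S) : S :=
  associator (adr x false s m) t x - associator (adr x false t m) s x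

theorem BB_add1 (x : S) (m : ℕ) (s s' t : S) : BB x m (s + s') t = BB x m s t + BB x m s' t := by
  simp only [BB, adr_add, as1, as2]; abel

theorem BB_add2 (x : S) (m : ℕ) (s t t' : S) : BB x m s (t + t') = BB x m s t + BB x m s t' := by
  simp only [BB, adr_add, as1, as2]; abel

/-- polarization of `u_{m+1}` -/
def QQ (x : S) (m : ℕ) (u v w : S) : S :=
  BB x m (u * v + v * u) w + BB x m (u * w + w * u) v + BB x m (v * w + w * v) u

omit [AltSuper P] in
theorem QQ_mem (x : S) (W : AddSubgroup S) (m : ℕ) (h : ∀ a ∈ P false, uraw m a x ∈ W) (u v w : S)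
    (mu : u ∈ P false) (mv : v ∈ P false) (mw : w ∈ P false) : QQ x m u v w ∈ W := by
  have e : QQ x m u v w = uraw m (u + v + w) x - uraw m (u + v) x - uraw m (u + w) x
      - uraw m (v + w) x + uraw m u x + uraw m v x + uraw m w x := by
    have hB : ∀ a, uraw m a x = BB x m (a * a) a := fun a => rfl
    simp only [hB, QQ, add_mul, mul_add, BB_add1, BB_add2]
    abel
  rw [e]
  refine W.add_mem (W.add_mem (W.add_mem (W.sub_mem (W.sub_mem (W.sub_mem (h _ ?_) (h _ ?_))
    (h _ ?_)) (h _ ?_)) (h _ mu)) (h _ mv)) (h _ mw)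
  · exact (P false).add_mem ((P false).add_mem mu mv) mw
  · exact (P false).add_mem mu mv
  · exact (P false).add_mem mu mw
  · exact (P false).add_mem mv mw

/-! ### difference operators on functions of `(q,i,j,k)` -/

/-- difference operator -/
def Lop (b : ℤ × ℤ × ℤ) (R : ℕ → ℕ → ℕ → ℕ → S) : ℕ → ℕ → ℕ → ℕ → S := fun q i j k =>
  R (q + 1) i j k - (b.1 • R q (i + 1) j k + b.2.1 • R q i (j + 1) k + b.2.2 • R q i j (k + 1))

theorem Lop_comm (b c : ℤ × ℤ × ℤ) (R : ℕ → ℕ → ℕ → ℕ → S) : Lop b (Lop c R) = Lop c (Lop b R) := by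
  funext q i j k
  simp only [Lop]
  module

theorem Lop_add (b : ℤ × ℤ × ℤ) (R R' : ℕ → ℕ → ℕ → ℕ → S) : Lop b (R + R') = Lop b R + Lop b R' := by
  funext q i j k
  simp only [Lop, Pi.add_apply, smul_add]
  abel

theorem Lop_sub (b : ℤ × ℤ × ℤ) (R R' : ℕ → ℕ → ℕ → ℕ → S) : Lop b (R - R') = Lop b R - Lop b R' := by
  funext q i j k
  simp only [Lop, Pi.sub_apply, smul_sub]
  abel

theorem Lop_zero (b : ℤ × ℤ × ℤ) : Lop b (0 : ℕ → ℕ → ℕ → ℕ → S) = 0 := by
  funext q i j k
  simp [Lop]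

/-- membership of the first values -/
def mem (W : AddSubgroup S) (m : ℕ) (R : ℕ → ℕ → ℕ → ℕ → S) : Prop :=
  ∀ q i j k, q ≤ m → R q i j k ∈ W

theorem mem_up (W : AddSubgroup S) (m : ℕ) (b : ℤ × ℤ × ℤ) (R : ℕ → ℕ → ℕ → ℕ → S)
    (h : mem W (m + 1) R) : mem W m (Lop b R) := by
  intro q i j k hq
  refine W.sub_mem (h _ _ _ _ (by omega)) (W.add_mem (W.add_mem ?_ ?_) ?_)
  · exact W.zsmul_mem (h _ _ _ _ (by omega)) _
  · exact W.zsmul_mem (h _ _ _ _ (by omega)) _
  · exact W.zsmul_mem (h _ _ _ _ (by omega)) _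

theorem mem_down (W : AddSubgroup S) (b : ℤ × ℤ × ℤ) (R : ℕ → ℕ → ℕ → ℕ → S)
    (h0 : mem W 0 R) (h : ∀ m, mem W m (Lop b R)) (m : ℕ) : mem W m R := by
  induction m with
  | zero => exact h0
  | succ m ih =>
    intro q i j k hq
    rcases Nat.lt_or_ge q (m + 1) with h1 | h1
    · exact ih q i j k (by omega)
    · have e : q = m + 1 := by omega
      subst e
      have h2 := h m m i j k le_rfl
      have h3 : b.1 • R m (i + 1) j k + b.2.1 • R m i (j + 1) k + b.2.2 • R m i j (k + 1) ∈ W :=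
        W.add_mem (W.add_mem (W.zsmul_mem (ih _ _ _ _ le_rfl) _)
          (W.zsmul_mem (ih _ _ _ _ le_rfl) _)) (W.zsmul_mem (ih _ _ _ _ le_rfl) _)
      have h4 := W.add_mem h2 h3
      simp only [Lop, sub_add_cancel] at h4
      exact h4

theorem mem_six (W : AddSubgroup S) (b1 b2 b3 b4 b5 b6 : ℤ × ℤ × ℤ) (R : ℕ → ℕ → ℕ → ℕ → S)
    (h0 : mem W 5 R) (hz : Lop b6 (Lop b5 (Lop b4 (Lop b3 (Lop b2 (Lop b1 R))))) = 0) (m : ℕ) :
    mem W m R := by
  have m1 := mem_up W 4 b1 R h0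
  have m2 := mem_up W 3 b2 _ m1
  have m3 := mem_up W 2 b3 _ m2
  have m4 := mem_up W 1 b4 _ m3
  have m5 := mem_up W 0 b5 _ m4
  have z : ∀ m, mem W m (Lop b6 (Lop b5 (Lop b4 (Lop b3 (Lop b2 (Lop b1 R)))))) := by
    intro m q i j k _
    rw [hz]
    exact W.zero_mem
  have d5 := fun m => mem_down W b6 _ m5 z m
  have w4 : mem W 0 (Lop b4 (Lop b3 (Lop b2 (Lop b1 R)))) := fun q i j k h => m4 q i j k (by omega)
  have d4 := fun m => mem_down W b5 _ w4 d5 m
  have w3 : mem W 0 (Lop b3 (Lop b2 (Lop b1 R))) := fun q i j k h => m3 q i j k (by omega)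
  have d3 := fun m => mem_down W b4 _ w3 d4 m
  have w2 : mem W 0 (Lop b2 (Lop b1 R)) := fun q i j k h => m2 q i j k (by omega)
  have d2 := fun m => mem_down W b3 _ w2 d3 m
  have w1 : mem W 0 (Lop b1 R) := fun q i j k h => m1 q i j k (by omega)
  have d1 := fun m => mem_down W b2 _ w1 d2 m
  have w0 : mem W 0 R := fun q i j k h => h0 q i j k (by omega)
  exact mem_down W b1 _ w0 d1 m

theorem six_zero (b1 b2 b3 b4 b5 b6 : ℤ × ℤ × ℤ) (R : ℕ → ℕ → ℕ → ℕ → S)
    (h : Lop b1 R = 0 ∨ Lop b2 R = 0 ∨ Lop b3 R = 0 ∨ Lop b4 R = 0 ∨ Lop b5 R = 0 ∨ Lop b6 R = 0) :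
    Lop b6 (Lop b5 (Lop b4 (Lop b3 (Lop b2 (Lop b1 R))))) = 0 := by
  rcases h with h | h | h | h | h | h
  · simp only [h, Lop_zero]
  · rw [Lop_comm b2 b1, h]; simp only [Lop_zero]
  · rw [Lop_comm b3 b2, Lop_comm b3 b1, h]; simp only [Lop_zero]
  · rw [Lop_comm b4 b3, Lop_comm b4 b2, Lop_comm b4 b1, h]; simp only [Lop_zero]
  · rw [Lop_comm b5 b4, Lop_comm b5 b3, Lop_comm b5 b2, Lop_comm b5 b1, h]; simp only [Lop_zero]
  · rw [Lop_comm b6 b5, Lop_comm b6 b4, Lop_comm b6 b3, Lop_comm b6 b2, Lop_comm b6 b1, h]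
    simp only [Lop_zero]

section
variable (x : S) (hx : x ∈ P true)

/-- even iterates -/
def bb (x a : S) (i : ℕ) : S := adr x false a (2 * i)

omit [AltSuper P] in
theorem bb_two (x a : S) (i : ℕ) : adr x false (bb x a i) 2 = bb x a (i + 1) := by
  have h : bb x a (i + 1) = (bb x a i * x - sg (xor (odd? (2 * i)) false) • (x * bb x a i)) * x
    - sg (xor (odd? (2 * i + 1)) false) •
      (x * (bb x a i * x - sg (xor (odd? (2 * i)) false) • (x * bb x a i))) := rfl
  rw [h, odd?_succ, odd?_two_mul]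
  rfl

include hx in
theorem bb_jo_two (a : HE P) (ha : a.par = false) (i j : ℕ) :
    adr x false (bb x a.val i * bb x a.val j + bb x a.val j * bb x a.val i) 2
    = (bb x a.val (i + 1) * bb x a.val j + bb x a.val j * bb x a.val (i + 1))
    + (bb x a.val i * bb x a.val (j + 1) + bb x a.val (j + 1) * bb x a.val i) := by
  have hp : ∀ i, (Dn x hx (2 * i) a).par = false := fun i => by simp [par_Dn, odd?_two_mul, ha]
  have hv : ∀ i, (Dn x hx (2 * i) a).val = bb x a.val i := fun i => by rw [Dn_val, ha]; rfl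
  have hj : ∀ i j, (jo (Dn x hx (2 * i) a) (Dn x hx (2 * j) a)).val
      = bb x a.val i * bb x a.val j + bb x a.val j * bb x a.val i := fun i j => by
    simp [jo, hp, hv]
  have e := DDjo x hx (Dn x hx (2 * i) a) (Dn x hx (2 * j) a)
  have e1 : ∀ i, Dd x hx (Dd x hx (Dn x hx (2 * i) a)) = Dn x hx (2 * (i + 1)) a := fun i => by
    have : 2 * (i + 1) = 2 * i + 1 + 1 := by ring
    rw [this, Dn_succ, Dn_succ]
  rw [e1, e1, hj, hj] at e
  rw [← e, ← hj]
  have := Dn_val x hx 2 (jo (Dn x hx (2 * i) a) (Dn x hx (2 * j) a))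
  have hpj : (jo (Dn x hx (2 * i) a) (Dn x hx (2 * j) a)).par = false := by simp [jo, hp]
  rw [hpj] at this
  exact this.symm

/-- `F`-terms -/
def FF (x a : S) (e q i j k : ℕ) : S :=
  associator (adr x false (bb x a i * bb x a j + bb x a j * bb x a i) (2 * q + e)) (bb x a k) x
/-- `G`-terms -/
def GG (x a : S) (e q i j k : ℕ) : S :=
  associator (adr x false (bb x a k) (2 * q + e)) (bb x a i * bb x a j + bb x a j * bb x a i) x

include hx in
theorem FF_rec (a : HE P) (ha : a.par = false) (e q i j k : ℕ) :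
    FF x a.val e (q + 1) i j k = FF x a.val e q (i + 1) j k + FF x a.val e q i (j + 1) k := by
  have e1 : 2 * (q + 1) + e = (2 * q + e) + 2 := by ring
  simp only [FF]
  rw [e1, adr_two, bb_jo_two x hx a ha, adr_add, as1]

omit [AltSuper P] in
theorem GG_rec (a : S) (e q i j k : ℕ) :
    GG x a e (q + 1) i j k = GG x a e q i j (k + 1) := by
  have e1 : 2 * (q + 1) + e = (2 * q + e) + 2 := by ring
  simp only [GG]
  rw [e1, adr_two, bb_two]

/-- the polarized `u_n` at even iterates -/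
def RR (x a : S) (e : ℕ) : ℕ → ℕ → ℕ → ℕ → S := fun q i j k =>
  QQ x (2 * q + e) (bb x a i) (bb x a j) (bb x a k)

include hx in
theorem RR_kill (a : HE P) (ha : a.par = false) (e : ℕ) :
    Lop (1, 0, 0) (Lop (0, 1, 0) (Lop (0, 0, 1) (Lop (0, 1, 1) (Lop (1, 0, 1) (Lop (1, 1, 0)
      (RR x a.val e)))))) = 0 := by
  have h : RR x a.val e = (fun q i j k => FF x a.val e q i j k) - (fun q i j k => GG x a.val e q i j k)
      + ((fun q i j k => FF x a.val e q i k j) - (fun q i j k => GG x a.val e q i k j))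
      + ((fun q i j k => FF x a.val e q j k i) - (fun q i j k => GG x a.val e q j k i)) := by
    funext q i j k
    simp only [RR, QQ, BB, FF, GG, Pi.add_apply, Pi.sub_apply]
  rw [h]
  simp only [Lop_add, Lop_sub]
  rw [six_zero (1, 1, 0) (1, 0, 1) (0, 1, 1) (0, 0, 1) (0, 1, 0) (1, 0, 0)
      (fun q i j k => FF x a.val e q i j k) (Or.inl ?_),
    six_zero (1, 1, 0) (1, 0, 1) (0, 1, 1) (0, 0, 1) (0, 1, 0) (1, 0, 0)
      (fun q i j k => GG x a.val e q i j k) (Or.inr (Or.inr (Or.inr (Or.inl ?_)))),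
    six_zero (1, 1, 0) (1, 0, 1) (0, 1, 1) (0, 0, 1) (0, 1, 0) (1, 0, 0)
      (fun q i j k => FF x a.val e q i k j) (Or.inr (Or.inl ?_)),
    six_zero (1, 1, 0) (1, 0, 1) (0, 1, 1) (0, 0, 1) (0, 1, 0) (1, 0, 0)
      (fun q i j k => GG x a.val e q i k j) (Or.inr (Or.inr (Or.inr (Or.inr (Or.inl ?_))))),
    six_zero (1, 1, 0) (1, 0, 1) (0, 1, 1) (0, 0, 1) (0, 1, 0) (1, 0, 0)
      (fun q i j k => FF x a.val e q j k i) (Or.inr (Or.inr (Or.inl ?_))),
    six_zero (1, 1, 0) (1, 0, 1) (0, 1, 1) (0, 0, 1) (0, 1, 0) (1, 0, 0)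
      (fun q i j k => GG x a.val e q j k i) (Or.inr (Or.inr (Or.inr (Or.inr (Or.inr ?_)))))]
  · simp
  all_goals
    funext q i j k
    simp only [Lop, FF_rec x hx a ha, GG_rec]
    simp

include hx in
theorem rec_main (W : AddSubgroup S) (a : HE P) (ha : a.par = false) (e : ℕ)
    (h : ∀ q ≤ 5, ∀ b ∈ P false, uraw (2 * q + e) b x ∈ W) (q : ℕ) :
    (6 : ℤ) • uraw (2 * q + e) a.val x ∈ W := by
  have hb : ∀ i, bb x a.val i ∈ P false := fun i => by
    have hp : (Dn x hx (2 * i) a).par = false := by simp [par_Dn, odd?_two_mul, ha]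
    have hv : (Dn x hx (2 * i) a).val = bb x a.val i := by rw [Dn_val, ha]; rfl
    rw [← hv, ← hp]; exact (Dn x hx (2 * i) a).mem
  have h0 : mem W 5 (RR x a.val e) := by
    intro q i j k hq
    exact QQ_mem x W (2 * q + e) (h q hq) _ _ _ (hb i) (hb j) (hb k)
  have := mem_six W _ _ _ _ _ _ (RR x a.val e) h0 (RR_kill x hx a ha e) q q 0 0 0 le_rfl
  have e1 : RR x a.val e q 0 0 0 = (6 : ℤ) • uraw (2 * q + e) a.val x := by
    have hB : uraw (2 * q + e) a.val x = BB x (2 * q + e) (a.val * a.val) a.val := rfl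
    have e0 : bb x a.val 0 = a.val := rfl
    rw [hB]
    simp only [RR, QQ, e0, BB_add1]
    abel
  rw [← e1]; exact this

end

end Pool.Agent.Lib.MP_5f6665_al
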