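import Pool.Agent.Lib.MP_5f6665_al.Cert
import Pool.Agent.Lib.MP_5f6665_al.Rec

/-! All `u_n` lie in every divisible subgroup containing the superlinearizations of `u_4`. -/

namespace Pool.Agent.Lib.MP_5f6665_al

variable {S : Type*} [NonUnitalNonAssocRing S] {P : Bool → AddSubgroup S} [AltSuper P]
variable (x : S) (hx : x ∈ P true)

theorem main_small (W : AddSubgroup S) (hW : Tgt x hx W) (n : ℕ) :
    ∀ (q : ℕ) (e : Bool), q ≤ 5 → rk q e = n → ∀ a : HE P, a.par = false →
      phiL x hx (tgt q e) a a a ∈ W := by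
  induction n using Nat.strong_induction_on with
  | _ n ih =>
    intro q e hq hn a ha
    obtain ⟨N, cert, hN, hc⟩ := all_certs q hq e
    refine chk_sound x hx a ha W hW q e ?_ N hN cert hc
    intro q' e' hlt y z w hy hz hw
    refine polarV x hx W _ ?_ y z w hy hz hw
    intro b hb
    have hq' : q' ≤ 5 := by
      cases e <;> cases e' <;> simp only [rk] at hlt <;> omega
    exact ih (rk q' e') (hn ▸ hlt) q' e' hq' rfl b hb

theorem main_small' (W : AddSubgroup S) (hW : Tgt x hx W) (q : ℕ) (hq : q ≤ 5) (e : ℕ) (he : e < 2)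
    (a : HE P) (ha : a.par = false) : uraw (2 * q + e) a.val x ∈ W := by
  interval_cases e
  · rw [add_zero, uraw_even x hx a ha]
    exact main_small x hx W hW _ q false hq rfl a ha
  · rw [uraw_odd x hx a ha]
    exact main_small x hx W hW _ q true hq rfl a ha

theorem main_all (W : AddSubgroup S) (hW : Tgt x hx W) (a : HE P) (ha : a.par = false) (m : ℕ) :
    uraw m a.val x ∈ W := by
  have h := rec_main x hx W a ha (m % 2)
    (fun q hq b hb => main_small' x hx W hW q hq (m % 2) (Nat.mod_lt _ (by norm_num)) ⟨b, false, hb⟩ rfl)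
    (m / 2)
  have e : 2 * (m / 2) + m % 2 = m := Nat.div_add_mod m 2
  rw [e] at h
  exact hW.hd 6 _ (by norm_num) h

end Pool.Agent.Lib.MP_5f6665_al
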