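import Pool.Agent.Lib.MP_5f6665_al.Link
import Pool.Agent.Lib.MP_5f6665_al.Main

/-! Every `u_n` lies in the verbal subsuperalgebra generated by `u_4`. -/

namespace Pool.Agent.Lib.MP_5f6665_al

section map

variable {F : Type*} [Field F] {S T : Type*} [NonUnitalNonAssocRing S] [Module F S]
  [NonUnitalNonAssocRing T] [Module F T] (f : S →ₙₐ[F] T)

theorem map_adr (x : S) (p : Bool) (b : S) (n : ℕ) : f (adr x p b n) = adr (f x) p (f b) n := by
  induction n with
  | zero => rfl
  | succ n ih => simp only [adr, map_sub, map_mul, map_zsmul, ih]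

theorem map_T3 (x : S) (p : Bool) (u v : S) : f (T3 x p u v) = T3 (f x) p (f u) (f v) := by
  simp only [T3, associator, map_sub, map_mul, map_adr]

theorem map_EE (x : S) (p1 p2 p3 : Bool) (y1 y2 y3 : S) :
    f (EE x p1 p2 p3 y1 y2 y3) = EE (f x) p1 p2 p3 (f y1) (f y2) (f y3) := by
  simp only [EE, map_sub, map_add, map_zsmul, map_T3, map_mul]

end map

variable {F : Type*} [Field F] [CharZero F] {A X : Type*}

/-- the substitution -/
def phi {S : Type*} [Zero S] (x : S) (p1 p2 p3 : Bool) (y1 y2 y3 : S) : ℕ × Bool → S := fun v =>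
  if v = (0, true) then x else if v = (1, p1) then y1 else if v = (2, p2) then y2
  else if v = (3, p3) then y3 else 0

theorem Uval_mem (x : SAlt F A X) (hx : x ∈ PP F A X true) (y z w : HE (PP F A X)) :
    Uval x hx y z w ∈ (verbal F (SAlt.homog F A X) (upoly F 4)).toSubmodule.toAddSubgroup := by
  set f := FreeNonUnitalNonAssocAlgebra.lift F
    (phi x y.par z.par w.par y.val z.val w.val) with hf
  have h0 : f (vx F) = x := by
    rw [hf, vx, FreeNonUnitalNonAssocAlgebra.lift_of_apply]; simp [phi]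
  have h1 : f (FreeNonUnitalNonAssocAlgebra.of F ((1, y.par) : ℕ × Bool)) = y.val := by
    rw [hf, FreeNonUnitalNonAssocAlgebra.lift_of_apply]; simp [phi]
  have h2 : f (FreeNonUnitalNonAssocAlgebra.of F ((2, z.par) : ℕ × Bool)) = z.val := by
    rw [hf, FreeNonUnitalNonAssocAlgebra.lift_of_apply]; simp [phi]
  have h3 : f (FreeNonUnitalNonAssocAlgebra.of F ((3, w.par) : ℕ × Bool)) = w.val := by
    rw [hf, FreeNonUnitalNonAssocAlgebra.lift_of_apply]; simp [phi]
  have hE : EE x y.par z.par w.par y.val z.val w.val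
      ∈ (verbal F (SAlt.homog F A X) (upoly F 4)).toSubmodule.toAddSubgroup := by
    refine NonUnitalAlgebra.subset_adjoin F ⟨4, _, phi x y.par z.par w.par y.val z.val w.val,
      IsLin.step false w.par (IsLin.step false z.par (IsLin.step false y.par IsLin.base)), ?_, ?_⟩
    · intro v
      simp only [phi]
      split_ifs with c0 c1 c2 c3
      · rw [c0]; exact hx
      · rw [c1]; exact y.mem
      · rw [c2]; exact z.mem
      · rw [c3]; exact w.mem
      · exact Submodule.zero_mem _
    · rw [← hf, lin3, map_EE, h0, h1, h2, h3]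
  rw [EE_eq x hx] at hE
  have h4 := AddSubgroup.zsmul_mem _ hE
    (sg (xor (y.par && z.par) (xor (y.par && w.par) (z.par && w.par))))
  have e : ∀ (b : Bool) (s : SAlt F A X), sg b • sg b • s = s := by
    intro b s; cases b <;> simp
  rw [e] at h4
  exact h4

theorem verbal_div (P : Bool → Submodule F (SAlt F A X)) (g : SPoly F) (n : ℤ) (s : SAlt F A X)
    (hn : n ≠ 0) (h : n • s ∈ (verbal F P g).toSubmodule.toAddSubgroup) :
    s ∈ (verbal F P g).toSubmodule.toAddSubgroup := by
  have hn' : (n : F) ≠ 0 := by exact_mod_cast hn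
  have h1 : (n : F)⁻¹ • (n • s) ∈ (verbal F P g).toSubmodule :=
    Submodule.smul_mem _ _ h
  rw [← Int.cast_smul_eq_zsmul F, smul_smul, inv_mul_cancel₀ hn', one_smul] at h1
  exact h1

theorem un_mem (a : A) (x : X) (n : ℕ) (hn : 1 ≤ n) :
    un n (SAlt.even F X a) (SAlt.odd F A x) ∈ verbal F (SAlt.homog F A X) (upoly F 4) := by
  have hx : SAlt.odd F A x ∈ PP F A X true := ⟨_, of_mem_comp (Sum.inr x), rfl⟩
  have ha : SAlt.even F X a ∈ PP F A X false := ⟨_, of_mem_comp (Sum.inl a), rfl⟩
  have h := main_all (SAlt.odd F A x) hx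
    (verbal F (SAlt.homog F A X) (upoly F 4)).toSubmodule.toAddSubgroup
    ⟨Uval_mem _ hx, verbal_div _ _⟩ ⟨SAlt.even F X a, false, ha⟩ rfl (n - 1)
  simp only [un, bseq_eq]
  exact h

end Pool.Agent.Lib.MP_5f6665_al
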