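import Pool.Agent.Lib.MP_5f6665_al.Words

/-! Formal vectors of bilinear and cubic symbols, and their meaning. -/

namespace Pool.Agent.Lib.MP_5f6665_al

variable {S : Type*} [NonUnitalNonAssocRing S] {P : Bool → AddSubgroup S} [AltSuper P]

/-- formal combinations of bilinear symbols: coefficient, kind (`false`: commutator,
`true`: associator with `x`), two letters -/
abbrev BV := List (ℤ × Bool × Ltr × Ltr)
/-- formal combinations of cubic symbols -/
abbrev CV := List (ℤ × Ltr × Bool × Ltr × Ltr)

/-- parity of a bilinear symbol -/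
def spar (k : Bool) (l m : Ltr) : Bool := xor (xor l.par m.par) k

variable (x : S) (hx : x ∈ P true) (a : HE P)

/-- bilinear symbol -/
def bsym (k : Bool) (l m : Ltr) : HE P :=
  match k with
  | false => br (ev x hx a l) (ev x hx a m)
  | true => asr (ev x hx a l) (ev x hx a m) (HX x hx)

/-- meaning of a formal bilinear vector -/
def bden : BV → S
  | [] => 0
  | (c, k, l, m) :: v => c • (bsym x hx a k l m).val + bden v

/-- cubic symbol -/
def csym (h : Ltr) (k : Bool) (l m : Ltr) : S := (jo (ev x hx a h) (bsym x hx a k l m)).val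

/-- meaning of a formal cubic vector -/
def cden : CV → S
  | [] => 0
  | (c, h, k, l, m) :: v => c • csym x hx a h k l m + cden v

theorem bden_append (u v : BV) : bden x hx a (u ++ v) = bden x hx a u + bden x hx a v := by
  induction u with
  | nil => simp [bden]
  | cons s u ih => obtain ⟨c, k, l, m⟩ := s; simp only [List.cons_append, bden, ih]; abel

theorem cden_append (u v : CV) : cden x hx a (u ++ v) = cden x hx a u + cden x hx a v := by
  induction u with
  | nil => simp [cden]
  | cons s u ih => obtain ⟨c, h, k, l, m⟩ := s; simp only [List.cons_append, cden, ih]; abel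

theorem bsym_par (ha : a.par = false) (k : Bool) (l m : Ltr) :
    (bsym x hx a k l m).par = spar k l m := by
  cases k <;> simp [bsym, br, asr, spar, ev_par x hx a ha, HX]

/-- multiply by a letter -/
def hcv (h : Ltr) (v : BV) : CV := v.map fun s => (s.1, h, s.2.1, s.2.2.1, s.2.2.2)

/-- all symbols have parity `p` -/
def upar (p : Bool) (v : BV) : Prop := ∀ s ∈ v, spar s.2.1 s.2.2.1 s.2.2.2 = p

theorem cden_hcv (ha : a.par = false) (h : Ltr) (p : Bool) (v : BV) (hv : upar p v) :
    cden x hx a (hcv h v) = joR (ev x hx a h) p (bden x hx a v) := by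
  induction v with
  | nil => simp [hcv, cden, bden, joR]
  | cons s v ih =>
    obtain ⟨c, k, l, m⟩ := s
    have h1 : spar k l m = p := hv (c, k, l, m) (by simp)
    have h2 := ih (fun s hs => hv s (by simp [hs]))
    simp only [hcv, List.map_cons, cden, bden, csym, jo] at h2 ⊢
    rw [h2, bsym_par x hx a ha, h1]
    simp only [joR, mul_add, add_mul, smul_add, mul_smul_comm, smul_mul_assoc]
    rw [smul_comm c]
    abel

/-- raw `D` on elements of parity `p` -/
def Dr (p : Bool) (v : S) : S := v * x - sg p • (x * v)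

/-- `3 D` on formal vectors -/
def oD1 (c : ℤ) (k : Bool) (l m : Ltr) : BV :=
  match k with
  | false => [(18 * c, true, l, m), (3 * c, false, l, m.sD), (3 * c * sg m.par, false, l.sD, m)]
  | true => [(-6 * c, true, l, m.sD), (-3 * c * sg m.par, true, l.sD, m), (-c, false, l, m.sD.sD),
      (c, false, l, m.sT)]

/-- `3 D` on formal vectors -/
def oD (v : BV) : BV := v.flatMap fun s => oD1 s.1 s.2.1 s.2.2.1 s.2.2.2

theorem bden_oD1 (ha : a.par = false) (c : ℤ) (k : Bool) (l m : Ltr) :
    bden x hx a (oD1 c k l m) = (3 * c) • Dr x (spar k l m) (bsym x hx a k l m).val := by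
  cases k
  · have h := OO (ev x hx a l) (ev x hx a m) (HX x hx)
    have e1 : (br (br (ev x hx a l) (ev x hx a m)) (HX x hx)).val =
      Dr x (spar false l m) (br (ev x hx a l) (ev x hx a m)).val := by
      simp [br, Dr, spar, HX, ev_par x hx a ha]
    rw [e1] at h
    simp only [oD1, bden, bsym, ev_sD]
    rw [h]
    simp only [asr, Dd, HX, ev_par x hx a ha, Bool.and_true]
    module
  · have h := O2lem x hx (ev x hx a l) (ev x hx a m)
    have e1 : (Dd x hx (asr (ev x hx a l) (ev x hx a m) (HX x hx))).val =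
      Dr x (spar true l m) (asr (ev x hx a l) (ev x hx a m) (HX x hx)).val := by
      simp [br, Dr, spar, HX, ev_par x hx a ha, Dd, asr]
    rw [e1] at h
    simp only [oD1, bden, bsym, ev_sD, ev_sT]
    rw [mul_comm (3 : ℤ) c, mul_smul c (3 : ℤ), h]
    simp only [asr, Dd, HX, ev_par x hx a ha]
    module

theorem upar_oD (p : Bool) (v : BV) (hv : upar p v) : upar (!p) (oD v) := by
  intro s hs
  simp only [oD, List.mem_flatMap] at hs
  obtain ⟨t, ht, hs⟩ := hs
  have h := hv t ht
  obtain ⟨c, k, l, m⟩ := t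
  simp only [oD1] at hs
  cases k <;> simp only [List.mem_cons, List.not_mem_nil, or_false] at hs
  · rcases hs with rfl | rfl | rfl <;> rw [← h] <;> simp [spar, Ltr.par_sD]
  · rcases hs with rfl | rfl | rfl | rfl <;> rw [← h] <;> simp [spar, Ltr.par_sD, Ltr.par_sT]

theorem bden_oD (ha : a.par = false) (p : Bool) (v : BV) (hv : upar p v) :
    bden x hx a (oD v) = (3 : ℤ) • Dr x p (bden x hx a v) := by
  induction v with
  | nil => simp [oD, bden, Dr]
  | cons s v ih =>
    obtain ⟨c, k, l, m⟩ := s
    have h1 : spar k l m = p := hv (c, k, l, m) (by simp)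
    have h2 := ih (fun s hs => hv s (by simp [hs]))
    simp only [oD, List.flatMap_cons, bden_append] at h2 ⊢
    rw [h2, bden_oD1 x hx a ha, h1, bden]
    simp only [Dr, add_mul, mul_add, smul_mul_assoc, mul_smul_comm]
    module

/-- iterates of `3 D` -/
def oDn : ℕ → BV → BV
  | 0, v => v
  | n + 1, v => oDn n (oD v)

theorem oDn_zero (ha : a.par = false) (n : ℕ) (p : Bool) (v : BV) (hv : upar p v)
    (h0 : bden x hx a v = 0) : ∃ q, upar q (oDn n v) ∧ bden x hx a (oDn n v) = 0 := by
  induction n generalizing p v with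
  | zero => exact ⟨p, hv, h0⟩
  | succ n ih =>
    refine ih (!p) (oD v) (upar_oD p v hv) ?_
    rw [bden_oD x hx a ha p v hv, h0]
    simp [Dr]

theorem cden_hcv_oDn (ha : a.par = false) (h : Ltr) (n : ℕ) (p : Bool) (v : BV) (hv : upar p v)
    (h0 : bden x hx a v = 0) : cden x hx a (hcv h (oDn n v)) = 0 := by
  obtain ⟨q, h1, h2⟩ := oDn_zero x hx a ha n p v hv h0
  rw [cden_hcv x hx a ha h q _ h1, h2]
  simp [joR]

/-- the relation `g2` -/
def g2v (l r : Ltr) : BV := [(3, true, l, r.sD), (1, false, l, r.sD.sD), (-1, false, l, r.sT),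
  (-3 * sg r.par, true, l.sD, r), (-1, false, l.sD.sD, r), (1, false, l.sT, r)]

/-- the relation `g3` -/
def g3v (l r : Ltr) : BV := [(3 * sg r.par, true, l.sD, r.sD), (sg r.par, false, l.sD, r.sD.sD),
  (-sg r.par, false, l.sD, r.sT), (3, true, l.sT, r), (-3, true, l, r.sD.sD),
  (-1, false, l, r.sD.sD.sD), (1, false, l, r.sD.sT), (-3, true, l, r.sT)]

/-- the relation `g4` -/
def g4v (l r : Ltr) : BV := [(3, true, l.sT, r.sD), (1, false, l.sT, r.sD.sD), (-1, false, l.sT, r.sT),
  (-3, true, l, r.sT.sD), (-1, false, l, r.sT.sD.sD), (1, false, l, r.sT.sT)]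

theorem upar_g2v (l r : Ltr) : upar (xor l.par r.par) (g2v l r) := by
  intro s hs
  simp only [g2v, List.mem_cons, List.not_mem_nil, or_false] at hs
  rcases hs with rfl | rfl | rfl | rfl | rfl | rfl <;> simp [spar, Ltr.par_sD, Ltr.par_sT]

theorem upar_g3v (l r : Ltr) : upar (!xor l.par r.par) (g3v l r) := by
  intro s hs
  simp only [g3v, List.mem_cons, List.not_mem_nil, or_false] at hs
  rcases hs with rfl | rfl | rfl | rfl | rfl | rfl | rfl | rfl <;> simp [spar, Ltr.par_sD, Ltr.par_sT]

theorem upar_g4v (l r : Ltr) : upar (xor l.par r.par) (g4v l r) := by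
  intro s hs
  simp only [g4v, List.mem_cons, List.not_mem_nil, or_false] at hs
  rcases hs with rfl | rfl | rfl | rfl | rfl | rfl <;> simp [spar, Ltr.par_sD, Ltr.par_sT]

theorem bden_g2v (ha : a.par = false) (l r : Ltr) : bden x hx a (g2v l r) = 0 := by
  rw [← G2 x hx (ev x hx a l) (ev x hx a r)]
  simp only [g2v, bden, bsym, ev_sD, ev_sT, R3, asr, HX, ev_par x hx a ha]
  module

theorem bden_g3v (ha : a.par = false) (l r : Ltr) : bden x hx a (g3v l r) = 0 := by
  rw [← G3 x hx (ev x hx a l) (ev x hx a r)]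
  simp only [g3v, bden, bsym, ev_sD, ev_sT, R3, asr, HX, ev_par x hx a ha]
  module

theorem bden_g4v (l r : Ltr) : bden x hx a (g4v l r) = 0 := by
  rw [← G4 x hx (ev x hx a l) (ev x hx a r)]
  simp only [g4v, bden, bsym, ev_sD, ev_sT, R3, asr, HX]
  module

/-- the relation `MM` -/
def mmv (y z w : Ltr) : CV := [(3 * sg (xor z.par w.par), y.sD, true, z, w),
  (1, y.sD.sD, false, z, w), (-1, y.sT, false, z, w),
  (sg (y.par && z.par) * (3 * sg (xor y.par w.par)), z.sD, true, y, w),
  (sg (y.par && z.par), z.sD.sD, false, y, w), (-sg (y.par && z.par), z.sT, false, y, w)]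

theorem cden_mmv (ha : a.par = false) (y z w : Ltr) : cden x hx a (mmv y z w) = 0 := by
  rw [← MM x hx (ev x hx a y) (ev x hx a z) (ev x hx a w)]
  simp only [mmv, cden, csym, bsym, ev_sD, ev_sT, ev_par x hx a ha]
  module

/-- `h ∘ R(z,w)` -/
def rrv (c : ℤ) (h z w : Ltr) : CV := [(3 * c, h, true, z, w.sD), (c, h, false, z, w.sD.sD),
  (-c, h, false, z, w.sT)]

theorem cden_rrv (c : ℤ) (h z w : Ltr) : cden x hx a (rrv c h z w) =
    c • joRR x hx (ev x hx a h) (ev x hx a z) (ev x hx a w) := by
  simp only [rrv, cden, csym, bsym, ev_sD, ev_sT, joRR]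
  module

/-- the relation `XA` -/
def xav (y z w : Ltr) : CV := rrv (sg (xor z.par w.par)) y.sD z w ++
  (rrv (sg (xor (y.par && z.par) (xor y.par w.par))) z.sD y w ++
  [(3, y.sT, true, z, w), (3 * sg (y.par && z.par), z.sT, true, y, w)])

theorem cden_xav (ha : a.par = false) (y z w : Ltr) : cden x hx a (xav y z w) = 0 := by
  rw [← XA x hx (ev x hx a y) (ev x hx a z) (ev x hx a w)]
  simp only [xav, cden_append, cden_rrv, cden, csym, bsym, ev_sD, ev_sT, ev_par x hx a ha]
  module

/-- the relation `TT` -/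
def ttv (y z w : Ltr) : CV := rrv 1 y.sT z w ++ rrv (sg (y.par && z.par)) z.sT y w

theorem cden_ttv (ha : a.par = false) (y z w : Ltr) : cden x hx a (ttv y z w) = 0 := by
  rw [← TT x hx (ev x hx a y) (ev x hx a z) (ev x hx a w)]
  simp only [ttv, cden_append, cden_rrv, ev_sT, ev_par x hx a ha]
  module

/-- the relation `XB` -/
def xbv (y z w : Ltr) : CV := [(3, y.sT, true, z, w), (3 * sg (y.par && z.par), z.sT, true, y, w),
  (-sg (xor (w.par && z.par) ((!z.par) && xor y.par w.par)), z.sD.sT, false, y, w),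
  (sg (xor (w.par && z.par) ((!z.par) && xor y.par w.par)), z.sT.sD, false, y, w),
  (-sg (xor (y.par && z.par) (xor (w.par && y.par) ((!y.par) && xor z.par w.par))), y.sD.sT, false, z, w),
  (sg (xor (y.par && z.par) (xor (w.par && y.par) ((!y.par) && xor z.par w.par))), y.sT.sD, false, z, w)]

theorem cden_xbv (ha : a.par = false) (y z w : Ltr) : cden x hx a (xbv y z w) = 0 := by
  rw [← XB x hx (ev x hx a y) (ev x hx a z) (ev x hx a w)]
  simp only [xbv, cden, csym, bsym, ev_sD, ev_sT, ev_par x hx a ha]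
  module

end Pool.Agent.Lib.MP_5f6665_al
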