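import Pool.Agent.Lib.MP_5f6665_al.Rec

/-! The free alternative superalgebra is an alternative superalgebra; superlinearizations. -/

namespace Pool.Agent.Lib.MP_5f6665_al

open FreeNonUnitalNonAssocAlgebra

section comp

variable {F : Type*} [Field F] {V : Type*} {π : V → Bool}

theorem mon_mul (a b : FreeMagma V) : mon F (a * b) = mon F a * mon F b :=
  (MonoidAlgebra.ofMagma F (FreeMagma V)).map_mul a b

theorem mon_of (v : V) : mon F (FreeMagma.of v) = of F v := rfl

theorem of_mem_comp (v : V) : of F v ∈ comp F π (π v) :=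
  Submodule.subset_span ⟨FreeMagma.of v, rfl, rfl⟩

theorem comp_mul {p q : Bool} {u v : FreeNonUnitalNonAssocAlgebra F V} (hu : u ∈ comp F π p)
    (hv : v ∈ comp F π q) : u * v ∈ comp F π (xor p q) := by
  refine Submodule.span_induction ?_ ?_ ?_ ?_ hu
  · rintro _ ⟨a, rfl, rfl⟩
    refine Submodule.span_induction ?_ ?_ ?_ ?_ hv
    · rintro _ ⟨b, rfl, rfl⟩
      exact Submodule.subset_span ⟨a * b, rfl, (mon_mul a b).symm⟩
    · rw [mul_zero]; exact Submodule.zero_mem _
    · intro x y _ _ hx hy; rw [mul_add]; exact Submodule.add_mem _ hx hy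
    · intro c x _ hx; rw [mul_smul_comm]; exact Submodule.smul_mem _ _ hx
  · rw [zero_mul]; exact Submodule.zero_mem _
  · intro x y _ _ hx hy; rw [add_mul]; exact Submodule.add_mem _ hx hy
  · intro c x _ hx; rw [smul_mul_assoc]; exact Submodule.smul_mem _ _ hx

theorem span_mon (f : FreeNonUnitalNonAssocAlgebra F V) :
    f ∈ Submodule.span F (Set.range (mon F : FreeMagma V → _)) := by
  have h := (MonoidAlgebra.basis (FreeMagma V) F).mem_span f
  have e : Set.range (MonoidAlgebra.basis (FreeMagma V) F) = Set.range (mon F : FreeMagma V → _) := by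
    congr 1
  rwa [e] at h

end comp

/-! ### `SAlt` -/

section salt

variable {F : Type*} [Field F] {A X : Type*}

theorem SAlt.mk_assoc (u v w : FreeNonUnitalNonAssocAlgebra F (A ⊕ X)) :
    SAlt.mk F A X (associator u v w)
      = associator (SAlt.mk F A X u) (SAlt.mk F A X v) (SAlt.mk F A X w) := by
  simp only [associator, map_sub, SAlt.mk_mul]

theorem altRel_sub (π : A ⊕ X → Bool) {f : FreeNonUnitalNonAssocAlgebra F (A ⊕ X)}
    (hf : f ∈ altRel F π) : f ∈ altIdeal F π := by
  simp only [altIdeal, Submodule.mem_sInf]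
  exact fun I hI => hI.1 hf

theorem SAlt.rel_zero {f : FreeNonUnitalNonAssocAlgebra F (A ⊕ X)}
    (hf : f ∈ altRel F (Sum.isRight : A ⊕ X → Bool)) : SAlt.mk F A X f = 0 := by
  rw [← map_zero (SAlt.mk F A X), SAlt.mk_eq, sub_zero]
  exact altRel_sub _ hf

/-- the components of `SAlt` as additive subgroups -/
noncomputable def PP (F : Type*) [Field F] (A X : Type*) (p : Bool) : AddSubgroup (SAlt F A X) :=
  (SAlt.homog F A X p).toAddSubgroup

instance [CharZero F] : AltSuper (PP F A X) where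
  mul_mem := by
    rintro p q u v ⟨u, hu, rfl⟩ ⟨v, hv, rfl⟩
    exact ⟨u * v, comp_mul hu hv, SAlt.mk_mul u v⟩
  alt_left := by
    rintro p q u v w ⟨u, hu, rfl⟩ ⟨v, hv, rfl⟩
    obtain ⟨w, rfl⟩ := SAlt.mk_surjective w
    rw [← SAlt.mk_assoc, ← SAlt.mk_assoc, ← map_zsmul, ← map_add]
    exact SAlt.rel_zero ⟨p, q, u, v, w, hu, hv, Or.inl rfl⟩
  alt_right := by
    rintro p q u v w ⟨u, hu, rfl⟩ ⟨v, hv, rfl⟩
    obtain ⟨w, rfl⟩ := SAlt.mk_surjective w
    rw [← SAlt.mk_assoc, ← SAlt.mk_assoc, ← map_zsmul, ← map_add]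
    exact SAlt.rel_zero ⟨p, q, u, v, w, hu, hv, Or.inr rfl⟩
  tf := by
    intro n s hn h
    rw [← Int.cast_smul_eq_zsmul F] at h
    exact (smul_eq_zero.mp h).resolve_left (by exact_mod_cast hn)

end salt

/-! ### Superlinearizations -/

section lin

variable {F : Type*} [Field F]

/-- the parity operator to the power `d` -/
noncomputable def theta (F : Type*) [Field F] (d : Bool) : SPoly F →ₗ[F] SPoly F :=
  (MonoidAlgebra.basis (FreeMagma (ℕ × Bool)) F).constr F
    fun m => sg (d && mpar Prod.snd m) • mon F m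

theorem theta_mon (d : Bool) (m : FreeMagma (ℕ × Bool)) :
    theta F d (mon F m) = sg (d && mpar Prod.snd m) • mon F m :=
  (MonoidAlgebra.basis (FreeMagma (ℕ × Bool)) F).constr_basis F _ m

theorem slin_mon (v y : ℕ × Bool) (m : FreeMagma (ℕ × Bool)) : slin F v y (mon F m) = dmon F v y m :=
  (MonoidAlgebra.basis (FreeMagma (ℕ × Bool)) F).constr_basis F _ m

theorem theta_comp (d p : Bool) {f : SPoly F} (hf : f ∈ comp F (Prod.snd : ℕ × Bool → Bool) p) :
    theta F d f = sg (d && p) • f := by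
  refine Submodule.span_induction ?_ ?_ ?_ ?_ hf
  · rintro _ ⟨m, rfl, rfl⟩; exact theta_mon d m
  · simp
  · intro x y _ _ hx hy; rw [map_add, hx, hy, smul_add]
  · intro c x _ hx; rw [map_smul, hx, smul_comm]

/-- the Leibniz rule -/
theorem slin_mul (v y : ℕ × Bool) (f g : SPoly F) :
    slin F v y (f * g) = slin F v y f * g + theta F (xor v.2 y.2) f * slin F v y g := by
  refine Submodule.span_induction ?_ ?_ ?_ ?_ (span_mon f)
  · rintro _ ⟨a, rfl⟩
    refine Submodule.span_induction ?_ ?_ ?_ ?_ (span_mon g)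
    · rintro _ ⟨b, rfl⟩
      rw [← mon_mul, slin_mon, theta_mon, slin_mon, slin_mon]
      change dmon F v y (FreeMagma.mul a b) = _
      rw [dmon, smul_mul_assoc]
    · simp
    · intro x y _ _ hx hy
      rw [mul_add, map_add, hx, hy, map_add, mul_add, mul_add]; abel
    · intro c x _ hx
      rw [mul_smul_comm, map_smul, hx, map_smul, smul_add, mul_smul_comm, mul_smul_comm]
  · simp
  · intro x y _ _ hx hy
    rw [add_mul, map_add, hx, hy, map_add, map_add, add_mul, add_mul]; abel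
  · intro c x _ hx
    rw [smul_mul_assoc, map_smul, hx, map_smul, map_smul, smul_add, smul_mul_assoc, smul_mul_assoc]

theorem slin_of (v y z : ℕ × Bool) : slin F v y (of F z) = if z = v then of F y else 0 :=
  slin_mon v y (FreeMagma.of z)

theorem theta_mul (d : Bool) (f g : SPoly F) : theta F d (f * g) = theta F d f * theta F d g := by
  refine Submodule.span_induction ?_ ?_ ?_ ?_ (span_mon f)
  · rintro _ ⟨a, rfl⟩
    refine Submodule.span_induction ?_ ?_ ?_ ?_ (span_mon g)
    · rintro _ ⟨b, rfl⟩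
      rw [← mon_mul, theta_mon, theta_mon, theta_mon, mon_mul]
      change sg (d && (xor (mpar Prod.snd a) (mpar Prod.snd b))) • _ = _
      rw [smul_mul_assoc, mul_smul_comm]
      cases d <;> cases mpar Prod.snd a <;> cases mpar Prod.snd b <;> simp
    · simp
    · intro x y _ _ hx hy
      rw [mul_add, map_add, hx, hy, map_add, mul_add]
    · intro c x _ hx
      rw [mul_smul_comm, map_smul, hx, map_smul, mul_smul_comm]
  · simp
  · intro x y _ _ hx hy
    rw [add_mul, map_add, hx, hy, map_add, add_mul]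
  · intro c x _ hx
    rw [smul_mul_assoc, map_smul, hx, map_smul, smul_mul_assoc]

end lin

theorem bseq_eq {S : Type*} [NonUnitalNonAssocRing S] (x b : S) (n : ℕ) :
    bseq x b n = adr x false b n := by
  induction n with
  | zero => rfl
  | succ n ih =>
    have h : ((-1 : ℤ) ^ n) = sg (odd? n) := by
      clear ih
      induction n with
      | zero => rfl
      | succ n ih => rw [pow_succ, ih, odd?_succ]; cases odd? n <;> rfl
    simp only [bseq, adr, ih, h, Bool.xor_false]

/-- `(D³ f, g, x)` -/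
def T3 {S : Type*} [NonUnitalNonAssocRing S] (x : S) (p : Bool) (f g : S) : S :=
  associator (adr x p f 3) g x

section eval

variable (F : Type*) [Field F]

/-- the variable `x` -/
noncomputable def vx : SPoly F := of F ((0, true) : ℕ × Bool)
/-- the variable `a` -/
noncomputable def va : SPoly F := of F ((0, false) : ℕ × Bool)

variable {F}

theorem adr_mem (p : Bool) {b : SPoly F} (hb : b ∈ comp F (Prod.snd : ℕ × Bool → Bool) p) (n : ℕ) :
    adr (vx F) p b n ∈ comp F (Prod.snd : ℕ × Bool → Bool) (xor (odd? n) p) := by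
  have hx : vx F ∈ comp F (Prod.snd : ℕ × Bool → Bool) true := of_mem_comp (0, true)
  induction n with
  | zero =>
    have : xor (odd? 0) p = p := by cases p <;> rfl
    rw [this]; exact hb
  | succ n ih =>
    rw [odd?_succ, adr]
    have h1 := comp_mul ih hx
    have h2 := comp_mul hx ih
    have e1 : xor (xor (odd? n) p) true = xor (!odd? n) p := by cases odd? n <;> cases p <;> rfl
    have e2 : xor true (xor (odd? n) p) = xor (!odd? n) p := by cases odd? n <;> cases p <;> rfl
    rw [e1] at h1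
    rw [e2] at h2
    exact Submodule.sub_mem _ h1 (zsmul_mem h2 _)

theorem slin_vx (y : ℕ × Bool) : slin F (0, false) y (vx F) = 0 := by
  rw [vx, slin_of, if_neg (by simp)]

theorem slin_va (y : ℕ × Bool) : slin F (0, false) y (va F) = of F y := by
  rw [va, slin_of, if_pos rfl]

theorem slin_new (y : ℕ × Bool) (i : ℕ) (q : Bool) :
    slin F (0, false) y (of F ((i + 1, q) : ℕ × Bool)) = 0 := by
  rw [slin_of, if_neg (by simp)]

theorem theta_vx (d : Bool) : theta F d (vx F) = sg d • vx F := by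
  have hx : vx F ∈ comp F (Prod.snd : ℕ × Bool → Bool) true := of_mem_comp (0, true)
  rw [theta_comp d true hx, Bool.and_true]

theorem slin_adr (y : ℕ × Bool) (p : Bool) (b : SPoly F) (n : ℕ) :
    slin F (0, false) y (adr (vx F) p b n) = adr (vx F) (xor p y.2) (slin F (0, false) y b) n := by
  induction n with
  | zero => rfl
  | succ n ih =>
    rw [adr, adr, map_sub, map_zsmul, slin_mul, slin_mul, slin_vx, ih, theta_vx]
    simp only [mul_zero, zero_mul, add_zero, zero_add, smul_mul_assoc, Bool.false_xor]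
    congr 1
    cases odd? n <;> cases p <;> cases y.2 <;> simp

theorem slin_T3 (y : ℕ × Bool) (p : Bool) {f : SPoly F}
    (hf : f ∈ comp F (Prod.snd : ℕ × Bool → Bool) p) (g : SPoly F) :
    slin F (0, false) y (T3 (vx F) p f g) = T3 (vx F) (xor p y.2) (slin F (0, false) y f) g
      + sg (y.2 && !p) • T3 (vx F) p f (slin F (0, false) y g) := by
  have hA := adr_mem p hf 3
  have e : xor (odd? 3) p = !p := by cases p <;> rfl
  rw [e] at hA
  have hθ := theta_comp y.2 (!p) hA
  simp only [T3, associator, map_sub, slin_mul, slin_vx, slin_adr, theta_mul, Bool.false_xor, hθ]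
  simp only [mul_zero, add_zero, smul_mul_assoc, add_mul, smul_sub]
  abel

/-- value of the triple superlinearization of `u_4` -/
def EE {S : Type*} [NonUnitalNonAssocRing S] (x : S) (p1 p2 p3 : Bool) (y1 y2 y3 : S) : S :=
  sg (p3 && !(xor p1 p2)) • T3 x (xor p1 p2) (sg (p2 && p1) • (y1 * y2) + y2 * y1) y3
  + sg (p2 && !p1) • T3 x (xor p1 p3) (sg (p3 && p1) • (y1 * y3) + y3 * y1) y2
  + sg p1 • T3 x (xor p2 p3) (sg (p3 && p2) • (y2 * y3) + y3 * y2) y1
  - (sg (p2 && !p1) • sg (p3 && !p1) • T3 x p1 y1 (sg (p3 && p2) • (y2 * y3) + y3 * y2)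
    + sg p1 • sg (p3 && !p2) • T3 x p2 y2 (sg (p3 && p1) • (y1 * y3) + y3 * y1)
    + sg p1 • sg p2 • T3 x p3 y3 (sg (p2 && p1) • (y1 * y2) + y2 * y1))

theorem upoly_four : upoly F 4 = T3 (vx F) false (va F * va F) (va F)
    - T3 (vx F) false (va F) (va F * va F) := by
  simp only [upoly, un, bseq_eq, T3, va, vx]

theorem T3_zero1 {S : Type*} [NonUnitalNonAssocRing S] (x : S) (p : Bool) (g : S) :
    T3 x p 0 g = 0 := by simp [T3, adr_zero, associator]

theorem T3_zero2 {S : Type*} [NonUnitalNonAssocRing S] (x : S) (p : Bool) (f : S) :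
    T3 x p f 0 = 0 := by simp [T3, associator]

theorem lin3_abs {S : Type*} [NonUnitalNonAssocRing S] (x a y1 y2 y3 : S) (D1 D2 D3 : S →+ S)
    (C : Bool → AddSubgroup S) (p1 p2 p3 : Bool)
    (h1 : ∀ p f g, f ∈ C p → D1 (T3 x p f g) = T3 x (xor p p1) (D1 f) g
      + sg (p1 && !p) • T3 x p f (D1 g))
    (h2 : ∀ p f g, f ∈ C p → D2 (T3 x p f g) = T3 x (xor p p2) (D2 f) g
      + sg (p2 && !p) • T3 x p f (D2 g))
    (h3 : ∀ p f g, f ∈ C p → D3 (T3 x p f g) = T3 x (xor p p3) (D3 f) g
      + sg (p3 && !p) • T3 x p f (D3 g))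
    (ma : a ∈ C false) (maa : a * a ∈ C false) (m1 : y1 * a + a * y1 ∈ C p1) (m1' : y1 ∈ C p1)
    (m2 : y2 * a + a * y2 ∈ C p2) (m2' : y2 ∈ C p2)
    (m12 : sg (p2 && p1) • (y1 * y2) + y2 * y1 ∈ C (xor p1 p2))
    (e1 : D1 (a * a) = y1 * a + a * y1) (e1' : D1 a = y1)
    (e2 : D2 (a * a) = y2 * a + a * y2) (e2' : D2 a = y2)
    (e12 : D2 (y1 * a + a * y1) = sg (p2 && p1) • (y1 * y2) + y2 * y1) (z12 : D2 y1 = 0)
    (e3' : D3 a = y3) (z13 : D3 y1 = 0) (z23 : D3 y2 = 0)
    (e13 : D3 (y1 * a + a * y1) = sg (p3 && p1) • (y1 * y3) + y3 * y1)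
    (e23 : D3 (y2 * a + a * y2) = sg (p3 && p2) • (y2 * y3) + y3 * y2)
    (z123 : D3 (sg (p2 && p1) • (y1 * y2) + y2 * y1) = 0) :
    D3 (D2 (D1 (T3 x false (a * a) a - T3 x false a (a * a)))) = EE x p1 p2 p3 y1 y2 y3 := by
  rw [map_sub, h1 false _ _ maa, h1 false _ _ ma, e1, e1']
  simp only [Bool.false_xor, Bool.not_false, Bool.and_true]
  rw [map_sub, map_add, map_add, map_zsmul, map_zsmul, h2 p1 _ _ m1, h2 false _ _ maa,
    h2 p1 _ _ m1', h2 false _ _ ma, e12, e2, e2', z12]
  simp only [Bool.false_xor, Bool.not_false, Bool.and_true, T3_zero1, T3_zero2, zero_add, smul_zero,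
    add_zero, map_add, map_sub, map_zsmul]
  rw [h3 (xor p1 p2) _ _ m12, h3 p1 _ _ m1, h3 p2 _ _ m2, h3 p1 _ _ m1', h3 p2 _ _ m2',
    h3 false _ _ ma, e3', z123, e13, e23, z13, z23]
  simp only [Bool.false_xor, Bool.not_false, Bool.and_true, T3_zero1, T3_zero2, zero_add, smul_zero,
    add_zero, EE, smul_add]
  abel

theorem lin3 (p1 p2 p3 : Bool) :
    slin F (0, false) (3, p3) (slin F (0, false) (2, p2) (slin F (0, false) (1, p1) (upoly F 4)))
    = EE (vx F) p1 p2 p3 (of F ((1, p1) : ℕ × Bool)) (of F ((2, p2) : ℕ × Bool))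
      (of F ((3, p3) : ℕ × Bool)) := by
  have ma : va F ∈ comp F (Prod.snd : ℕ × Bool → Bool) false := of_mem_comp (0, false)
  have maa : va F * va F ∈ comp F (Prod.snd : ℕ × Bool → Bool) false := by
    have h := comp_mul ma ma
    rwa [Bool.xor_false] at h
  have my : ∀ (i : ℕ) (p : Bool), of F ((i, p) : ℕ × Bool) ∈ comp F (Prod.snd : ℕ × Bool → Bool) p :=
    fun i p => of_mem_comp (i, p)
  have mya : ∀ (i : ℕ) (p : Bool), of F ((i, p) : ℕ × Bool) * va F + va F * of F ((i, p) : ℕ × Bool)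
      ∈ comp F (Prod.snd : ℕ × Bool → Bool) p := by
    intro i p
    have h1 := comp_mul (my i p) ma
    have h2 := comp_mul ma (my i p)
    rw [Bool.xor_false] at h1
    rw [Bool.false_xor] at h2
    exact Submodule.add_mem _ h1 h2
  have myy : ∀ (i j : ℕ) (p q : Bool), sg (q && p) • (of F ((i, p) : ℕ × Bool) * of F ((j, q) : ℕ × Bool))
      + of F ((j, q) : ℕ × Bool) * of F ((i, p) : ℕ × Bool)
      ∈ comp F (Prod.snd : ℕ × Bool → Bool) (xor p q) := by
    intro i j p q
    have h1 := comp_mul (my i p) (my j q)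
    have h2 := comp_mul (my j q) (my i p)
    rw [Bool.xor_comm] at h2
    exact Submodule.add_mem _ (zsmul_mem h1 _) h2
  have a1 : ∀ (i : ℕ) (p : Bool), slin F (0, false) (i, p) (va F * va F)
      = of F ((i, p) : ℕ × Bool) * va F + va F * of F ((i, p) : ℕ × Bool) := by
    intro i p
    rw [slin_mul, slin_va, theta_comp _ false ma, Bool.and_false]
    simp [sg]
  have a2 : ∀ (i j : ℕ) (p q : Bool),
      slin F (0, false) (j, q) (of F ((i + 1, p) : ℕ × Bool) * va F + va F * of F ((i + 1, p) : ℕ × Bool))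
      = sg (q && p) • (of F ((i + 1, p) : ℕ × Bool) * of F ((j, q) : ℕ × Bool))
        + of F ((j, q) : ℕ × Bool) * of F ((i + 1, p) : ℕ × Bool) := by
    intro i j p q
    rw [map_add, slin_mul, slin_mul, slin_va, slin_new, theta_comp _ false ma,
      theta_comp _ p (my (i + 1) p)]
    simp [smul_mul_assoc]
  have a3 : ∀ (i j k : ℕ) (p q r : Bool),
      slin F (0, false) (k, r) (sg (q && p) • (of F ((i + 1, p) : ℕ × Bool) * of F ((j + 1, q) : ℕ × Bool))
        + of F ((j + 1, q) : ℕ × Bool) * of F ((i + 1, p) : ℕ × Bool)) = 0 := by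
    intro i j k p q r
    rw [map_add, map_zsmul, slin_mul, slin_mul, slin_new, slin_new]
    simp
  rw [upoly_four]
  exact lin3_abs (vx F) (va F) _ _ _ (slin F (0, false) (1, p1)).toAddMonoidHom
    (slin F (0, false) (2, p2)).toAddMonoidHom (slin F (0, false) (3, p3)).toAddMonoidHom
    (fun p => (comp F (Prod.snd : ℕ × Bool → Bool) p).toAddSubgroup) p1 p2 p3
    (fun p f g hf => slin_T3 (1, p1) p hf g) (fun p f g hf => slin_T3 (2, p2) p hf g)
    (fun p f g hf => slin_T3 (3, p3) p hf g) ma maa (mya 1 p1) (my 1 p1) (mya 2 p2) (my 2 p2)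
    (myy 1 2 p1 p2) (a1 1 p1) (slin_va (1, p1)) (a1 2 p2) (slin_va (2, p2)) (a2 0 2 p1 p2)
    (slin_new (2, p2) 0 p1) (slin_va (3, p3)) (slin_new (3, p3) 0 p1) (slin_new (3, p3) 1 p2)
    (a2 0 3 p1 p3) (a2 1 3 p2 p3) (a3 0 1 3 p1 p2 p3)

end eval

end Pool.Agent.Lib.MP_5f6665_al
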