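import Pool.Agent.Lib.MP_5f6665_al.Basic

namespace Pool.Agent.Lib.MP_5f6665_al

variable {S : Type*} [NonUnitalNonAssocRing S] {P : Bool → AddSubgroup S} [AltSuper P]
set_option maxHeartbeats 4000000
set_option linter.unusedSimpArgs false

/-- the odd element `x` -/
def HX (x : S) (hx : x ∈ P true) : HE P := ⟨x, true, hx⟩
/-- the even element `t = x²` -/
def HT (x : S) (hx : x ∈ P true) : HE P := ⟨x * x, false, AltSuper.mul_mem hx hx⟩

variable (x : S) (hx : x ∈ P true)

/-- `y ↦ [y,x]` -/
def Dd (y : HE P) : HE P := br y (HX x hx)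
/-- `y ↦ [y,x²]` -/
def Tt (y : HE P) : HE P := br y (HT x hx)

variable (y z w : HE P)

theorem E3lem : (3:ℤ) • associator y.val x x = (Dd x hx (Dd x hx y)).val - (Tt x hx y).val := by
  apply tcancel P 2 (by norm_num)
  linear_combination (norm := skip) - OO y (HX x hx) (HX x hx)
  simp only [jo, br, asr, mu, HX, HT, Dd, Tt, mul_add, add_mul, mul_sub, sub_mul, mul_neg, neg_mul, smul_mul_assoc, mul_smul_comm, smul_neg, neg_neg, smul_add, smul_sub, as1, as2, as3, as4, as5, as6, as7, as8, as9, as10, as11, as12]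
  generalize y.par = p
  cases p <;> simp only [Bool.xor_true, Bool.xor_false, Bool.and_true, Bool.and_false, Bool.not_true, Bool.not_false, sg_true, sg_false] <;> simp only [mul_neg, mul_one, neg_mul, one_mul, smul_neg, neg_smul, one_smul, neg_neg] <;> abel

theorem O2lem : (3:ℤ) • (Dd x hx (asr y z (HX x hx))).val = -((6:ℤ) • associator y.val (Dd x hx z).val x)
    - (3:ℤ) • sg z.par • associator (Dd x hx y).val z.val x
    - (br y (Dd x hx (Dd x hx z))).val + (br y (Tt x hx z)).val := by
  have m1 := congrArg (fun t => y.val * t) (E3lem x hx z)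
  have m2 := congrArg (fun t => t * y.val) (E3lem x hx z)
  have e1 := perm213 z (HX x hx) (HX x hx)
  have e2 := perm132 y (HX x hx) (mu z (HX x hx))
  have e3 := perm132 y (HX x hx) (mu (HX x hx) z)
  simp only [mu, HX, HT] at e1 e2 e3
  linear_combination (norm := skip) (3:ℤ) • STAR y z (HX x hx) (HX x hx) - m1 + sg (y.par && z.par) • m2
  simp only [jo, br, asr, mu, HX, HT, Dd, Tt, mul_add, add_mul, mul_sub, sub_mul, mul_neg, neg_mul, smul_mul_assoc, mul_smul_comm, smul_neg, neg_neg, smul_add, smul_sub, as1, as2, as3, as4, as5, as6, as7, as8, as9, as10, as11, as12, e1, e2, e3]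
  generalize y.par = p
  generalize z.par = q
  cases p <;> cases q <;> simp only [Bool.xor_true, Bool.xor_false, Bool.and_true, Bool.and_false, Bool.not_true, Bool.not_false, sg_true, sg_false] <;> simp only [mul_neg, mul_one, neg_mul, one_mul, smul_neg, neg_smul, one_smul, neg_neg] <;> abel

theorem R3lem : (3:ℤ) • associator y.val z.val (x * x) = (3:ℤ) • associator y.val (Dd x hx z).val x
    + (br y (Dd x hx (Dd x hx z))).val - (br y (Tt x hx z)).val := by
  apply tcancel P 2 (by norm_num)
  have f1 := E3lem x hx (br y z)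
  have f2a := congrArg (fun t => t * z.val) (E3lem x hx y)
  have f2b := congrArg (fun t => z.val * t) (E3lem x hx y)
  have f3a := congrArg (fun t => y.val * t) (E3lem x hx z)
  have f3b := congrArg (fun t => t * y.val) (E3lem x hx z)
  have f4a := congrArg (fun t => t * x) (OO y z (HX x hx))
  have f4b := congrArg (fun t => x * t) (OO y z (HX x hx))
  linear_combination (norm := skip) -(3:ℤ) • STAR y (HX x hx) (HX x hx) z
    + f2a - sg (y.par && z.par) • f2b - f1 + f3a - sg (y.par && z.par) • f3b
    - f4a + sg (xor y.par (xor z.par true)) • f4b - (2:ℤ) • O2lem x hx y z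
    - OO y (Dd x hx z) (HX x hx) - sg z.par • OO (Dd x hx y) z (HX x hx)
    + OO y z (HT x hx)
  simp only [jo, br, asr, mu, HX, HT, Dd, Tt, mul_add, add_mul, mul_sub, sub_mul, mul_neg, neg_mul, smul_mul_assoc, mul_smul_comm, smul_neg, neg_neg, smul_add, smul_sub, as1, as2, as3, as4, as5, as6, as7, as8, as9, as10, as11, as12]
  generalize y.par = p
  generalize z.par = q
  cases p <;> cases q <;> simp only [Bool.xor_true, Bool.xor_false, Bool.and_true, Bool.and_false, Bool.not_true, Bool.not_false, sg_true, sg_false] <;> simp only [mul_neg, mul_one, neg_mul, one_mul, smul_neg, neg_smul, one_smul, neg_neg] <;> abel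

/-- `3 (y,x,x²) = D τ - τ D` -/
theorem W3lem : (3:ℤ) • associator y.val x (x * x) =
    (Tt x hx (Dd x hx y)).val - (Dd x hx (Tt x hx y)).val := by
  apply tcancel P 3 (by norm_num)
  have e1 := perm132 y (HX x hx) (HT x hx)
  linear_combination (norm := skip) -(3:ℤ) • OO y (HX x hx) (HT x hx) - 
     R3lem x hx y (HX x hx)  - (6:ℤ) • e1
  simp only [jo, br, asr, mu, HX, HT, Dd, Tt, mul_add, add_mul, mul_sub, sub_mul, mul_neg, neg_mul, smul_mul_assoc, mul_smul_comm, smul_neg, neg_neg, smul_add, smul_sub, as1, as2, as3, as4, as5, as6, as7, as8, as9, as10, as11, as12]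
  generalize y.par = p
  cases p <;> simp only [Bool.xor_true, Bool.xor_false, Bool.and_true, Bool.and_false, Bool.not_true, Bool.not_false, sg_true, sg_false] <;> simp only [mul_neg, mul_one, neg_mul, one_mul, smul_neg, neg_smul, one_smul, neg_neg] <;> abel

/-- `3 (y,z,x²)` in terms of `x` -/
def R3 (y z : HE P) : S := (3:ℤ) • associator y.val (Dd x hx z).val x
    + (br y (Dd x hx (Dd x hx z))).val - (br y (Tt x hx z)).val

theorem R3eq : R3 x hx y z = (3:ℤ) • associator y.val z.val (x * x) := (R3lem x hx y z).symm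

theorem G2 : R3 x hx y z - (3:ℤ) • sg z.par • associator (Dd x hx y).val z.val x
    - (br (Dd x hx (Dd x hx y)) z).val + (br (Tt x hx y) z).val = 0 := by
  have e := perm213 y z (HT x hx)
  have e1 := perm213 (Dd x hx y) z (HX x hx)
  have r1 := R3eq x hx y z
  have r2 := R3eq x hx z y
  simp only [HX, HT] at e e1
  rw [e] at r2
  simp only [R3] at r1 r2 ⊢
  rw [e1] at r2
  linear_combination (norm := skip) r1 + sg (y.par && z.par) • r2
  simp only [jo, br, asr, mu, HX, HT, Dd, Tt, mul_add, add_mul, mul_sub, sub_mul, mul_neg, neg_mul, smul_mul_assoc, mul_smul_comm, smul_neg, neg_neg, smul_add, smul_sub, as1, as2, as3, as4, as5, as6, as7, as8, as9, as10, as11, as12]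
  generalize associator y.val z.val (x * x) = t1
  generalize y.par = p
  generalize z.par = q
  cases p <;> cases q <;> simp only [Bool.xor_true, Bool.xor_false, Bool.and_true, Bool.and_false, Bool.not_true, Bool.not_false, sg_true, sg_false] <;> simp only [mul_neg, mul_one, neg_mul, one_mul, smul_neg, neg_smul, one_smul, neg_neg] <;> abel

theorem G3 : sg z.par • R3 x hx (Dd x hx y) z + (3:ℤ) • associator (Tt x hx y).val z.val x
    - R3 x hx y (Dd x hx z) - (3:ℤ) • associator y.val (Tt x hx z).val x = 0 := by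
  rw [R3eq, R3eq]
  linear_combination (norm := skip) (3:ℤ) • H1 y z (HX x hx) (HT x hx)
  simp only [jo, br, asr, mu, HX, HT, Dd, Tt, mul_add, add_mul, mul_sub, sub_mul, mul_neg, neg_mul, smul_mul_assoc, mul_smul_comm, smul_neg, neg_neg, smul_add, smul_sub, as1, as2, as3, as4, as5, as6, as7, as8, as9, as10, as11, as12]
  generalize y.par = p
  generalize z.par = q
  cases p <;> cases q <;> simp only [Bool.xor_true, Bool.xor_false, Bool.and_true, Bool.and_false, Bool.not_true, Bool.not_false, sg_true, sg_false] <;> simp only [mul_neg, mul_one, neg_mul, one_mul, smul_neg, neg_smul, one_smul, neg_neg] <;> abel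

theorem G4 : R3 x hx (Tt x hx y) z - R3 x hx y (Tt x hx z) = 0 := by
  apply tcancel P 2 (by norm_num)
  rw [R3eq, R3eq]
  linear_combination (norm := skip) (3:ℤ) • H1 y z (HT x hx) (HT x hx)
  simp only [jo, br, asr, mu, HX, HT, Dd, Tt, mul_add, add_mul, mul_sub, sub_mul, mul_neg, neg_mul, smul_mul_assoc, mul_smul_comm, smul_neg, neg_neg, smul_add, smul_sub, as1, as2, as3, as4, as5, as6, as7, as8, as9, as10, as11, as12]
  generalize y.par = p
  generalize z.par = q
  cases p <;> cases q <;> simp only [Bool.xor_true, Bool.xor_false, Bool.and_true, Bool.and_false, Bool.not_true, Bool.not_false, sg_true, sg_false] <;> simp only [mul_neg, mul_one, neg_mul, one_mul, smul_neg, neg_smul, one_smul, neg_neg] <;> abel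

/-- raw Jordan product with an element of parity `p` -/
def joR (h : HE P) (p : Bool) (v : S) : S := h.val * v + sg (h.par && p) • (v * h.val)

theorem MM : ((3:ℤ) * sg (xor z.par w.par)) • (jo (Dd x hx y) (asr z w (HX x hx))).val
    + (jo (Dd x hx (Dd x hx y)) (br z w)).val - (jo (Tt x hx y) (br z w)).val
    + sg (y.par && z.par) • (((3:ℤ) * sg (xor y.par w.par)) • (jo (Dd x hx z) (asr y w (HX x hx))).val
    + (jo (Dd x hx (Dd x hx z)) (br y w)).val - (jo (Tt x hx z) (br y w)).val) = 0 := by
  have e1 := perm132 z w (HX x hx)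
  have e2 := perm132 y w (HX x hx)
  have f1a := congrArg (fun t => t * (br z w).val) (E3lem x hx y)
  have f1b := congrArg (fun t => (br z w).val * t) (E3lem x hx y)
  have f2a := congrArg (fun t => t * (br y w).val) (E3lem x hx z)
  have f2b := congrArg (fun t => (br y w).val * t) (E3lem x hx z)
  simp only [HX] at e1 e2
  linear_combination (norm := skip) (3:ℤ) • CROSS y z (HX x hx) (HX x hx) w
    - f1a - sg (y.par && xor z.par w.par) • f1b
    - sg (y.par && z.par) • f2a - sg (y.par && z.par) • sg (z.par && xor y.par w.par) • f2b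
  simp only [jo, br, asr, mu, HX, HT, Dd, Tt, mul_add, add_mul, mul_sub, sub_mul, mul_neg, neg_mul, smul_mul_assoc, mul_smul_comm, smul_neg, neg_neg, smul_add, smul_sub, as1, as2, as3, as4, as5, as6, as7, as8, as9, as10, as11, as12, e1, e2]
  generalize y.par = p
  generalize z.par = q
  generalize w.par = r
  cases p <;> cases q <;> cases r <;> simp only [Bool.xor_true, Bool.xor_false, Bool.and_true, Bool.and_false, Bool.not_true, Bool.not_false, sg_true, sg_false] <;> simp only [mul_neg, mul_one, neg_mul, one_mul, smul_neg, neg_smul, one_smul, neg_neg] <;> abel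

/-- `h ∘ R(z,w)` -/
def joRR (h z w : HE P) : S := (3:ℤ) • (jo h (asr z (Dd x hx w) (HX x hx))).val
    + (jo h (br z (Dd x hx (Dd x hx w)))).val - (jo h (br z (Tt x hx w))).val

theorem joRR_eq (h z w : HE P) : joRR x hx h z w = (3:ℤ) • joR h (xor z.par w.par) (associator z.val w.val (x * x)) := by
  have m := congrArg (fun t => joR h (xor z.par w.par) t) (R3lem x hx z w)
  simp only [joR] at m ⊢
  linear_combination (norm := skip) - m
  simp only [joRR]
  simp only [jo, br, asr, mu, HX, HT, Dd, Tt, mul_add, add_mul, mul_sub, sub_mul, mul_neg, neg_mul, smul_mul_assoc, mul_smul_comm, smul_neg, neg_neg, smul_add, smul_sub, as1, as2, as3, as4, as5, as6, as7, as8, as9, as10, as11, as12]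
  generalize h.par = p
  generalize z.par = q
  generalize w.par = r
  cases p <;> cases q <;> cases r <;> simp only [Bool.xor_true, Bool.xor_false, Bool.and_true, Bool.and_false, Bool.not_true, Bool.not_false, sg_true, sg_false] <;> simp only [mul_neg, mul_one, neg_mul, one_mul, smul_neg, neg_smul, one_smul, neg_neg] <;> abel

theorem XA : sg (xor z.par w.par) • joRR x hx (Dd x hx y) z w
    + sg (xor (y.par && z.par) (xor y.par w.par)) • joRR x hx (Dd x hx z) y w
    + (3:ℤ) • (jo (Tt x hx y) (asr z w (HX x hx))).val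
    + ((3:ℤ) * sg (y.par && z.par)) • (jo (Tt x hx z) (asr y w (HX x hx))).val = 0 := by
  rw [joRR_eq, joRR_eq]
  simp only [joR]
  linear_combination (norm := skip) (3:ℤ) • CROSS y z w (HX x hx) (HT x hx)
  simp only [jo, br, asr, mu, HX, HT, Dd, Tt, mul_add, add_mul, mul_sub, sub_mul, mul_neg, neg_mul, smul_mul_assoc, mul_smul_comm, smul_neg, neg_neg, smul_add, smul_sub, as1, as2, as3, as4, as5, as6, as7, as8, as9, as10, as11, as12]
  generalize y.par = p
  generalize z.par = q
  generalize w.par = r
  cases p <;> cases q <;> cases r <;> simp only [Bool.xor_true, Bool.xor_false, Bool.and_true, Bool.and_false, Bool.not_true, Bool.not_false, sg_true, sg_false] <;> simp only [mul_neg, mul_one, neg_mul, one_mul, smul_neg, neg_smul, one_smul, neg_neg] <;> abel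

theorem TT : joRR x hx (Tt x hx y) z w + sg (y.par && z.par) • joRR x hx (Tt x hx z) y w = 0 := by
  apply tcancel P 2 (by norm_num)
  rw [joRR_eq, joRR_eq]
  simp only [joR]
  linear_combination (norm := skip) (3:ℤ) • CROSS y z w (HT x hx) (HT x hx)
  simp only [jo, br, asr, mu, HX, HT, Dd, Tt, mul_add, add_mul, mul_sub, sub_mul, mul_neg, neg_mul, smul_mul_assoc, mul_smul_comm, smul_neg, neg_neg, smul_add, smul_sub, as1, as2, as3, as4, as5, as6, as7, as8, as9, as10, as11, as12]
  generalize y.par = p
  generalize z.par = q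
  generalize w.par = r
  cases p <;> cases q <;> cases r <;> simp only [Bool.xor_true, Bool.xor_false, Bool.and_true, Bool.and_false, Bool.not_true, Bool.not_false, sg_true, sg_false] <;> simp only [mul_neg, mul_one, neg_mul, one_mul, smul_neg, neg_smul, one_smul, neg_neg] <;> abel

theorem XB : (3:ℤ) • (jo (Tt x hx y) (asr z w (HX x hx))).val
    + ((3:ℤ) * sg (y.par && z.par)) • (jo (Tt x hx z) (asr y w (HX x hx))).val
    - sg (xor (w.par && z.par) ((!z.par) && xor y.par w.par)) • ((jo (Tt x hx (Dd x hx z)) (br y w)).val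
        - (jo (Dd x hx (Tt x hx z)) (br y w)).val)
    - sg (xor (y.par && z.par) (xor (w.par && y.par) ((!y.par) && xor z.par w.par))) • ((jo (Tt x hx (Dd x hx y)) (br z w)).val
        - (jo (Dd x hx (Tt x hx y)) (br z w)).val) = 0 := by
  have e1 := perm132 z w (HX x hx)
  have e2 := perm132 y w (HX x hx)
  have f1a := congrArg (fun t => t * (br z w).val) (W3lem x hx y)
  have f1b := congrArg (fun t => (br z w).val * t) (W3lem x hx y)
  have f2a := congrArg (fun t => t * (br y w).val) (W3lem x hx z)
  have f2b := congrArg (fun t => (br y w).val * t) (W3lem x hx z)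
  simp only [HX] at e1 e2
  linear_combination (norm := skip) -(3:ℤ) • sg w.par • CROSS y z (HX x hx) (HT x hx) w
    + sg (xor (y.par && z.par) (xor (w.par && y.par) ((!y.par) && xor z.par w.par))) • (f1a + sg ((!y.par) && xor z.par w.par) • f1b)
    + sg (xor (w.par && z.par) ((!z.par) && xor y.par w.par)) • (f2a + sg ((!z.par) && xor y.par w.par) • f2b)
  simp only [jo, br, asr, mu, HX, HT, Dd, Tt, mul_add, add_mul, mul_sub, sub_mul, mul_neg, neg_mul, smul_mul_assoc, mul_smul_comm, smul_neg, neg_neg, smul_add, smul_sub, as1, as2, as3, as4, as5, as6, as7, as8, as9, as10, as11, as12, e1, e2]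
  generalize y.par = p
  generalize z.par = q
  generalize w.par = r
  cases p <;> cases q <;> cases r <;> simp only [Bool.xor_true, Bool.xor_false, Bool.and_true, Bool.and_false, Bool.not_true, Bool.not_false, sg_true, sg_false] <;> simp only [mul_neg, mul_one, neg_mul, one_mul, smul_neg, neg_smul, one_smul, neg_neg] <;> abel

/-- `p = [x², x] = (x,x,x)` -/
def Pp : HE P := Dd x hx (HT x hx)

theorem PIlem : (br y (Pp x hx)).val = (Tt x hx (Dd x hx y)).val - (Dd x hx (Tt x hx y)).val := by
  apply tcancel P 3 (by norm_num)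
  have e1 := perm132 y (HX x hx) (HT x hx)
  linear_combination (norm := skip) -(1:ℤ) • R3lem x hx y (HX x hx) + (3:ℤ) • W3lem x hx y - (6:ℤ) • e1
  simp only [Pp]
  simp only [jo, br, asr, mu, HX, HT, Dd, Tt, mul_add, add_mul, mul_sub, sub_mul, mul_neg, neg_mul, smul_mul_assoc, mul_smul_comm, smul_neg, neg_neg, smul_add, smul_sub, as1, as2, as3, as4, as5, as6, as7, as8, as9, as10, as11, as12]
  generalize y.par = p
  cases p <;> simp only [Bool.xor_true, Bool.xor_false, Bool.and_true, Bool.and_false, Bool.not_true, Bool.not_false, sg_true, sg_false] <;> simp only [mul_neg, mul_one, neg_mul, one_mul, smul_neg, neg_smul, one_smul, neg_neg] <;> abel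

theorem U4lem : (Tt x hx (Tt x hx y)).val = (Dd x hx (Tt x hx (Dd x hx y))).val := by
  apply tcancel P 2 (by norm_num)
  have ea := altR y (HT x hx) (HT x hx)
  have pia := congrArg (fun t => t * x) (PIlem x hx y)
  have pib := congrArg (fun t => x * t) (PIlem x hx y)
  have e3a := congrArg (fun t => t * (x * x)) (E3lem x hx y)
  have e3b := congrArg (fun t => (x * x) * t) (E3lem x hx y)
  have e4a := congrArg (fun t => y.val * t) (E3lem x hx (HT x hx))
  have e4b := congrArg (fun t => t * y.val) (E3lem x hx (HT x hx))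
  linear_combination (norm := skip)
    -(2:ℤ) • ((3:ℤ) • H1 y (HX x hx) (HX x hx) (HT x hx) + W3lem x hx (Dd x hx y) - E3lem x hx (Tt x hx y)
      + (3:ℤ) • ea)
    - (OO y (Pp x hx) (HX x hx) - pia + sg (!y.par) • pib - PIlem x hx (Dd x hx y))
    - ((3:ℤ) • STAR y (HX x hx) (HX x hx) (HT x hx) - (e3a - e3b) + E3lem x hx (Tt x hx y)
       - (e4a - e4b) + (6:ℤ) • ea)
  simp only [Pp]
  simp only [jo, br, asr, mu, HX, HT, Dd, Tt, mul_add, add_mul, mul_sub, sub_mul, mul_neg, neg_mul, smul_mul_assoc, mul_smul_comm, smul_neg, neg_neg, smul_add, smul_sub, as1, as2, as3, as4, as5, as6, as7, as8, as9, as10, as11, as12]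
  generalize y.par = p
  cases p <;> simp only [Bool.xor_true, Bool.xor_false, Bool.and_true, Bool.and_false, Bool.not_true, Bool.not_false, sg_true, sg_false] <;> simp only [mul_neg, mul_one, neg_mul, one_mul, smul_neg, neg_smul, one_smul, neg_neg] <;> abel

theorem PTlem : (br (Pp x hx) (HT x hx)).val = 0 := by
  have h := U4lem x hx (HX x hx)
  linear_combination (norm := skip) -(1:ℤ) • h
  simp only [Pp]
  simp only [jo, br, asr, mu, HX, HT, Dd, Tt, mul_add, add_mul, mul_sub, sub_mul, mul_neg, neg_mul, smul_mul_assoc, mul_smul_comm, smul_neg, neg_neg, smul_add, smul_sub, as1, as2, as3, as4, as5, as6, as7, as8, as9, as10, as11, as12]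
   <;> simp only [Bool.xor_true, Bool.xor_false, Bool.and_true, Bool.and_false, Bool.not_true, Bool.not_false, sg_true, sg_false] <;> simp only [mul_neg, mul_one, neg_mul, one_mul, smul_neg, neg_smul, one_smul, neg_neg] <;> abel

theorem U5lem : (Dd x hx (Tt x hx (Dd x hx (Dd x hx y)))).val = (Dd x hx (Dd x hx (Tt x hx (Dd x hx y)))).val := by
  have pia := congrArg (fun t => t * (x * x)) (PIlem x hx y)
  have pib := congrArg (fun t => (x * x) * t) (PIlem x hx y)
  have pta : y.val * (br (Pp x hx) (HT x hx)).val = 0 := by rw [PTlem, mul_zero]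
  have ptb : (br (Pp x hx) (HT x hx)).val * y.val = 0 := by rw [PTlem, zero_mul]
  have g : (Tt x hx (Tt x hx (Dd x hx y))).val = (Dd x hx (Tt x hx (Tt x hx y))).val := by
    linear_combination (norm := skip) -(pia - pib) + OO y (Pp x hx) (HT x hx) + PIlem x hx (Tt x hx y)
      + (pta - sg y.par • ptb) + (3:ℤ) • H1 y (HX x hx) (HT x hx) (HT x hx) - (2:ℤ) • W3lem x hx (Tt x hx y)
    simp only [Pp]
    simp only [jo, br, asr, mu, HX, HT, Dd, Tt, mul_add, add_mul, mul_sub, sub_mul, mul_neg, neg_mul, smul_mul_assoc, mul_smul_comm, smul_neg, neg_neg, smul_add, smul_sub, as1, as2, as3, as4, as5, as6, as7, as8, as9, as10, as11, as12]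
    generalize y.par = p
    cases p <;> simp only [Bool.xor_true, Bool.xor_false, Bool.and_true, Bool.and_false, Bool.not_true, Bool.not_false, sg_true, sg_false] <;> simp only [mul_neg, mul_one, neg_mul, one_mul, smul_neg, neg_smul, one_smul, neg_neg] <;> abel

  have h1 : Tt x hx (Tt x hx y) = Dd x hx (Tt x hx (Dd x hx y)) := HE.ext' (U4lem x hx y) (by
    simp [Tt, Dd, br, HX, HT])
  rw [← U4lem x hx (Dd x hx y), g, h1]

theorem U4eq : Tt x hx (Tt x hx y) = Dd x hx (Tt x hx (Dd x hx y)) := HE.ext' (U4lem x hx y) (by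
    simp [Tt, Dd, br, HX, HT])

theorem U5eq : Dd x hx (Tt x hx (Dd x hx (Dd x hx y))) = Dd x hx (Dd x hx (Tt x hx (Dd x hx y))) :=
  HE.ext' (U5lem x hx y) (by simp [Tt, Dd, br, HX, HT])

end Pool.Agent.Lib.MP_5f6665_al
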