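import Pool.Agent.Lib.MP_5f6665_al.Free

/-! The values of the full superlinearization of `u_4` in `a`. -/

namespace Pool.Agent.Lib.MP_5f6665_al

variable {S : Type*} [NonUnitalNonAssocRing S] {P : Bool → AddSubgroup S} [AltSuper P]
variable (x : S) (hx : x ∈ P true)
set_option linter.unusedSimpArgs false

theorem DDDjo (y z : HE P) : (Dn x hx 3 (jo y z)).val =
    (jo (Dd x hx (Dd x hx y)) (Dd x hx z)).val + sg z.par • (jo (Dd x hx (Dd x hx (Dd x hx y))) z).val
    + (jo y (Dd x hx (Dd x hx (Dd x hx z)))).val + sg z.par • (jo (Dd x hx y) (Dd x hx (Dd x hx z))).val := by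
  have e1 := Djo x hx (Dd x hx (Dd x hx y)) z
  have e2 := Djo x hx y (Dd x hx (Dd x hx z))
  have e3 := DDjo x hx y z
  have e4 : (Dn x hx 3 (jo y z)).val = (Dd x hx (Dd x hx (jo y z))).val * x
      - sg (xor y.par z.par) • (x * (Dd x hx (Dd x hx (jo y z))).val) := by
    have : Dn x hx 3 (jo y z) = Dd x hx (Dd x hx (Dd x hx (jo y z))) := rfl
    rw [this]
    simp [Dd, br, HX, jo]
  have e5 : (Dd x hx (jo (Dd x hx (Dd x hx y)) z)).val = (jo (Dd x hx (Dd x hx y)) z).val * x
      - sg (xor y.par z.par) • (x * (jo (Dd x hx (Dd x hx y)) z).val) := by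
    have hp : (jo (Dd x hx (Dd x hx y)) z).par = xor y.par z.par := by
      simp [jo, par_Dd]
    rw [← hp]
    generalize jo (Dd x hx (Dd x hx y)) z = h
    simp [Dd, br, HX]
  have e6 : (Dd x hx (jo y (Dd x hx (Dd x hx z)))).val = (jo y (Dd x hx (Dd x hx z))).val * x
      - sg (xor y.par z.par) • (x * (jo y (Dd x hx (Dd x hx z))).val) := by
    have hp : (jo y (Dd x hx (Dd x hx z))).par = xor y.par z.par := by
      simp [jo, par_Dd]
    rw [← hp]
    generalize jo y (Dd x hx (Dd x hx z)) = h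
    simp [Dd, br, HX]
  have hp2 : (Dd x hx (Dd x hx z)).par = z.par := by simp [par_Dd]
  rw [hp2] at e2
  rw [e4, e3, add_mul, mul_add, smul_add]
  rw [e5] at e1
  rw [e6] at e2
  have e7 : (jo (Dd x hx (Dd x hx y)) z).val * x + (jo y (Dd x hx (Dd x hx z))).val * x -
      (sg (xor y.par z.par) • (x * (jo (Dd x hx (Dd x hx y)) z).val) +
        sg (xor y.par z.par) • (x * (jo y (Dd x hx (Dd x hx z))).val))
      = ((jo (Dd x hx (Dd x hx y)) z).val * x -
        sg (xor y.par z.par) • (x * (jo (Dd x hx (Dd x hx y)) z).val))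
      + ((jo y (Dd x hx (Dd x hx z))).val * x -
        sg (xor y.par z.par) • (x * (jo y (Dd x hx (Dd x hx z))).val)) := by abel
  rw [e7, e1, e2]
  abel

theorem adr_zsmul (p : Bool) (b : S) (m : ℤ) (n : ℕ) : adr x p (m • b) n = m • adr x p b n := by
  induction n with
  | zero => rfl
  | succ n ih => simp only [adr, ih, smul_mul_assoc, mul_smul_comm, smul_sub]; rw [smul_comm m]

theorem T3_jo (y z w : HE P) :
    T3 x (xor y.par z.par) (sg (z.par && y.par) • (y.val * z.val) + z.val * y.val) w.val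
    = sg (y.par && z.par) • associator (Dn x hx 3 (jo y z)).val w.val x := by
  have e : sg (z.par && y.par) • (y.val * z.val) + z.val * y.val = sg (y.par && z.par) • (jo y z).val := by
    simp only [jo, smul_add]
    cases y.par <;> cases z.par <;> simp
  rw [T3, e, adr_zsmul, as7, Dn_val]
  rfl

theorem T3_jo' (y z w : HE P) :
    T3 x y.par y.val (sg (w.par && z.par) • (z.val * w.val) + w.val * z.val)
    = -(sg (z.par && w.par) • sg ((xor z.par w.par) && !y.par)
        • associator (jo z w).val (Dn x hx 3 y).val x) := by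
  have e : sg (w.par && z.par) • (z.val * w.val) + w.val * z.val = sg (z.par && w.par) • (jo z w).val := by
    simp only [jo, smul_add]
    cases z.par <;> cases w.par <;> simp
  have h := perm213 (jo z w) (Dn x hx 3 y) (HX x hx)
  have hp : (Dn x hx 3 y).par = !y.par := by
    rw [par_Dn]; cases y.par <;> rfl
  rw [T3, e, as8, ← Dn_val x hx 3 y]
  have hX : (HX x hx).val = x := rfl
  rw [hX] at h
  rw [h, hp]
  simp only [jo, smul_neg]


include hx in
theorem ori (z w : HE P) : associator w.val z.val x = -(sg (z.par && w.par) • associator z.val w.val x) :=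
  perm213 z w (HX x hx)

set_option maxHeartbeats 4000000 in
theorem EE_eq (y z w : HE P) :
    EE x y.par z.par w.par y.val z.val w.val
    = sg (xor (y.par && z.par) (xor (y.par && w.par) (z.par && w.par))) • Uval x hx y z w := by
  rw [EE, T3_jo x hx y z w, T3_jo x hx y w z, T3_jo x hx z w y, T3_jo' x hx y z w,
    T3_jo' x hx z y w, T3_jo' x hx w y z]
  have hX : (HX x hx).val = x := rfl
  have j1 := fun u v t : HE P => J4 u v t (HX x hx)
  simp only [hX] at j1
  simp only [DDDjo, as1, as7, j1, Uval, UT]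
  simp only [jo, asr, hX, par_Dd, par_Dn,
    show ∀ u : HE P, Dn x hx 3 u = Dd x hx (Dd x hx (Dd x hx u)) from fun _ => rfl,
    show (HX x hx).par = true from rfl]
  simp only [ori x hx y z, ori x hx y w, ori x hx z w,
    ori x hx (Dd x hx y) z, ori x hx (Dd x hx y) w, ori x hx (Dd x hx z) y, ori x hx (Dd x hx z) w,
    ori x hx (Dd x hx w) y, ori x hx (Dd x hx w) z,
    ori x hx (Dd x hx (Dd x hx y)) z, ori x hx (Dd x hx (Dd x hx y)) w,
    ori x hx (Dd x hx (Dd x hx z)) y, ori x hx (Dd x hx (Dd x hx z)) w,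
    ori x hx (Dd x hx (Dd x hx w)) y, ori x hx (Dd x hx (Dd x hx w)) z,
    ori x hx (Dd x hx (Dd x hx (Dd x hx y))) z, ori x hx (Dd x hx (Dd x hx (Dd x hx y))) w,
    ori x hx (Dd x hx (Dd x hx (Dd x hx z))) y, ori x hx (Dd x hx (Dd x hx (Dd x hx z))) w,
    ori x hx (Dd x hx (Dd x hx (Dd x hx w))) y, ori x hx (Dd x hx (Dd x hx (Dd x hx w))) z,
    par_Dd]
  generalize y.par = p
  generalize z.par = q
  generalize w.par = r
  cases p <;> cases q <;> cases r <;>
  simp only [Bool.xor_true, Bool.xor_false, Bool.and_true, Bool.and_false, Bool.not_true,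
    Bool.not_false, sg_true, sg_false, mul_neg, neg_mul, smul_neg, neg_smul, one_smul, neg_neg,
    mul_add, add_mul, smul_add, neg_add_rev] <;> abel

end Pool.Agent.Lib.MP_5f6665_al
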