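import Pool.Agent.Lib.MP_5f6665_al.Check

/-! The elements `u_n` and their expansion. -/

namespace Pool.Agent.Lib.MP_5f6665_al

open Finset

variable {S : Type*} [NonUnitalNonAssocRing S] {P : Bool → AddSubgroup S} [AltSuper P]
set_option linter.unusedSimpArgs false

/-- raw iterates of `[·,x]` on an element of parity `p` -/
def adr (x : S) (p : Bool) (b : S) : ℕ → S
  | 0 => b
  | n + 1 => adr x p b n * x - sg (xor (odd? n) p) • (x * adr x p b n)

theorem adr_add (x : S) (p : Bool) (b c : S) (n : ℕ) :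
    adr x p (b + c) n = adr x p b n + adr x p c n := by
  induction n with
  | zero => rfl
  | succ n ih => simp only [adr, ih, add_mul, mul_add, smul_add]; abel

theorem adr_zero (x : S) (p : Bool) (n : ℕ) : adr x p 0 n = 0 := by
  induction n with
  | zero => rfl
  | succ n ih => simp [adr, ih]

theorem adr_neg (x : S) (p : Bool) (b : S) (n : ℕ) : adr x p (-b) n = - adr x p b n := by
  induction n with
  | zero => rfl
  | succ n ih => simp only [adr, ih, neg_mul, mul_neg, smul_neg]; abel

theorem adr_sum (x : S) (p : Bool) {ι : Type*} (s : Finset ι) (f : ι → S) (n : ℕ) :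
    adr x p (∑ i ∈ s, f i) n = ∑ i ∈ s, adr x p (f i) n := by
  classical
  induction s using Finset.induction_on with
  | empty => simp [adr_zero]
  | insert i s hi ih => rw [sum_insert hi, sum_insert hi, adr_add, ih]

theorem adr_nsmul (x : S) (p : Bool) (b : S) (m n : ℕ) : adr x p (m • b) n = m • adr x p b n := by
  induction m with
  | zero => simp [adr_zero]
  | succ m ih => rw [succ_nsmul, adr_add, ih, succ_nsmul]

/-- `D` twice first -/
theorem adr_two (x : S) (p : Bool) (b : S) (n : ℕ) :
    adr x p b (n + 2) = adr x p (adr x p b 2) n := by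
  induction n with
  | zero => rfl
  | succ n ih =>
    have h1 : adr x p b (n + 1 + 2) = adr x p b (n + 2) * x
      - sg (xor (odd? (n + 2)) p) • (x * adr x p b (n + 2)) := rfl
    have h2 : adr x p (adr x p b 2) (n + 1) = adr x p (adr x p b 2) n * x
      - sg (xor (odd? n) p) • (x * adr x p (adr x p b 2) n) := rfl
    rw [h1, h2, ih, odd?_succ, odd?_succ, Bool.not_not]

variable (x : S) (hx : x ∈ P true)

theorem Dn_val (n : ℕ) (y : HE P) : (Dn x hx n y).val = adr x y.par y.val n := by
  induction n with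
  | zero => rfl
  | succ n ih =>
    rw [Dn_succ]
    simp only [Dd, br, HX, par_Dn, adr, ih]
    simp

theorem DDjo (y z : HE P) : (Dd x hx (Dd x hx (jo y z))).val =
    (jo (Dd x hx (Dd x hx y)) z).val + (jo y (Dd x hx (Dd x hx z))).val := by
  have a1 := congrArg (fun t => t * x) (J3 y z (HX x hx))
  have a2 := congrArg (fun t => x * t) (J3 y z (HX x hx))
  linear_combination (norm := skip) a1 - sg (!(xor y.par z.par)) • a2 + J3 y (Dd x hx z) (HX x hx)
    + sg z.par • J3 (Dd x hx y) z (HX x hx)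
  simp only [jo, br, asr, mu, HX, HT, Dd, Tt, mul_add, add_mul, mul_sub, sub_mul, mul_neg, neg_mul, smul_mul_assoc, mul_smul_comm, smul_neg, neg_neg, smul_add, smul_sub]
  generalize y.par = p
  generalize z.par = q
  cases p <;> cases q <;> simp only [Bool.xor_true, Bool.xor_false, Bool.and_true, Bool.and_false, Bool.not_true, Bool.not_false, sg_true, sg_false] <;> simp only [mul_neg, mul_one, neg_mul, one_mul, smul_neg, neg_smul, one_smul, neg_neg] <;> abel

theorem Djo (y z : HE P) : (Dd x hx (jo y z)).val =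
    (jo y (Dd x hx z)).val + sg z.par • (jo (Dd x hx y) z).val := by
  have h := J3 y z (HX x hx)
  simpa [Dd, HX] using h

theorem Dn_DD (n : ℕ) (y : HE P) : Dn x hx (2 * n) (Dd x hx (Dd x hx y)) = Dn x hx (2 * (n + 1)) y := by
  have : Dd x hx (Dd x hx y) = Dn x hx 2 y := rfl
  rw [this, Dn_add]; rfl

theorem leibniz (q : ℕ) (y z : HE P) : adr x (xor y.par z.par) (jo y z).val (2 * q) =
    ∑ ij ∈ antidiagonal q, (Nat.choose q ij.1) • (jo (Dn x hx (2 * ij.1) y) (Dn x hx (2 * ij.2) z)).val := by
  induction q generalizing y z with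
  | zero => simp [adr, Dn_zero]
  | succ q ih =>
    have e1 : adr x (xor y.par z.par) (jo y z).val 2 = (Dd x hx (Dd x hx (jo y z))).val := by
      have := Dn_val x hx 2 (jo y z)
      exact this.symm
    have e2 : 2 * (q + 1) = 2 * q + 2 := by ring
    rw [e2, adr_two, e1, DDjo, adr_add]
    have i1 := ih (Dd x hx (Dd x hx y)) z
    have i2 := ih y (Dd x hx (Dd x hx z))
    rw [par_Dd, par_Dd, Bool.not_not] at i1 i2
    rw [i1, i2]
    simp only [Dn_DD]
    rw [sum_antidiagonal_choose_succ_nsmul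
      (fun i j => (jo (Dn x hx (2 * i) y) (Dn x hx (2 * j) z)).val) q, add_comm]
    congr 1
    apply sum_congr rfl
    intro ij hij
    rw [HasAntidiagonal.mem_antidiagonal] at hij
    rw [Nat.choose_symm_of_eq_add (by omega : q = ij.1 + ij.2)]

/-- `u_{m+1}(a,x)` -/
def uraw (m : ℕ) (a x : S) : S :=
  associator (adr x false (a * a) m) a x - associator (adr x false a m) (a * a) x

theorem phiL_map (t : List ℕ) (f : ℕ → ℤ × ℕ × ℕ × ℕ) (y z w : HE P) :
    phiL x hx (t.map f) y z w = (t.map fun k => (f k).1 • (jo (Dn x hx (f k).2.1 y)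
      (asr (Dn x hx (f k).2.2.1 z) (Dn x hx (f k).2.2.2 w) (HX x hx))).val).sum := by
  induction t with
  | nil => rfl
  | cons k t ih => simp only [List.map_cons, phiL, ih, List.sum_cons]

theorem phiL_append (s t : List (ℤ × ℕ × ℕ × ℕ)) (y z w : HE P) :
    phiL x hx (s ++ t) y z w = phiL x hx s y z w + phiL x hx t y z w := by
  induction s with
  | nil => simp [phiL]
  | cons k s ih => obtain ⟨c, i, j, l⟩ := k; simp only [List.cons_append, phiL, ih]; abel

theorem phiL_flatMap (t : List ℕ) (f : ℕ → List (ℤ × ℕ × ℕ × ℕ)) (y z w : HE P) :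
    phiL x hx (t.flatMap f) y z w = (t.map fun k => phiL x hx (f k) y z w).sum := by
  induction t with
  | nil => rfl
  | cons k t ih => simp only [List.flatMap_cons, phiL_append, ih, List.map_cons, List.sum_cons]

theorem list_sum_range (f : ℕ → S) (n : ℕ) :
    ((List.range n).map f).sum = ∑ k ∈ Finset.range n, f k := by
  induction n with
  | zero => rfl
  | succ n ih => rw [List.sum_range_succ, ih, Finset.sum_range_succ]

theorem jo_comm_even (y z : HE P) (h : y.par = false ∨ z.par = false) :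
    (jo y z).val = (jo z y).val := by
  simp only [jo]
  rcases h with h | h <;> rw [h] <;> simp [add_comm]

theorem jo_comm_odd (y z : HE P) (h : y.par = true) (h' : z.par = true) :
    (jo y z).val = -(jo z y).val := by
  simp only [jo, h, h']
  simp

theorem adr_jo_self (a : HE P) (ha : a.par = false) (m : ℕ) :
    adr x false (jo a a).val m = (2 : ℕ) • adr x false (a.val * a.val) m := by
  rw [← adr_nsmul]
  congr 1
  simp [jo, ha, two_nsmul]

theorem as_nsmul1 (n : ℕ) (u v w : S) : associator (n • u) v w = n • associator u v w := by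
  simp only [associator, smul_mul_assoc, smul_sub]

theorem as_sum1 {ι : Type*} (s : Finset ι) (f : ι → S) (v w : S) :
    associator (∑ i ∈ s, f i) v w = ∑ i ∈ s, associator (f i) v w := by
  simp only [associator, sum_mul, sum_sub_distrib]

/-- second part of `u_n` -/
theorem as_second (a b : HE P) (ha : a.par = false) :
    (2 : ℤ) • associator b.val (a.val * a.val) x = -((2 : ℤ) • (jo a (asr a b (HX x hx))).val) := by
  have e1 : (2 : ℤ) • associator b.val (a.val * a.val) x = associator b.val (jo a a).val x := by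
    have : (jo a a).val = (2 : ℤ) • (a.val * a.val) := by simp [jo, ha, two_smul]
    rw [this, as8]
  have e2 := perm213 (jo a a) b (HX x hx)
  have e3 := J4 a a b (HX x hx)
  have e4 : (jo (asr a b (HX x hx)) a).val = (jo a (asr a b (HX x hx))).val :=
    jo_comm_even _ _ (Or.inr ha)
  have e5 : (jo a a).par = false := by simp [jo]
  rw [e5] at e2
  have e6 : (HX x hx).val = x := rfl
  rw [e4, e6] at e3
  rw [e6] at e2
  rw [e1, e2, e3]
  simp [ha, two_smul]

theorem uraw_even (a : HE P) (ha : a.par = false) (q : ℕ) :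
    uraw (2 * q) a.val x = phiL x hx (tgt q false) a a a := by
  apply tcancel P 2 (by norm_num)
  have h1 := leibniz x hx q a a
  rw [ha] at h1
  change adr x false (jo a a).val (2 * q) = _ at h1
  have h2 : (2 : ℤ) • associator (adr x false (a.val * a.val) (2 * q)) a.val x
      = associator (adr x false (jo a a).val (2 * q)) a.val x := by
    rw [adr_jo_self x a ha, as_nsmul1]; norm_cast
  have h3 := as_second x hx a (Dn x hx (2 * q) a) ha
  rw [Dn_val, ha] at h3
  rw [uraw, smul_sub, h2, h1, h3, as_sum1]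
  have h4 : ∀ ij ∈ antidiagonal q,
      associator (q.choose ij.1 • (jo (Dn x hx (2 * ij.1) a) (Dn x hx (2 * ij.2) a)).val) a.val x
      = q.choose ij.1 • (jo (Dn x hx (2 * ij.1) a) (asr (Dn x hx (2 * ij.2) a) a (HX x hx))).val
       + q.choose ij.2 • (jo (Dn x hx (2 * ij.2) a) (asr (Dn x hx (2 * ij.1) a) a (HX x hx))).val := by
    intro ij hij
    rw [HasAntidiagonal.mem_antidiagonal] at hij
    have e := J4 (Dn x hx (2 * ij.1) a) (Dn x hx (2 * ij.2) a) a (HX x hx)
    have e6 : (HX x hx).val = x := rfl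
    have p2 : (Dn x hx (2 * ij.2) a).par = false := by simp [par_Dn, odd?_two_mul, ha]
    rw [e6] at e
    rw [as_nsmul1, e, jo_comm_even _ (Dn x hx (2 * ij.2) a) (Or.inr p2), p2,
      Nat.choose_symm_of_eq_add (by omega : q = ij.1 + ij.2)]
    simp
  rw [sum_congr rfl h4, sum_add_distrib]
  have h5 : ∑ ij ∈ antidiagonal q, q.choose ij.2 •
      (jo (Dn x hx (2 * ij.2) a) (asr (Dn x hx (2 * ij.1) a) a (HX x hx))).val
      = ∑ ij ∈ antidiagonal q, q.choose ij.1 •
      (jo (Dn x hx (2 * ij.1) a) (asr (Dn x hx (2 * ij.2) a) a (HX x hx))).val := by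
    rw [← Finset.Nat.sum_antidiagonal_swap]; rfl
  rw [h5]
  simp only [tgt, phiL, phiL_map, list_sum_range]
  rw [Finset.Nat.sum_antidiagonal_eq_sum_range_succ_mk]
  simp only [Dn_zero, Int.cast_natCast, natCast_zsmul]
  abel

theorem uraw_odd (a : HE P) (ha : a.par = false) (q : ℕ) :
    uraw (2 * q + 1) a.val x = phiL x hx (tgt q true) a a a := by
  apply tcancel P 2 (by norm_num)
  have h0 := leibniz x hx q a a
  rw [ha] at h0
  change adr x false (jo a a).val (2 * q) = _ at h0
  have h1 : adr x false (jo a a).val (2 * q + 1) = ∑ ij ∈ antidiagonal q, q.choose ij.1 •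
      ((jo (Dn x hx (2 * ij.1) a) (Dn x hx (2 * ij.2 + 1) a)).val
        + (jo (Dn x hx (2 * ij.1 + 1) a) (Dn x hx (2 * ij.2) a)).val) := by
    rw [adr, h0, odd?_two_mul]
    simp only [Bool.xor_false, sg_false, one_smul, sum_mul, mul_sum, ← sum_sub_distrib]
    apply sum_congr rfl
    intro ij _
    have e := Djo x hx (Dn x hx (2 * ij.1) a) (Dn x hx (2 * ij.2) a)
    have p2 : (Dn x hx (2 * ij.2) a).par = false := by simp [par_Dn, odd?_two_mul, ha]
    have p1 : (Dn x hx (2 * ij.1) a).par = false := by simp [par_Dn, odd?_two_mul, ha]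
    rw [Dn_succ, Dn_succ, ← one_smul ℤ (jo (Dd x hx (Dn x hx (2 * ij.1) a)) (Dn x hx (2 * ij.2) a)).val]
    rw [p2, sg_false] at e
    rw [← e]
    have p3 : (jo (Dn x hx (2 * ij.1) a) (Dn x hx (2 * ij.2) a)).par = false := by simp [jo, p1, p2]
    simp [Dd, br, HX, p3, smul_sub, smul_mul_assoc, mul_smul_comm]
  have h2 : (2 : ℤ) • associator (adr x false (a.val * a.val) (2 * q + 1)) a.val x
      = associator (adr x false (jo a a).val (2 * q + 1)) a.val x := by
    rw [adr_jo_self x a ha, as_nsmul1]; norm_cast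
  have h3 := as_second x hx a (Dn x hx (2 * q + 1) a) ha
  rw [Dn_val, ha] at h3
  rw [uraw, smul_sub, h2, h1, h3, as_sum1]
  have h4 : ∀ ij ∈ antidiagonal q,
      associator (q.choose ij.1 • ((jo (Dn x hx (2 * ij.1) a) (Dn x hx (2 * ij.2 + 1) a)).val
        + (jo (Dn x hx (2 * ij.1 + 1) a) (Dn x hx (2 * ij.2) a)).val)) a.val x
      = q.choose ij.1 • ((jo (Dn x hx (2 * ij.1) a) (asr (Dn x hx (2 * ij.2 + 1) a) a (HX x hx))).val
        + (jo (Dn x hx (2 * ij.2 + 1) a) (asr (Dn x hx (2 * ij.1) a) a (HX x hx))).val)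
       + q.choose ij.2 • ((jo (Dn x hx (2 * ij.2) a) (asr (Dn x hx (2 * ij.1 + 1) a) a (HX x hx))).val
        + (jo (Dn x hx (2 * ij.1 + 1) a) (asr (Dn x hx (2 * ij.2) a) a (HX x hx))).val) := by
    intro ij hij
    rw [HasAntidiagonal.mem_antidiagonal] at hij
    have e6 : (HX x hx).val = x := rfl
    have e := J4 (Dn x hx (2 * ij.1) a) (Dn x hx (2 * ij.2 + 1) a) a (HX x hx)
    have e' := J4 (Dn x hx (2 * ij.1 + 1) a) (Dn x hx (2 * ij.2) a) a (HX x hx)
    have p2 : (Dn x hx (2 * ij.2) a).par = false := by simp [par_Dn, odd?_two_mul, ha]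
    have p3 : (Dn x hx (2 * ij.2 + 1) a).par = true := by simp [par_Dn, odd?_two_mul, ha, odd?_succ]
    have p4 : (asr (Dn x hx (2 * ij.1) a) a (HX x hx)).par = true := by
      simp [asr, par_Dn, odd?_two_mul, ha, HX]
    rw [as_nsmul1, as1]
    rw [e6] at e e'
    rw [e, e', jo_comm_even _ (Dn x hx (2 * ij.2) a) (Or.inr p2),
      jo_comm_odd _ (Dn x hx (2 * ij.2 + 1) a) p4 p3, p2, p3,
      Nat.choose_symm_of_eq_add (by omega : q = ij.1 + ij.2)]
    simp only [HX, ha, Bool.xor_true, Bool.not_false, Bool.and_true, Bool.false_and, sg_true, sg_false,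
      one_smul, smul_neg, neg_smul, neg_neg, smul_add]
    abel
  rw [sum_congr rfl h4, sum_add_distrib]
  have h5 : ∑ ij ∈ antidiagonal q, q.choose ij.2 •
      ((jo (Dn x hx (2 * ij.2) a) (asr (Dn x hx (2 * ij.1 + 1) a) a (HX x hx))).val
        + (jo (Dn x hx (2 * ij.1 + 1) a) (asr (Dn x hx (2 * ij.2) a) a (HX x hx))).val)
      = ∑ ij ∈ antidiagonal q, q.choose ij.1 •
      ((jo (Dn x hx (2 * ij.1) a) (asr (Dn x hx (2 * ij.2 + 1) a) a (HX x hx))).val
        + (jo (Dn x hx (2 * ij.2 + 1) a) (asr (Dn x hx (2 * ij.1) a) a (HX x hx))).val) := by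
    rw [← Finset.Nat.sum_antidiagonal_swap]; rfl
  rw [h5]
  simp only [tgt, phiL, phiL_flatMap, list_sum_range]
  rw [Finset.Nat.sum_antidiagonal_eq_sum_range_succ_mk]
  simp only [Dn_zero, Int.cast_natCast, natCast_zsmul, add_zero, smul_add]
  abel

end Pool.Agent.Lib.MP_5f6665_al
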