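import Pool.Agent.Lib.MP_5f6665_al.Ident

/-! Normal forms of words in `D` and `τ`. -/

namespace Pool.Agent.Lib.MP_5f6665_al

variable {S : Type*} [NonUnitalNonAssocRing S] {P : Bool → AddSubgroup S} [AltSuper P]

/-- letters -/
inductive Ltr
  | c0 (k : ℕ)
  | c1 (k : ℕ)
  | c2 (k : ℕ)
  | c3 (k : ℕ)
  | c4 (k : ℕ)
  | c5 (k : ℕ)

/-- numerical code of a letter -/
def Ltr.code : Ltr → ℕ
  | .c0 k => 6 * k
  | .c1 k => 6 * k + 1
  | .c2 k => 6 * k + 2
  | .c3 k => 6 * k + 3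
  | .c4 k => 6 * k + 4
  | .c5 k => 6 * k + 5

theorem Ltr.code_inj {l m : Ltr} (h : l.code = m.code) : l = m := by
  cases l <;> cases m <;> simp only [Ltr.code, Ltr.c0.injEq, Ltr.c1.injEq, Ltr.c2.injEq,
    Ltr.c3.injEq, Ltr.c4.injEq, Ltr.c5.injEq] at h ⊢ <;> omega

/-- appending `D` -/
def Ltr.sD : Ltr → Ltr
  | .c0 k => .c0 (k + 1)
  | .c1 k => .c1 (k + 1)
  | .c2 k => .c2 (k + 1)
  | .c3 k => .c2 k
  | .c4 k => .c5 k
  | .c5 k => .c5 (k + 1)

/-- appending `τ` -/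
def Ltr.sT : Ltr → Ltr
  | .c0 0 => .c1 0
  | .c0 (k + 1) => .c3 k
  | .c1 0 => .c2 0
  | .c1 (k + 1) => .c4 k
  | .c2 k => .c5 k
  | .c3 k => .c2 (k + 1)
  | .c4 k => .c5 (k + 1)
  | .c5 k => .c5 (k + 2)

/-- parity of a natural number -/
def odd? (k : ℕ) : Bool := Nat.beq (k % 2) 1

theorem odd?_succ (k : ℕ) : odd? (k + 1) = !odd? k := by
  unfold odd?
  rcases Nat.mod_two_eq_zero_or_one k with h | h
  · have : (k + 1) % 2 = 1 := by omega
    rw [h, this]; rfl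
  · have : (k + 1) % 2 = 0 := by omega
    rw [h, this]; rfl

/-- parity of a letter -/
def Ltr.par : Ltr → Bool
  | .c0 k => odd? k
  | .c1 k => odd? k
  | .c2 k => odd? k
  | .c3 k => !odd? k
  | .c4 k => !odd? k
  | .c5 k => odd? k

theorem Ltr.par_sD (l : Ltr) : l.sD.par = !l.par := by
  cases l <;> simp [Ltr.sD, Ltr.par, odd?_succ]

theorem Ltr.par_sT (l : Ltr) : l.sT.par = l.par := by
  rcases l with k | k | k | k | k | k
  · rcases k with _ | k <;> simp [Ltr.sT, Ltr.par, odd?_succ]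
  · rcases k with _ | k <;> simp [Ltr.sT, Ltr.par, odd?_succ]
  all_goals simp [Ltr.sT, Ltr.par, odd?_succ]

variable (x : S) (hx : x ∈ P true)

/-- iterate of `D` -/
def Dn (n : ℕ) (y : HE P) : HE P := (Dd x hx)^[n] y

theorem Dn_zero (y : HE P) : Dn x hx 0 y = y := rfl
theorem Dn_succ (n : ℕ) (y : HE P) : Dn x hx (n + 1) y = Dd x hx (Dn x hx n y) :=
  Function.iterate_succ_apply' _ _ _

/-- evaluation of letters at `a` -/
def ev (a : HE P) : Ltr → HE P
  | .c0 k => Dn x hx k a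
  | .c1 k => Dn x hx k (Tt x hx a)
  | .c2 k => Dd x hx (Tt x hx (Dn x hx (k + 1) a))
  | .c3 k => Tt x hx (Dn x hx (k + 1) a)
  | .c4 k => Tt x hx (Dn x hx (k + 1) (Tt x hx a))
  | .c5 k => Tt x hx (Dd x hx (Tt x hx (Dn x hx (k + 1) a)))

theorem L1 (m : ℕ) (y : HE P) : Dd x hx (Dd x hx (Tt x hx (Dn x hx (m + 1) y)))
    = Dd x hx (Tt x hx (Dn x hx (m + 2) y)) := by
  rw [Dn_succ, Dn_succ x hx (m + 1), Dn_succ, U5eq]

theorem L3 (z : HE P) : Dd x hx (Tt x hx (Dd x hx (Tt x hx z)))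
    = Tt x hx (Dd x hx (Tt x hx (Dd x hx z))) := by
  rw [← U4eq, ← U4eq]

theorem L2 (m : ℕ) (y : HE P) : Dd x hx (Tt x hx (Dn x hx (m + 1) (Tt x hx y)))
    = Tt x hx (Dd x hx (Tt x hx (Dn x hx (m + 1) y))) := by
  induction m with
  | zero => exact L3 x hx y
  | succ m ih =>
    rw [← L1, ih, L3, ← Dn_succ]

theorem ev_sD (a : HE P) (l : Ltr) : ev x hx a l.sD = Dd x hx (ev x hx a l) := by
  rcases l with k | k | k | k | k | k
  · exact Dn_succ x hx k a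
  · exact Dn_succ x hx k _
  · exact (L1 x hx k a).symm
  · rfl
  · exact (L2 x hx k a).symm
  · simp only [Ltr.sD, ev]
    rw [L3, ← Dn_succ]

theorem ev_sT (a : HE P) (l : Ltr) : ev x hx a l.sT = Tt x hx (ev x hx a l) := by
  rcases l with k | k | k | k | k | k
  · rcases k with _ | k <;> rfl
  · rcases k with _ | k
    · simp only [Ltr.sT, ev]
      rw [Dn_zero, U4eq]; rfl
    · rfl
  · rfl
  · simp only [Ltr.sT, ev]
    rw [U4eq, ← Dn_succ]
  · simp only [Ltr.sT, ev]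
    rw [U4eq, ← Dn_succ, L2]
  · simp only [Ltr.sT, ev]
    rw [U4eq, U5eq, L3, ← Dn_succ, L3, ← Dn_succ]

theorem par_Dd (y : HE P) : (Dd x hx y).par = !y.par := by simp [Dd, br, HX]
theorem par_Tt (y : HE P) : (Tt x hx y).par = y.par := by simp [Tt, br, HT]
theorem par_Dn (n : ℕ) (y : HE P) : (Dn x hx n y).par = xor (odd? n) y.par := by
  induction n with
  | zero => cases h : y.par <;> simp [Dn_zero, h] <;> rfl
  | succ n ih => rw [Dn_succ, par_Dd, ih, odd?_succ]; simp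

theorem ev_par (a : HE P) (ha : a.par = false) (l : Ltr) : (ev x hx a l).par = l.par := by
  rcases l with k | k | k | k | k | k <;>
    simp [ev, Ltr.par, par_Dd, par_Tt, par_Dn, ha, odd?_succ]

end Pool.Agent.Lib.MP_5f6665_al
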